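import Mathlib
import Pool.Prelude.Def_H_3587d628

/-!
Definitions for the APX-hardness of CONVEX-PARTITION.
-/

namespace Pool.Agent.Work.MP_32aa60_lc

open N68a2faeb

/-- An NP optimisation problem over bit strings. -/
structure NPO where
  /-- the set of instances -/
  inst : List Bool → Bool
  /-- `sol (x, y)`: `y` is a feasible solution of `x` -/
  sol : List Bool × List Bool → Bool
  /-- the measure of a solution -/
  val : List Bool × List Bool → ℕ
  /-- maximisation (`true`) or minimisation (`false`) -/
  isMax : Bool
  /-- the length bound for feasible solutions -/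
  bound : Polynomial ℕ
  inst_poly : IsPolyTime inst
  sol_poly : IsPolyTime sol
  val_poly : IsPolyTime val
  sol_short : ∀ x y, inst x = true → sol (x, y) = true → y.length ≤ bound.eval x.length
  val_pos : ∀ x y, inst x = true → sol (x, y) = true → 0 < val (x, y)

/-- `x` is an instance with at least one feasible solution. -/
def NPO.Feasible (A : NPO) (x : List Bool) : Prop :=
  A.inst x = true ∧ ∃ y, A.sol (x, y) = true

/-- `y` is a feasible solution of `x` whose performance ratio is at most `r`. -/
def NPO.Approx (A : NPO) (r : ℝ) (x y : List Bool) : Prop :=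
  A.sol (x, y) = true ∧ ∀ z, A.sol (x, z) = true →
    if A.isMax = true then (A.val (x, z) : ℝ) ≤ r * A.val (x, y)
    else (A.val (x, y) : ℝ) ≤ r * A.val (x, z)

/-- The class APX: a polynomial-time algorithm achieves a constant performance ratio. -/
def NPO.InAPX (A : NPO) : Prop :=
  ∃ (r : ℝ) (alg : List Bool → List Bool), IsPolyTime alg ∧
    ∀ x, A.Feasible x → A.Approx r x (alg x)

/-- A rational point as a point of the real plane. -/
def toPlane (p : ℚ × ℚ) : ℝ × ℝ := ((p.1 : ℝ), (p.2 : ℝ))

/-- Every listed point is a vertex (extreme point) of the convex hull of the listed points. -/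
def ConvexPos (T : List (ℚ × ℚ)) : Prop :=
  ∀ p ∈ T, toPlane p ∈ (convexHull ℝ (toPlane '' {q | q ∈ T})).extremePoints ℝ

/-- `y` lists pairwise disjoint sets in convex position whose union is the set listed by `S`. -/
def IsPartition (S : List (ℚ × ℚ)) (y : List (List (ℚ × ℚ))) : Prop :=
  y.Pairwise List.Disjoint ∧ (∀ p, p ∈ S ↔ ∃ T ∈ y, p ∈ T) ∧ ∀ T ∈ y, ConvexPos T

/-- The least number of parts of a partition into sets in convex position. -/
noncomputable def CP (S : List (ℚ × ℚ)) : ℕ :=
  sInf {n | ∃ y, IsPartition S y ∧ y.length = n}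

/-- A reduction to CONVEX-PARTITION that preserves approximation schemes: the error `1 / k` is
given to the polynomial-time maps `f` and `g` in unary, and `c (1 / k) = 1 / (α k)`. -/
def ReducesToCP (A : NPO) : Prop :=
  ∃ (f : List Bool × List Bool → List (ℚ × ℚ))
    (g : (List Bool × List Bool) × List (List (ℚ × ℚ)) → List Bool) (α : ℕ),
    0 < α ∧ IsPolyTime f ∧ IsPolyTime g ∧
    ∀ (k : ℕ) (x : List Bool), 1 ≤ k → A.Feasible x →
      (f (x, List.replicate k true)).Nodup ∧ f (x, List.replicate k true) ≠ [] ∧
      ∀ y, IsPartition (f (x, List.replicate k true)) y →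
        A.sol (x, g ((x, List.replicate k true), y)) = true ∧
        ((y.length : ℝ) ≤ (1 + 1 / ((α : ℝ) * k)) * CP (f (x, List.replicate k true)) →
          A.Approx (1 + 1 / (k : ℝ)) x (g ((x, List.replicate k true), y)))

end Pool.Agent.Work.MP_32aa60_lc
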