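import Mathlib
import Pool.Agent.Work.MP_32aa60_lc.H39Bridge
import Pool.Agent.Lib.Poly.CookLevin
import Pool.Agent.Work.MP_32aa60_lc.H39Defs

-- merged part: Pool.Agent.Work.MP_32aa60_lc.H39Sound
section
-- merged part: Pool.Agent.Work.MP_32aa60_lc.H39Tools
section
/-!
Polynomial-time tools: binary comparison, rationals, bounded quantifiers, primes.
-/

namespace Pool.Agent.Work.MP_32aa60_lc

open Pool.Agent.Lib.Poly Computability

/-- Natural numbers in binary. -/
structure Bin where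
  val : ℕ

instance : Enc Bin := ⟨fun n => encodeNat n.val, fun ⟨a⟩ ⟨b⟩ h => by
  have := congrArg decodeNat h
  simp only [decode_encodeNat] at this
  rw [this]⟩

/-- The value of a bit string, least significant bit first. -/
def bv : List Bool → ℕ
  | [] => 0
  | b :: l => b.toNat + 2 * bv l

theorem bv_encodeNat (n : ℕ) : bv (encodeNat n) = n := by
  induction n using Nat.strong_induction_on with
  | _ n ih =>
    by_cases h : n = 0
    · subst h; rfl
    · rw [encodeNat_pos n h, bv, ih (n / 2) (by omega)]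
      by_cases h2 : n % 2 = 1
      · simp [h2]; omega
      · simp [h2]; omega

theorem bv_pad (l : List Bool) (n : ℕ) : bv (l ++ List.replicate n false) = bv l := by
  induction l with
  | nil =>
    induction n with
    | zero => rfl
    | succ n ih => simp only [List.nil_append] at ih ⊢; simp [List.replicate_succ, bv, ih]
  | cons b l ih => simp [bv, ih]

def cmpStep (A B : ℕ) (s : ℕ × ℕ × Bool) (p : Bool × Bool) : ℕ × ℕ × Bool :=
  ((s.1 + A * p.1.toNat) / 2, (s.2.1 + B * p.2.toNat) / 2,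
    if (s.1 + A * p.1.toNat) % 2 = (s.2.1 + B * p.2.toNat) % 2 then s.2.2
    else decide ((s.2.1 + B * p.2.toNat) % 2 = 1))

def cmpFin (s : ℕ × ℕ × Bool) : Prop := s.1 < s.2.1 ∨ (s.1 = s.2.1 ∧ s.2.2 = true)

theorem cmp_fold (A B : ℕ) (z : List (Bool × Bool)) (s : ℕ × ℕ × Bool) :
    cmpFin (z.foldl (cmpStep A B) s) ↔
      (s.1 + A * bv (z.map Prod.fst) < s.2.1 + B * bv (z.map Prod.snd) ∨
        (s.1 + A * bv (z.map Prod.fst) = s.2.1 + B * bv (z.map Prod.snd) ∧ s.2.2 = true)) := by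
  induction z generalizing s with
  | nil => simp [cmpFin, bv]
  | cons p z ih =>
    rw [List.foldl_cons, ih]
    obtain ⟨u, v, e⟩ := s
    simp only [cmpStep, List.map_cons, bv, Nat.mul_add, Nat.mul_left_comm A 2,
      Nat.mul_left_comm B 2]
    generalize A * p.1.toNat = x
    generalize B * p.2.toNat = y
    generalize A * bv (z.map Prod.fst) = X
    generalize B * bv (z.map Prod.snd) = Y
    by_cases h : (u + x) % 2 = (v + y) % 2
    · rw [if_pos h]
      by_cases he : e = true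
      · simp only [he, and_true]; omega
      · simp only [he, and_false, or_false, Bool.false_eq_true]; omega
    · rw [if_neg h]
      simp only [decide_eq_true_eq]
      by_cases he : e = true
      · simp only [he, and_true]; omega
      · simp only [he, and_false, or_false, Bool.false_eq_true]; omega

section
variable {α β : Type} [Enc α] [Enc β]

theorem pt_binLe {A B : α → ℕ} {a b : α → Bin} (hA : PT A) (hB : PT B) (ha : PT a) (hb : PT b) :
    PT fun x => decide (A x * (a x).val ≤ B x * (b x).val) := by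
  have hs : PT fun p : α × (ℕ × ℕ × Bool) × Bool × Bool => cmpStep (A p.1) (B p.1) p.2.1 p.2.2 := by
    unfold cmpStep; fun_prop
  obtain ⟨sA, hsA, hsA'⟩ := hA.size
  obtain ⟨sB, hsB, hsB'⟩ := hB.size
  have h1 : PT fun x => ((enc (a x) ++ List.replicate (enc (b x)).length false).zip
      (enc (b x) ++ List.replicate (enc (a x)).length false)).foldl (cmpStep (A x) (B x))
      (0, 0, true) := by
    refine PT.foldl (f := fun x => cmpStep (A x) (B x)) hs (by fun_prop) (by fun_prop)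
      (fun n => 2 * sA n + 2 * sB n) (by fun_prop) fun x c p => ?_
    obtain ⟨u, v, e⟩ := c
    have e1 := (hsA' x).trans (hsA.mono (Nat.le_add_right (sz x) (sz p)))
    have e2 := (hsB' x).trans (hsB.mono (Nat.le_add_right (sz x) (sz p)))
    have e3 : A x * p.1.toNat ≤ A x := by cases p.1 <;> simp
    have e4 : B x * p.2.toNat ≤ B x := by cases p.2 <;> simp
    simp only [cmpStep, sz_pair, sz_nat, sz_bool] at e1 e2 ⊢
    omega
  have h2 : PT fun s : ℕ × ℕ × Bool => decide (s.1 < s.2.1) || (decide (s.1 = s.2.1) && s.2.2) := by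
    fun_prop
  refine (h2.comp h1).of_eq fun x => ?_
  have key := cmp_fold (A x) (B x) ((enc (a x) ++ List.replicate (enc (b x)).length false).zip
      (enc (b x) ++ List.replicate (enc (a x)).length false)) (0, 0, true)
  rw [List.map_fst_zip (by simp; omega), List.map_snd_zip (by simp; omega), bv_pad, bv_pad] at key
  have ea : bv (enc (a x)) = (a x).val := bv_encodeNat _
  have eb : bv (enc (b x)) = (b x).val := bv_encodeNat _
  rw [ea, eb] at key
  rw [Bool.eq_iff_iff]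
  simp only [Bool.or_eq_true, decide_eq_true_eq, Bool.and_eq_true]
  refine Iff.trans key ?_
  simp only [and_true]
  omega

@[fun_prop] theorem pt_dex {p : α → β → Prop} {l : α → List β} [∀ x y, Decidable (p x y)]
    [∀ x, Decidable (∃ y ∈ l x, p x y)] (hp : PT fun z : α × β => decide (p z.1 z.2))
    (hl : PT l) : PT fun x => decide (∃ y ∈ l x, p x y) :=
  (PT.any (f := fun x y => decide (p x y)) hp hl).of_eq fun _ => by
    rw [Bool.eq_iff_iff]; simp

@[fun_prop] theorem pt_dall {p : α → β → Prop} {l : α → List β} [∀ x y, Decidable (p x y)]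
    [∀ x, Decidable (∀ y ∈ l x, p x y)] (hp : PT fun z : α × β => decide (p z.1 z.2))
    (hl : PT l) : PT fun x => decide (∀ y ∈ l x, p x y) :=
  (PT.all (f := fun x y => decide (p x y)) hp hl).of_eq fun _ => by
    rw [Bool.eq_iff_iff]; simp

@[fun_prop] theorem pt_dtrue {f : α → Bool} [∀ x, Decidable (f x = true)] (hf : PT f) :
    PT fun x => decide (f x = true) :=
  hf.of_eq fun _ => by simp

end

instance encRat : Enc ℚ := ⟨N487b59b3.bitEncode, N487b59b3.bitEncode_injective⟩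

theorem enc_natCast (n : ℕ) :
    enc (n : ℚ) = enc ((Raw.mk (encodeNat n), Raw.mk []), Raw.mk (encodeNat 1)) := by
  have h : ∀ q : ℚ, enc q = N487b59b3.delimit (N487b59b3.delimit (encodeNat q.num.toNat) ++
    encodeNat (-q.num).toNat) ++ encodeNat q.den := fun _ => rfl
  rw [h, Rat.num_natCast, Rat.den_natCast]
  have : (-((n : ℕ) : ℤ)).toNat = 0 := by omega
  rw [this, Int.toNat_natCast, encodeNat_zero]
  rfl

@[fun_prop] theorem pt_natCast {α : Type} [Enc α] {f : α → ℕ} (hf : PT f) :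
    PT fun x => (f x : ℚ) := by
  have h1 : PT fun x => ((Raw.mk (encodeNat (f x)), Raw.mk []), Raw.mk (encodeNat 1)) :=
    PT.mk (PT.mk (PT.toRaw hf.encodeNat) (PT.const _)) (PT.const _)
  exact h1.of_enc (fun x => x) (fun _ => rfl) fun x => (enc_natCast _).symm

/-- A prime above `B`. -/
def primeAbove (B : ℕ) : ℕ :=
  ((List.range (2 * B + 3)).filter fun q =>
    decide (B < q ∧ 2 ≤ q ∧ ∀ e ∈ List.range q, 2 ≤ e → q % e ≠ 0)).headD 0

theorem primeAbove_spec (B : ℕ) : B < primeAbove B ∧ (primeAbove B).Prime := by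
  obtain ⟨p, hp, h1, h2⟩ := Nat.exists_prime_lt_and_le_two_mul (B + 1) (by omega)
  have hmem : p ∈ (List.range (2 * B + 3)).filter fun q =>
      decide (B < q ∧ 2 ≤ q ∧ ∀ e ∈ List.range q, 2 ≤ e → q % e ≠ 0) := by
    simp only [List.mem_filter, List.mem_range, decide_eq_true_eq]
    refine ⟨by omega, by omega, hp.two_le, fun e he h2e h0 => ?_⟩
    rcases (Nat.dvd_prime hp).1 (Nat.dvd_of_mod_eq_zero h0) with h | h <;> omega
  unfold primeAbove
  generalize hL : ((List.range (2 * B + 3)).filter fun q =>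
    decide (B < q ∧ 2 ≤ q ∧ ∀ e ∈ List.range q, 2 ≤ e → q % e ≠ 0)) = L at hmem
  cases L with
  | nil => cases hmem
  | cons q L =>
    have hq : q ∈ (List.range (2 * B + 3)).filter fun q =>
      decide (B < q ∧ 2 ≤ q ∧ ∀ e ∈ List.range q, 2 ≤ e → q % e ≠ 0) := by rw [hL]; simp
    simp only [List.mem_filter, List.mem_range, decide_eq_true_eq] at hq
    obtain ⟨-, h3, h4, h5⟩ := hq
    refine ⟨h3, Nat.prime_def_lt'.2 ⟨h4, fun m hm hm' hd => h5 m hm' hm ?_⟩⟩
    exact Nat.mod_eq_zero_of_dvd hd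

@[fun_prop] theorem pt_primeAbove : PT primeAbove := by
  unfold primeAbove
  fun_prop

section dedup
variable {β : Type} [DecidableEq β]

def ded (l : List β) : List β := l.foldl (fun s x => if x ∈ s then s else x :: s) []

theorem ded_aux (l s : List β) (hs : s.Nodup) :
    (l.foldl (fun s x => if x ∈ s then s else x :: s) s).Nodup ∧
      ∀ x, x ∈ l.foldl (fun s x => if x ∈ s then s else x :: s) s ↔ x ∈ s ∨ x ∈ l := by
  induction l generalizing s with
  | nil => simp [hs]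
  | cons y l ih =>
    rw [List.foldl_cons]
    by_cases h : y ∈ s
    · rw [if_pos h]
      refine ⟨(ih s hs).1, fun x => ?_⟩
      rw [(ih s hs).2, List.mem_cons]
      constructor
      · tauto
      · rintro (h1 | rfl | h1) <;> tauto
    · rw [if_neg h]
      have hs' : (y :: s).Nodup := List.nodup_cons.2 ⟨h, hs⟩
      refine ⟨(ih _ hs').1, fun x => ?_⟩
      rw [(ih _ hs').2, List.mem_cons, List.mem_cons]
      tauto

theorem ded_nodup (l : List β) : (ded l).Nodup := (ded_aux l [] List.nodup_nil).1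

theorem mem_ded (l : List β) (x : β) : x ∈ ded l ↔ x ∈ l := by
  rw [ded, (ded_aux l [] List.nodup_nil).2]; simp

theorem pt_ded {α : Type} [Enc α] [Enc β] {l : α → List β} (hl : PT l) :
    PT fun x => ded (l x) := by
  refine PT.foldl (f := fun _ (s : List β) (x : β) => if x ∈ s then s else x :: s)
    (by fun_prop) (by fun_prop) hl (fun n => 2 * n + 1) (by fun_prop) fun a c x => ?_
  split_ifs
  · omega
  · simp; omega

end dedup

end Pool.Agent.Work.MP_32aa60_lc
end

-- merged part: Pool.Agent.Work.MP_32aa60_lc.H39CL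
section
/-!
Cook-Levin with recovery of the witness from a satisfying assignment.
-/

namespace Pool.Agent.Work.MP_32aa60_lc

open Turing Pool.Agent.Lib.Poly Pool.Agent.Lib.Cx Pool.Agent.Lib.Cx.Tab

/-- The witness of length `len` read off an assignment. -/
def wit (A : ℕ → Bool) (len : ℕ) : List Bool := (List.range len).map fun u => A (var u 0 1)

section machine

variable {a b d : ℕ} (M : NM (Fin a) (Fin b) (Fin d))
variable (q0 qrej : Fin a) (k0 : Fin b) (ι : Bool → Fin d)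

theorem tab_sound' (pre : List Bool) (P T : ℕ) (A : ℕ → Bool)
    (h : ∀ c ∈ tab M q0 qrej k0 ι pre P T, holds A c) :
    ∃ len ≤ P, (M.step^[T] (start q0 k0 ι pre (wit A len))).1 ≠ qrej := by
  rw [tab, form_iff] at h
  obtain ⟨h0, hR, hP, hch, hot, hin, htr⟩ := h
  have ex : ∃ u, A (var u 0 0) = false := ⟨P, hP⟩
  let L := Nat.find ex
  have hL1 : ∀ u < L, A (var u 0 0) = true := fun u hu => by
    simpa using Nat.find_min ex hu
  have hL2 : ∀ u, L ≤ u → u ≤ T → A (var u 0 0) = false := by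
    intro u hu
    induction u, hu using Nat.le_induction with
    | base => intro _; exact Nat.find_spec ex
    | succ u hu ih =>
      intro hT
      by_contra hc
      simp only [Bool.not_eq_false] at hc
      have := hch u (by omega) hc
      rw [ih (by omega)] at this
      cases this
  refine ⟨L, Nat.find_min' ex hP, ?_⟩
  set w : List Bool := wit A L with hwd
  have hw : ∀ u, w[u]? = if u < L then some (A (var u 0 1)) else none := by
    intro u
    by_cases hu : u < L <;> simp [hwd, wit, hu]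
  have key : ∀ t ≤ T, A (var t 0 (cS (M.step^[t] (start q0 k0 ι pre w)).1)) = true ∧
      ∀ k i, i + t < T →
        A (var t i (cC k ((M.step^[t] (start q0 k0 ι pre w)).2 k)[i]?)) = true := by
    intro t
    induction t with
    | zero =>
      intro _
      refine ⟨h0, ?_⟩
      intro k i hi
      simp only [Function.iterate_zero, id]
      by_cases hk : k = k0
      · subst hk
        have hc := hin i hi
        rw [start_get]
        unfold initCl at hc
        by_cases hp : i < pre.length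
        · rw [if_pos hp] at hc ⊢
          have := hc _ (List.mem_singleton_self _)
          rw [holds_unit] at this
          revert this
          cases pre.getD i false <;> simp
        · rw [if_neg hp] at hc ⊢
          simp only [List.forall_mem_cons, holds_or2, holds_imp2, holds_impn] at hc
          obtain ⟨c1, c2, c3, -⟩ := hc
          rw [hw]
          by_cases hu : (i - pre.length) / 3 < L
          · rw [if_pos hu, Option.map_some]
            have e := hL1 _ hu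
            have m3 : (i - pre.length) % 3 = 0 ∨ (i - pre.length) % 3 = 1 ∨
              (i - pre.length) % 3 = 2 := by omega
            cases hb : A (var ((i - pre.length) / 3) 0 1)
            · have := c3 e hb
              rcases m3 with m | m | m <;> simpa [m] using this
            · have := c2 e hb
              rcases m3 with m | m | m <;> simpa [m] using this
          · rw [if_neg hu, Option.map_none]
            exact c1 (hL2 _ (by omega) (by omega))
      · have : (start q0 k0 ι pre w).2 k = [] := by simp [start, hk]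
        rw [this]
        refine hot i hi _ ?_
        simp only [others, List.mem_map, Finset.mem_toList, Finset.mem_filter, Finset.mem_univ,
          true_and]
        exact ⟨k, hk, rfl⟩
    | succ t ih =>
      intro ht
      obtain ⟨i1, i2⟩ := ih (by omega)
      rw [Function.iterate_succ_apply']
      generalize M.step^[t] (start q0 k0 ι pre w) = c at i1 i2
      have hz : ∀ i < T, ∀ z, ∀ cl ∈ transCl t i (row M z), holds A cl := fun i hi z =>
        htr t (by omega) i hi _ (List.mem_map.2 ⟨z, by simp, rfl⟩)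
      have e0 := hz 0 (by omega) (c.1, (c.2 (M.stk c.1))[0]?, k0, none)
      simp only [transCl, row, List.forall_mem_cons, holds_imp2, holds_imp1] at e0
      have ev := e0.1 i1 (i2 _ 0 (by omega))
      refine ⟨by rw [step_fst]; exact e0.2.1 ev, ?_⟩
      intro k i hi
      rw [step_snd, apply_get]
      set o := opOn M c.1 (c.2 (M.stk c.1))[0]? k with ho
      have e1 := hz i (by omega) (c.1, (c.2 (M.stk c.1))[0]?, k,
        (c.2 k)[if mode o = 0 then i else if mode o = 1 then i + 1 else i - 1]?)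
      simp only [transCl, row, List.forall_mem_cons, ← ho] at e1
      have e2 := e1.2.2.1
      by_cases hm : mode o = 2 ∧ i = 0
      · rw [if_pos hm] at e2 ⊢
        rw [holds_imp1] at e2
        rw [hm.2]
        exact e2 ev
      · rw [if_neg hm] at e2 ⊢
        rw [holds_imp2] at e2
        refine e2 ev (i2 _ _ ?_)
        split_ifs <;> omega
  intro e
  have := (key T le_rfl).1
  rw [e, hR] at this
  cases this

end machine

/-- Formulas in conjunctive normal form. -/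
abbrev Cnf := List (List (ℕ × Bool))

/-- An assignment satisfies a formula. -/
def Sat (A : ℕ → Bool) (φ : Cnf) : Prop := ∀ c ∈ φ, ∃ l ∈ c, A l.1 = l.2

theorem cook_levin_wit {α : Type} [Enc α] (R : α × List Bool → Bool) (hR : PT R) (P : α → ℕ)
    (hP : PT P) : ∃ φ : α → Cnf, PT φ ∧ (∀ x, ∀ c ∈ φ x, c.length = 3) ∧
      (∀ x w, w.length ≤ P x → R (x, w) = true → ∃ A, Sat A (φ x)) ∧
      (∀ x A, Sat A (φ x) → ∃ len ≤ P x, R (x, wit A len) = true) := by
  obtain ⟨tmc⟩ := hR.tm2 enc enc R (fun a => a) (fun _ => rfl) fun _ => rfl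
  obtain ⟨a, b, d, M, q0, qacc, qrej, k0, ι, c, hne, -, -, htime, -⟩ :=
    exists_NM tmc.tm tmc.outputAlphabet
  let ι' : Bool → Fin d := fun β => ι (tmc.inputAlphabet.symm β)
  let pre : α → List Bool := fun x => enc (x, ())
  let T : α → ℕ := fun x => c * (tmc.time.eval (2 * sz x + 1 + 3 * P x) + 1)
  have e : ∀ x (w : List Bool), enc (x, w) = pre x ++ w.flatMap tri := by
    intro x w
    have : enc w = w.flatMap tri := encode_list w
    simp only [pre, enc_pair, this]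
    simp [enc]
  have hrun : ∀ x (w : List Bool), w.length ≤ P x →
      ((M.step^[T x] (start q0 k0 ι' (pre x) w)).1 ≠ qrej ↔ R (x, w) = true) := by
    intro x w hw
    obtain ⟨⟨n, hn⟩, hle⟩ := tmc.outputsFun (x, w)
    dsimp only at hle
    have hl : (enc (x, w)).length ≤ 2 * sz x + 1 + 3 * P x := by
      have h1 : (enc (x, w)).length = sz (x, w) := rfl
      have h2 := sz_list_le w 1 (fun _ _ => le_rfl)
      rw [h1, sz_pair]
      omega
    have h1 := htime _ (tmc.outputAlphabet.symm (R (x, w))) n hn (T x)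
      (Nat.mul_le_mul_left _ (Nat.add_le_add_right (hle.trans (eval_mono _ hl)) _))
    have e2 : start q0 k0 ι' (pre x) w =
        (q0, Function.update (fun _ => []) k0
          ((List.map tmc.inputAlphabet.invFun (enc (x, w))).map ι)) := by
      simp only [start, List.map_map, e]
      rfl
    rw [e2, h1]
    cases R (x, w) <;> simp [hne]
  refine ⟨fun x => tab M q0 qrej k0 ι' (pre x) (P x) (T x), ?_, fun x => form_length _ _ _ _ _ _ _ _ _ _,
    fun x w hw h => tab_complete M q0 qrej k0 ι' (pre x) (P x) (T x) w hw ((hrun x w hw).2 h),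
    fun x A h => ?_⟩
  · exact pt_form _ _ _ _ _ _ _ (by fun_prop) hP (by fun_prop)
  · obtain ⟨len, h1, h2⟩ := tab_sound' M q0 qrej k0 ι' (pre x) (P x) (T x) A h
    exact ⟨len, h1, (hrun x _ (by simpa [wit] using h1)).1 h2⟩

end Pool.Agent.Work.MP_32aa60_lc
end

-- merged part: Pool.Agent.Work.MP_32aa60_lc.H39Geo
section
/-!
Plane geometry: orientation tests, supporting functionals, and lexicographic coordinates.
-/

namespace Pool.Agent.Work.MP_32aa60_lc

/-- Orientation determinant. -/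
def ori (x1 y1 x2 y2 x3 y3 : ℤ) : ℤ := (x2 - x1) * (y3 - y1) - (x3 - x1) * (y2 - y1)

/-- The integer point belongs to the list. -/
def In (T : List (ℚ × ℚ)) (x y : ℤ) : Prop := ((x : ℚ), (y : ℚ)) ∈ T

theorem ConvexPos.not_mem_hull {T : List (ℚ × ℚ)} (hT : ConvexPos T) {p : ℚ × ℚ} (hp : p ∈ T)
    (h : toPlane p ∈ convexHull ℝ (toPlane '' {q | q ∈ T} \ {toPlane p})) : False := by
  have h1 := hT p hp
  rw [Convex.mem_extremePoints_iff_mem_sdiff_convexHull_sdiff (convex_convexHull ℝ _)] at h1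
  exact h1.2 (convexHull_mono (Set.sdiff_subset_sdiff_left (subset_convexHull ℝ _)) h)

theorem tri_false {T : List (ℚ × ℚ)} (hT : ConvexPos T) {ax ay bx by' cx cy px py : ℤ}
    (ha : In T ax ay) (hb : In T bx by') (hc : In T cx cy) (hp : In T px py)
    (h1 : 0 < ori ax ay bx by' px py) (h2 : 0 < ori bx by' cx cy px py)
    (h3 : 0 ≤ ori cx cy ax ay px py) : False := by
  refine hT.not_mem_hull hp ?_
  have mem : ∀ x y : ℤ, In T x y → (x, y) ≠ (px, py) → ((x : ℝ), (y : ℝ)) ∈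
      convexHull ℝ (toPlane '' {q | q ∈ T} \ {toPlane ((px : ℚ), (py : ℚ))}) := by
    intro x y h hne
    refine subset_convexHull ℝ _ ⟨⟨_, h, by simp [toPlane]⟩, fun e => hne ?_⟩
    simp only [toPlane, Rat.cast_intCast, Set.mem_singleton_iff, Prod.mk.injEq, Int.cast_inj] at e
    rw [e.1, e.2]
  have ma := mem _ _ ha (by
    intro e; simp only [Prod.mk.injEq] at e; rw [e.1, e.2] at h1; simp [ori] at h1)
  have mb := mem _ _ hb (by
    intro e; simp only [Prod.mk.injEq] at e; rw [e.1, e.2] at h1; simp [ori] at h1)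
  have mc := mem _ _ hc (by
    intro e; simp only [Prod.mk.injEq] at e; rw [e.1, e.2] at h2; simp [ori] at h2)
  set u : ℝ := (ori bx by' cx cy px py : ℝ) with hu
  set v : ℝ := (ori cx cy ax ay px py : ℝ) with hv
  set w : ℝ := (ori ax ay bx by' px py : ℝ) with hw
  have hu0 : 0 < u := by rw [hu]; exact_mod_cast h2
  have hv0 : 0 ≤ v := by rw [hv]; exact_mod_cast h3
  have hw0 : 0 < w := by rw [hw]; exact_mod_cast h1
  have hs : 0 < u + v + w := by linarith only [hu0, hv0, hw0]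
  have := (convex_convexHull ℝ _).sum_mem (t := Finset.univ)
    (w := ![u / (u + v + w), v / (u + v + w), w / (u + v + w)])
    (z := ![((ax : ℝ), (ay : ℝ)), ((bx : ℝ), (by' : ℝ)), ((cx : ℝ), (cy : ℝ))])
    (by intro i _; fin_cases i <;> simp <;> positivity)
    (by simp [Fin.sum_univ_three]; field_simp)
    (by intro i _; fin_cases i <;> assumption)
  convert this using 1
  simp only [toPlane, Rat.cast_intCast, Fin.sum_univ_three, Matrix.cons_val_zero,
    Matrix.cons_val_one, Matrix.cons_val, Prod.smul_mk, smul_eq_mul, Prod.mk_add_mk, Prod.mk.injEq]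
  constructor
  · field_simp
    simp only [hu, hv, hw, ori]
    push_cast
    ring
  · field_simp
    simp only [hu, hv, hw, ori]
    push_cast
    ring

theorem line_false {T : List (ℚ × ℚ)} (hT : ConvexPos T) {x0 y0 m u1 u2 u3 : ℤ}
    (ha : In T (x0 + m * u1) (y0 + u1)) (hp : In T (x0 + m * u2) (y0 + u2))
    (hb : In T (x0 + m * u3) (y0 + u3)) (h1 : u1 < u2) (h2 : u2 < u3) : False := by
  refine hT.not_mem_hull hp ?_
  have mem : ∀ u : ℤ, In T (x0 + m * u) (y0 + u) → u ≠ u2 →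
      (((x0 + m * u : ℤ) : ℝ), ((y0 + u : ℤ) : ℝ)) ∈ convexHull ℝ (toPlane '' {q | q ∈ T} \
        {toPlane (((x0 + m * u2 : ℤ) : ℚ), ((y0 + u2 : ℤ) : ℚ))}) := by
    intro u h hne
    refine subset_convexHull ℝ _ ⟨⟨_, h, by simp [toPlane]⟩, fun e => hne ?_⟩
    simp only [toPlane, Rat.cast_intCast, Set.mem_singleton_iff, Prod.mk.injEq, Int.cast_inj] at e
    omega
  have ma := mem _ ha h1.ne
  have mb := mem _ hb h2.ne'
  have e1 : (0 : ℝ) < (u2 : ℝ) - u1 := by have : (u1 : ℝ) < u2 := by exact_mod_cast h1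
                                          linarith only [this]
  have e2 : (0 : ℝ) < (u3 : ℝ) - u2 := by have : (u2 : ℝ) < u3 := by exact_mod_cast h2
                                          linarith
  have e3 : (0 : ℝ) < (u3 : ℝ) - u1 := by linarith only [e1, e2]
  have := convex_convexHull ℝ _ ma mb (a := ((u3 : ℝ) - u2) / (u3 - u1))
    (b := ((u2 : ℝ) - u1) / (u3 - u1)) (by positivity) (by positivity) (by field_simp; ring)
  convert this using 1
  simp only [toPlane, Rat.cast_intCast, Prod.smul_mk, smul_eq_mul, Prod.mk_add_mk, Prod.mk.injEq]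
  push_cast
  constructor
  · field_simp; ring
  · field_simp; ring

theorem convexPos_of_fun (T : List (ℚ × ℚ))
    (h : ∀ p ∈ T, ∃ α β : ℚ, ∀ q ∈ T, q ≠ p → α * p.1 + β * p.2 < α * q.1 + β * q.2) :
    ConvexPos T := by
  intro p hp
  obtain ⟨α, β, hf⟩ := h p hp
  let F : ℝ × ℝ → ℝ := fun z => α * z.1 + β * z.2
  have hF : ∀ z ∈ convexHull ℝ (toPlane '' {q | q ∈ T}),
      z = toPlane p ∨ F (toPlane p) < F z := by
    intro z hz
    refine convexHull_min (t := {z | z = toPlane p ∨ F (toPlane p) < F z}) ?_ ?_ hz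
    · rintro _ ⟨q, hq, rfl⟩
      by_cases e : q = p
      · left; rw [e]
      · right
        have := hf q hq e
        simp only [F, toPlane]
        exact_mod_cast this
    · intro z1 h1 z2 h2 a b ha hb hab
      have lin : F (a • z1 + b • z2) = a * F z1 + b * F z2 := by
        simp only [F, Prod.fst_add, Prod.snd_add, Prod.smul_fst, Prod.smul_snd, smul_eq_mul]; ring
      simp only [Set.mem_ofPred_eq] at h1 h2 ⊢
      rw [lin]
      have e0 : a * F (toPlane p) + b * F (toPlane p) = F (toPlane p) := by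
        rw [← add_mul, hab, one_mul]
      rcases h1 with h1 | h1 <;> rcases h2 with h2 | h2
      · left; rw [h1, h2, ← add_smul, hab, one_smul]
      · rcases hb.eq_or_lt with e | e
        · left; rw [← e, zero_smul, add_zero, h1, show a = 1 by linarith only [hab, e, hb], one_smul]
        · right; rw [h1]; linarith only [e0, h2, e, mul_lt_mul_of_pos_left h2 e]
      · rcases ha.eq_or_lt with e | e
        · left; rw [← e, zero_smul, zero_add, h2, show b = 1 by linarith only [hab, e, ha], one_smul]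
        · right; rw [h2]; linarith only [e0, h1, e, mul_lt_mul_of_pos_left h1 e]
      · right
        rcases ha.eq_or_lt with e | e
        · rw [← e, show b = 1 by linarith only [hab, e, ha]]; linarith only [h2]
        · linarith only [e0, h1, e, h2, hb, mul_lt_mul_of_pos_left h1 e, mul_le_mul_of_nonneg_left h2.le hb]
  refine ⟨subset_convexHull ℝ _ ⟨p, hp, rfl⟩, ?_⟩
  intro z1 h1 z2 h2 hs
  obtain ⟨a, b, ha, hb, hab, e⟩ := hs
  have lin : F (toPlane p) = a * F z1 + b * F z2 := by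
    rw [← e]
    simp only [F, Prod.fst_add, Prod.snd_add, Prod.smul_fst, Prod.smul_snd, smul_eq_mul]; ring
  rcases hF z1 h1 with g1 | g1
  · exact g1
  · exfalso
    have g2 : F (toPlane p) ≤ F z2 := by
      rcases hF z2 h2 with g | g
      · rw [g]
      · exact g.le
    have hb' : b = 1 - a := by linarith only [hab]
    rw [hb'] at lin hb
    linarith only [lin, ha, g1, hb, g2, mul_pos_of_neg_of_neg (Mathlib.Tactic.Linarith.sub_neg_of_lt ha) (Mathlib.Tactic.Linarith.sub_neg_of_lt g1), mul_nonneg_of_nonpos_of_nonpos (le_of_lt (Mathlib.Tactic.Linarith.sub_neg_of_lt hb)) (Mathlib.Tactic.Linarith.sub_nonpos_of_le g2)]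

theorem CP_le {γ : Type} (S : List (ℚ × ℚ)) (C : Finset γ) (cls : γ → ℚ × ℚ → Prop)
    (cover : ∀ p ∈ S, ∃ c ∈ C, cls c p)
    (conv : ∀ c ∈ C, ∀ p, cls c p → ∃ α β : ℚ, ∀ q, cls c q → q ≠ p →
      α * p.1 + β * p.2 < α * q.1 + β * q.2) : CP S ≤ C.card := by
  classical
  choose! col hcol using fun (p : ℚ × ℚ) (hp : p ∈ S) => (show ∃ c : Option γ,
    ∃ c' ∈ C, c = some c' ∧ cls c' p from let ⟨c, h1, h2⟩ := cover p hp; ⟨some c, c, h1, rfl, h2⟩)
  refine Nat.sInf_le ⟨C.toList.map fun c => S.filter fun p => col p = some c, ⟨?_, ?_, ?_⟩, by simp⟩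
  · rw [List.pairwise_map]
    refine C.nodup_toList.pairwise_of_forall_ne fun c _ c' _ hne p h1 h2 => hne ?_
    simp only [List.mem_filter, decide_eq_true_eq] at h1 h2
    exact Option.some.inj (h1.2.symm.trans h2.2)
  · intro p
    constructor
    · intro hp
      obtain ⟨c, h1, h2, -⟩ := hcol p hp
      exact ⟨_, List.mem_map.2 ⟨c, Finset.mem_toList.2 h1, rfl⟩, by simp [hp, h2]⟩
    · rintro ⟨T, hT, hp⟩
      obtain ⟨c, -, rfl⟩ := List.mem_map.1 hT
      exact (List.mem_filter.1 hp).1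
  · intro T hT
    obtain ⟨c, hc, rfl⟩ := List.mem_map.1 hT
    have key : ∀ p ∈ S.filter fun p => col p = some c, cls c p := by
      intro p hp
      simp only [List.mem_filter, decide_eq_true_eq] at hp
      obtain ⟨c', -, h2, h3⟩ := hcol p hp.1
      rw [hp.2] at h2
      rw [Option.some.inj h2]
      exact h3
    refine convexPos_of_fun _ fun p hp => ?_
    obtain ⟨α, β, h⟩ := conv c (Finset.mem_toList.1 hc) p (key p hp)
    exact ⟨α, β, fun q hq => h q (key q hq)⟩

/-- Coefficients of the two coordinates as polynomials in the large parameter. -/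
structure Q5 where
  X : ℤ
  A : ℤ
  B : ℤ
  Y : ℤ
  C : ℤ

def Q5.x (E : ℤ) (q : Q5) : ℤ := E ^ 2 * q.X + E * q.A + q.B
def Q5.y (E : ℤ) (q : Q5) : ℤ := E * q.Y + q.C

def Q5.Bd (Z : ℤ) (q : Q5) : Prop :=
  (0 ≤ q.X ∧ q.X ≤ Z) ∧ (0 ≤ q.A ∧ q.A ≤ Z) ∧ (0 ≤ q.B ∧ q.B ≤ Z) ∧ (0 ≤ q.Y ∧ q.Y ≤ Z) ∧
    (0 ≤ q.C ∧ q.C ≤ Z)

theorem ori_ge {Z x1 y1 x2 y2 x3 y3 : ℤ} (h1 : 0 ≤ x1 ∧ x1 ≤ Z) (h2 : 0 ≤ y1 ∧ y1 ≤ Z)
    (h3 : 0 ≤ x2 ∧ x2 ≤ Z) (h4 : 0 ≤ y2 ∧ y2 ≤ Z) (h5 : 0 ≤ x3 ∧ x3 ≤ Z) (h6 : 0 ≤ y3 ∧ y3 ≤ Z) :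
    -(2 * Z ^ 2) ≤ ori x1 y1 x2 y2 x3 y3 := by
  have key : ∀ a b : ℤ, |a| ≤ Z → |b| ≤ Z → |a * b| ≤ Z ^ 2 := by
    intro a b ha hb
    rw [abs_mul, sq]
    exact mul_le_mul ha hb (abs_nonneg _) ((abs_nonneg _).trans ha)
  have e1 := abs_le.1 (key (x2 - x1) (y3 - y1) (abs_le.2 ⟨by omega, by omega⟩)
    (abs_le.2 ⟨by omega, by omega⟩))
  have e2 := abs_le.1 (key (x3 - x1) (y2 - y1) (abs_le.2 ⟨by omega, by omega⟩)
    (abs_le.2 ⟨by omega, by omega⟩))
  unfold ori
  linarith only [e1, e2, e1.1, e2.2]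

theorem ori_expand (E : ℤ) (p q r : Q5) :
    ori (p.x E) (p.y E) (q.x E) (q.y E) (r.x E) (r.y E) =
      E ^ 3 * ori p.X p.Y q.X q.Y r.X r.Y +
      E ^ 2 * (ori p.X p.C q.X q.C r.X r.C + ori p.A p.Y q.A q.Y r.A r.Y) +
      E * (ori p.A p.C q.A q.C r.A r.C + ori p.B p.Y q.B q.Y r.B r.Y) +
      ori p.B p.C q.B q.C r.B r.C := by
  simp only [ori, Q5.x, Q5.y]; ring

theorem ori_lex {Z E : ℤ} (hE : 10 * Z ^ 2 < E) {p q r : Q5} (hp : p.Bd Z) (hq : q.Bd Z)
    (hr : r.Bd Z) (h : 0 < ori p.X p.Y q.X q.Y r.X r.Y ∨ (ori p.X p.Y q.X q.Y r.X r.Y = 0 ∧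
      0 < ori p.X p.C q.X q.C r.X r.C + ori p.A p.Y q.A q.Y r.A r.Y)) :
    0 < ori (p.x E) (p.y E) (q.x E) (q.y E) (r.x E) (r.y E) := by
  obtain ⟨pX, pA, pB, pY, pC⟩ := hp
  obtain ⟨qX, qA, qB, qY, qC⟩ := hq
  obtain ⟨rX, rA, rB, rY, rC⟩ := hr
  have e1 := ori_ge pX pC qX qC rX rC
  have e2 := ori_ge pA pY qA qY rA rY
  have e3 := ori_ge pA pC qA qC rA rC
  have e4 := ori_ge pB pY qB qY rB rY
  have e5 := ori_ge pB pC qB qC rB rC
  rw [ori_expand]
  generalize ori p.X p.Y q.X q.Y r.X r.Y = D3 at *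
  generalize ori p.X p.C q.X q.C r.X r.C = D2 at *
  generalize ori p.A p.Y q.A q.Y r.A r.Y = D2' at *
  generalize ori p.A p.C q.A q.C r.A r.C = D1 at *
  generalize ori p.B p.Y q.B q.Y r.B r.Y = D1' at *
  generalize ori p.B p.C q.B q.C r.B r.C = D0 at *
  have hW : 0 ≤ Z ^ 2 := sq_nonneg Z
  generalize Z ^ 2 = W at *
  have hE1 : 1 ≤ E := by omega
  have hE2 : E ≤ E ^ 2 := by linarith only [hE, hW, mul_nonneg_of_nonpos_of_nonpos (Mathlib.Tactic.Linarith.sub_nonpos_of_le (Int.add_one_le_iff.mpr hE)) (Mathlib.Tactic.Linarith.sub_nonpos_of_le (Int.add_one_le_iff.mpr hE)), mul_nonneg_of_nonpos_of_nonpos (Mathlib.Tactic.Linarith.sub_nonpos_of_le (Int.add_one_le_iff.mpr hE)) (Mathlib.Tactic.Linarith.sub_nonpos_of_le hW), mul_nonneg_of_nonpos_of_nonpos (Mathlib.Tactic.Linarith.sub_nonpos_of_le hW) (Mathlib.Tactic.Linarith.sub_nonpos_of_le hW)]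
  have low : -(6 * W * E) ≤ E * (D1 + D1') + D0 := by linarith only [e3, e4, e5, hE, hW, mul_nonneg_of_nonpos_of_nonpos (Mathlib.Tactic.Linarith.sub_nonpos_of_le (Int.add_one_le_iff.mpr hE)) (Mathlib.Tactic.Linarith.sub_nonpos_of_le e3), mul_nonneg_of_nonpos_of_nonpos (Mathlib.Tactic.Linarith.sub_nonpos_of_le (Int.add_one_le_iff.mpr hE)) (Mathlib.Tactic.Linarith.sub_nonpos_of_le e4), mul_nonneg_of_nonpos_of_nonpos (Mathlib.Tactic.Linarith.sub_nonpos_of_le (Int.add_one_le_iff.mpr hE)) (Mathlib.Tactic.Linarith.sub_nonpos_of_le hW), mul_nonneg_of_nonpos_of_nonpos (Mathlib.Tactic.Linarith.sub_nonpos_of_le e3) (Mathlib.Tactic.Linarith.sub_nonpos_of_le hW), mul_nonneg_of_nonpos_of_nonpos (Mathlib.Tactic.Linarith.sub_nonpos_of_le e4) (Mathlib.Tactic.Linarith.sub_nonpos_of_le hW), mul_nonneg_of_nonpos_of_nonpos (Mathlib.Tactic.Linarith.sub_nonpos_of_le hW) (Mathlib.Tactic.Linarith.sub_nonpos_of_le hW)]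
  rcases h with h | ⟨h0, h⟩
  · have a1 : E ^ 3 ≤ E ^ 3 * D3 := le_mul_of_one_le_right (by positivity) h
    have a2 : -(4 * W * E ^ 2) ≤ E ^ 2 * (D2 + D2') := by linarith only [e1, e2, mul_nonneg_of_nonpos_of_nonpos (Mathlib.Tactic.Linarith.sub_nonpos_of_le (sq_nonneg E)) (Mathlib.Tactic.Linarith.sub_nonpos_of_le e1), mul_nonneg_of_nonpos_of_nonpos (Mathlib.Tactic.Linarith.sub_nonpos_of_le (sq_nonneg E)) (Mathlib.Tactic.Linarith.sub_nonpos_of_le e2)]
    have a3 : 6 * W * E ≤ 6 * W * E ^ 2 := by linarith only [hW, hE2, mul_nonneg_of_nonpos_of_nonpos (Mathlib.Tactic.Linarith.sub_nonpos_of_le hW) (Mathlib.Tactic.Linarith.sub_nonpos_of_le hE2)]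
    have a4 : 10 * W * E ^ 2 < E ^ 3 := by linarith only [hE, hW, hE2, mul_nonneg_of_nonpos_of_nonpos (Mathlib.Tactic.Linarith.sub_nonpos_of_le (sq_nonneg E)) (Mathlib.Tactic.Linarith.sub_nonpos_of_le (Int.add_one_le_iff.mpr hE))]
    linarith only [low, a1, a2, a3, a4]
  · have a1 : E ^ 2 ≤ E ^ 2 * (D2 + D2') := le_mul_of_one_le_right (by positivity) h
    have a4 : 6 * W * E < E ^ 2 := by linarith only [hE, hW, hE2, mul_nonneg_of_nonpos_of_nonpos (Mathlib.Tactic.Linarith.sub_nonpos_of_le (Int.add_one_le_iff.mpr hE)) (Mathlib.Tactic.Linarith.sub_nonpos_of_le (Int.add_one_le_iff.mpr hE)), mul_nonneg_of_nonpos_of_nonpos (Mathlib.Tactic.Linarith.sub_nonpos_of_le (Int.add_one_le_iff.mpr hE)) (Mathlib.Tactic.Linarith.sub_nonpos_of_le hW)]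
    rw [h0]
    linarith only [low, a1, a4]

end Pool.Agent.Work.MP_32aa60_lc
end

-- merged part: Pool.Agent.Work.MP_32aa60_lc.H39Comb
section
/-!
Counting lemmas: nearly independent partitions, averaging, periodicity.
-/

namespace Pool.Agent.Work.MP_32aa60_lc

open Finset

theorem card_le_two_of_no_chain (V : Finset ℕ)
    (h : ∀ x ∈ V, ∀ y ∈ V, ∀ z ∈ V, x < y → y < z → False) : V.card ≤ 2 := by
  by_contra hc
  obtain ⟨a, ha, b, hb, c, hc, h1, h2, h3⟩ := two_lt_card.1 (not_le.1 hc)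
  rcases lt_or_gt_of_ne h1 with e1 | e1 <;> rcases lt_or_gt_of_ne h2 with e2 | e2 <;>
    rcases lt_or_gt_of_ne h3 with e3 | e3
  all_goals first
    | omega
    | exact h _ ha _ hb _ hc (by omega) (by omega)
    | exact h _ ha _ hc _ hb (by omega) (by omega)
    | exact h _ hb _ ha _ hc (by omega) (by omega)
    | exact h _ hb _ hc _ ha (by omega) (by omega)
    | exact h _ hc _ ha _ hb (by omega) (by omega)
    | exact h _ hc _ hb _ ha (by omega) (by omega)

/-- A set without three increasing values of `f`, whose fibres have at most `m` elements. -/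
theorem card_le_of_no_chain {ι : Type} (U : Finset ι) (f : ι → ℕ) (m : ℕ)
    (h : ∀ x ∈ U, ∀ y ∈ U, ∀ z ∈ U, f x < f y → f y < f z → False)
    (hf : ∀ x ∈ U, (U.filter fun y => f y = f x).card ≤ m) : U.card ≤ m * 2 := by
  refine (card_le_mul_card_image U m (f := f) ?_).trans (Nat.mul_le_mul_left _ ?_)
  · intro v hv
    obtain ⟨x, hx, rfl⟩ := mem_image.1 hv
    exact hf x hx
  · refine card_le_two_of_no_chain _ ?_
    intro x hx y hy z hz
    obtain ⟨x', hx', rfl⟩ := mem_image.1 hx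
    obtain ⟨y', hy', rfl⟩ := mem_image.1 hy
    obtain ⟨z', hz', rfl⟩ := mem_image.1 hz
    exact h x' hx' y' hy' z' hz'

/-- The line of slope `t` through the point `i` of the affine plane of order `q`. -/
def lin (q t i : ℕ) : ℕ := (i / q + t * (i % q)) % q

/-- The role of `i` in the partition number `t`: bundles of `g` parallel lines. -/
def role (q g t i : ℕ) : ℕ := lin q t i / g

theorem role_periodic (q g t i : ℕ) : role q g (t + q) i = role q g t i := by
  unfold role lin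
  rw [Nat.add_mul, ← Nat.add_assoc, Nat.add_mul_mod_self_left]

theorem role_iff {q g t i v : ℕ} (hg : 0 < g) :
    role q g t i = v ↔ v * g ≤ lin q t i ∧ lin q t i < v * g + g := by
  unfold role
  rw [Nat.div_eq_iff hg]
  omega

theorem card_role_ge {q g t v : ℕ} (hg : 0 < g) (hv : v * g + g ≤ q) :
    g * q ≤ ((range (q * q)).filter fun i => role q g t i = v).card := by
  have hq : 0 < q := by omega
  let ψ : ℕ × ℕ → ℕ := fun z => q * ((z.1 + t * (q - z.2)) % q) + z.2
  have h1 : ∀ z : ℕ × ℕ, z.2 < q → ψ z % q = z.2 := by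
    intro z hz
    simp only [ψ]
    rw [Nat.mul_add_mod, Nat.mod_eq_of_lt hz]
  have h2 : ∀ z : ℕ × ℕ, z.2 < q → ψ z / q = (z.1 + t * (q - z.2)) % q := by
    intro z hz
    simp only [ψ]
    rw [Nat.mul_add_div hq, Nat.div_eq_of_lt hz, Nat.add_zero]
  have h3 : ∀ z : ℕ × ℕ, z.1 < q → z.2 < q → lin q t (ψ z) = z.1 := by
    intro z hz1 hz
    unfold lin
    rw [h1 z hz, h2 z hz, Nat.mod_add_mod, Nat.add_assoc, ← Nat.mul_add,
      Nat.sub_add_cancel hz.le, Nat.add_mul_mod_self_right, Nat.mod_eq_of_lt hz1]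
  have := card_le_card_of_injOn (s := Ico (v * g) (v * g + g) ×ˢ range q)
    (t := (range (q * q)).filter fun i => role q g t i = v) ψ (by
      intro z hz
      simp only [coe_product, coe_Ico, coe_range, Set.mem_prod, Set.mem_Ico, Set.mem_Iio] at hz
      simp only [coe_filter, mem_range, Set.mem_ofPred_eq]
      refine ⟨?_, (role_iff hg).2 (by rw [h3 z (by omega) hz.2]; exact hz.1)⟩
      have : (z.1 + t * (q - z.2)) % q + 1 ≤ q := Nat.mod_lt _ hq
      have := Nat.mul_le_mul_left q this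
      simp only [ψ]
      linarith only [hz, this, hz.2]) (by
      intro z hz z' hz' e
      simp only [coe_product, coe_Ico, coe_range, Set.mem_prod, Set.mem_Ico, Set.mem_Iio] at hz hz'
      refine Prod.ext ?_ ?_
      · rw [← h3 z (by omega) hz.2, e, h3 z' (by omega) hz'.2]
      · rw [← h1 z hz.2, e, h1 z' hz'.2])
  simpa using this

theorem lin_inj {q t t' i i' : ℕ} (hq : q.Prime) (ht : t < q) (ht' : t' < q) (hne : t ≠ t')
    (hi : i < q * q) (hi' : i' < q * q) (h1 : lin q t i = lin q t i')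
    (h2 : lin q t' i = lin q t' i') : i = i' := by
  have := Fact.mk hq
  have h0 := hq.pos
  have c1 := (ZMod.natCast_eq_natCast_iff' _ _ q).2 h1
  have c2 := (ZMod.natCast_eq_natCast_iff' _ _ q).2 h2
  push_cast at c1 c2
  rw [ZMod.natCast_mod, ZMod.natCast_mod] at c1 c2
  have hd : ((t : ZMod q) - t') ≠ 0 := by
    intro e
    have := (ZMod.natCast_eq_natCast_iff' _ _ q).1 (sub_eq_zero.1 e)
    rw [Nat.mod_eq_of_lt ht, Nat.mod_eq_of_lt ht'] at this
    exact hne this
  have e1 : (i : ZMod q) = i' := by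
    have : ((t : ZMod q) - t') * ((i : ZMod q) - i') = 0 := by linear_combination c1 - c2
    exact sub_eq_zero.1 ((mul_eq_zero.1 this).resolve_left hd)
  have e2 : ((i / q : ℕ) : ZMod q) = (i' / q : ℕ) := by
    rw [e1] at c1
    exact add_right_cancel c1
  have f1 := (ZMod.natCast_eq_natCast_iff' _ _ q).1 e1
  have f2 := (ZMod.natCast_eq_natCast_iff' _ _ q).1 e2
  rw [Nat.mod_eq_of_lt (Nat.div_lt_of_lt_mul hi), Nat.mod_eq_of_lt (Nat.div_lt_of_lt_mul hi')] at f2
  rw [← Nat.div_add_mod i q, ← Nat.div_add_mod i' q, f1, f2]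

theorem card_role_inter {q g t t' v v' : ℕ} (hq : q.Prime) (hg : 0 < g) (ht : t < q) (ht' : t' < q)
    (hne : t ≠ t') :
    (((range (q * q)).filter fun i => role q g t i = v) ∩
      ((range (q * q)).filter fun i => role q g t' i = v')).card ≤ g * g := by
  have := card_le_card_of_injOn (s := ((range (q * q)).filter fun i => role q g t i = v) ∩
      ((range (q * q)).filter fun i => role q g t' i = v'))
    (t := Ico (v * g) (v * g + g) ×ˢ Ico (v' * g) (v' * g + g))
    (fun i => (lin q t i, lin q t' i)) (by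
      intro i hi
      simp only [coe_inter, coe_filter, mem_range, Set.mem_inter_iff, Set.mem_ofPred_eq,
        role_iff hg] at hi
      simp only [coe_product, coe_Ico, Set.mem_prod, Set.mem_Ico]
      exact ⟨hi.1.2, hi.2.2⟩) (by
      intro i hi i' hi' e
      simp only [coe_inter, coe_filter, mem_range, Set.mem_inter_iff, Set.mem_ofPred_eq] at hi hi'
      simp only [Prod.mk.injEq] at e
      exact lin_inj hq ht ht' hne hi.1.1 hi'.1.1 e.1 e.2)
  simpa using this

theorem second_moment {ι : Type} [DecidableEq ι] (T : Finset ι) (G : ι → Finset ℕ) (B : Finset ℕ)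
    (g : ℕ) (hB : ∀ t ∈ T, G t ⊆ B) (hI : ∀ t ∈ T, ∀ t' ∈ T, t ≠ t' → (G t ∩ G t').card ≤ g * g) :
    (∑ t ∈ T, (G t).card) ^ 2 ≤ B.card * (∑ t ∈ T, (G t).card + (T.card * g) ^ 2) := by
  let f : ℕ → ℕ := fun i => ∑ t ∈ T, if i ∈ G t then 1 else 0
  have e0 : ∀ A : Finset ℕ, A ⊆ B → ∑ i ∈ B, (if i ∈ A then 1 else 0) = A.card := by
    intro A hA
    rw [← card_filter, filter_mem_eq_inter, inter_eq_right.2 hA]
  have e1 : ∑ i ∈ B, f i = ∑ t ∈ T, (G t).card := by
    simp only [f]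
    rw [sum_comm]
    exact sum_congr rfl fun t ht => e0 _ (hB t ht)
  have e2 : ∑ i ∈ B, f i ^ 2 = ∑ t ∈ T, ∑ t' ∈ T, (G t ∩ G t').card := by
    simp only [f, sq, sum_mul_sum]
    rw [sum_comm]
    refine sum_congr rfl fun t ht => ?_
    rw [sum_comm]
    refine sum_congr rfl fun t' _ => ?_
    rw [← e0 _ (inter_subset_left.trans (hB t ht))]
    refine sum_congr rfl fun i _ => ?_
    by_cases h1 : i ∈ G t <;> by_cases h2 : i ∈ G t' <;> simp [h1, h2]
  have e3 : ∑ t ∈ T, ∑ t' ∈ T, (G t ∩ G t').card ≤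
      ∑ t ∈ T, (G t).card + (T.card * g) ^ 2 := by
    have : ∀ t ∈ T, ∑ t' ∈ T, (G t ∩ G t').card ≤ (G t).card + T.card * (g * g) := by
      intro t ht
      rw [← add_sum_erase T _ ht, inter_self]
      refine Nat.add_le_add_left ((sum_le_card_nsmul _ _ (g * g) fun t' ht' =>
        hI t ht t' (mem_of_mem_erase ht') (ne_of_mem_erase ht').symm).trans ?_) _
      exact Nat.mul_le_mul_right _ card_erase_le
    refine (sum_le_sum this).trans ?_
    rw [sum_add_distrib, sum_const, smul_eq_mul]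
    exact le_of_eq (by ring)
  rw [← e1]
  refine (sq_sum_le_card_mul_sum_sq (s := B) (f := f)).trans (Nat.mul_le_mul_left _ ?_)
  rw [e2, e1]
  exact e3

/-- Few partitions have a class inside a set of density at most `1 - 1 / κ`. -/
theorem few_bad {q g κ n : ℕ} (hq : q.Prime) (hg : 0 < g) (hn : n * g ≤ q) (bad : ℕ → Prop)
    [DecidablePred bad] (hb : κ * ((range (q * q)).filter bad).card + q * q ≤ κ * (q * q))
    [DecidablePred fun t => ∃ v < n, ∀ i < q * q, role q g t i = v → bad i] :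
    ((range q).filter fun t => ∃ v < n, ∀ i < q * q, role q g t i = v → bad i).card * g ≤ κ * q := by
  set T := (range q).filter fun t => ∃ v < n, ∀ i < q * q, role q g t i = v → bad i with hT
  have hv : ∀ t ∈ T, ∃ v < n, ∀ i < q * q, role q g t i = v → bad i := fun t ht =>
    (mem_filter.1 ht).2
  choose! v hv1 hv2 using hv
  let G : ℕ → Finset ℕ := fun t => (range (q * q)).filter fun i => role q g t i = v t
  have h1 := second_moment T G ((range (q * q)).filter bad) g (by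
    intro t ht i hi
    simp only [G, mem_filter, mem_range] at hi ⊢
    exact ⟨hi.1, hv2 t ht i hi.1 hi.2⟩) (by
    intro t ht t' ht' hne
    exact card_role_inter hq hg (mem_range.1 (mem_filter.1 ht).1)
      (mem_range.1 (mem_filter.1 ht').1) hne)
  have h2 : T.card * (g * q) ≤ ∑ t ∈ T, (G t).card := by
    refine card_nsmul_le_sum T _ _ fun t ht => card_role_ge hg ?_
    have := Nat.mul_le_mul_right g (Nat.succ_le_of_lt (hv1 t ht))
    rw [Nat.succ_mul] at this
    omega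
  generalize ∑ t ∈ T, (G t).card = Sg at h1 h2
  generalize ((range (q * q)).filter bad).card = β at h1 hb
  have hq0 := hq.pos
  have h3 : T.card * g * q ≤ Sg := by rw [Nat.mul_assoc]; exact h2
  generalize T.card * g = m at h1 h3
  by_cases hS : Sg = 0
  · have : m * q = 0 := by omega
    rcases Nat.mul_eq_zero.1 this with e | e
    · omega
    · omega
  have h4 : (m * q) ^ 2 ≤ Sg ^ 2 := Nat.pow_le_pow_left h3 2
  have h5 : κ * (q * q) * Sg ^ 2 ≤ κ * (q * q) * β * Sg + κ * β * Sg ^ 2 := by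
    have a1 := Nat.mul_le_mul_left (κ * (q * q)) h1
    have a2 := Nat.mul_le_mul_left (κ * β) h4
    linarith only [a1, a2]
  have h6 : q * q * Sg * Sg ≤ q * q * Sg * (κ * β) := by
    have a1 := Nat.mul_le_mul_right (Sg ^ 2) hb
    linarith only [h5, a1]
  have h7 : Sg ≤ κ * β := Nat.le_of_mul_le_mul_left h6 (by positivity)
  have h8 : m * q ≤ κ * q * q := by linarith only [hb, h3, h7, mul_self_nonneg ↑q]
  exact Nat.le_of_mul_le_mul_right h8 hq0

theorem card_periodic (p : ℕ → Prop) [DecidablePred p] (q : ℕ) (hp : ∀ t, p (t + q) ↔ p t)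
    (a m : ℕ) : ((Ico a (a + q * m)).filter p).card = m * ((range q).filter p).card := by
  have pp : Function.Periodic p q := fun t => propext (hp t)
  induction m with
  | zero => simp
  | succ m ih =>
    rw [← Ico_union_Ico_eq_Ico (b := a + q * m) (by omega) (by rw [Nat.mul_succ]; omega),
      filter_union, card_union_of_disjoint
        (disjoint_filter_filter (Ico_disjoint_Ico_consecutive _ _ _)), ih, Nat.mul_succ,
      ← Nat.add_assoc, Nat.filter_Ico_card_eq_of_periodic _ _ _ pp, Nat.count_eq_card_filter_range,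
      Nat.succ_mul]

theorem markov {ι : Type} (U : Finset ι) (w : ι → ℕ) (κ I : ℕ) (hI : 0 < I)
    (h : κ * ∑ u ∈ U, w u + 2 * (U.card * I) ≤ κ * (U.card * I)) :
    U.card ≤ κ * (U.filter fun u => κ * w u + I ≤ κ * I).card := by
  have e1 := card_filter_add_card_filter_not (s := U) (fun u => κ * w u + I ≤ κ * I)
  have e2 : (U.filter fun u => ¬ κ * w u + I ≤ κ * I).card * (κ * I) ≤
      ∑ u ∈ U.filter fun u => ¬ κ * w u + I ≤ κ * I, (κ * w u + I) :=
    card_nsmul_le_sum _ _ _ fun u hu => (not_le.1 (mem_filter.1 hu).2).le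
  rw [sum_add_distrib, ← mul_sum, sum_const, smul_eq_mul] at e2
  have e3 : ∑ u ∈ U.filter fun u => ¬ κ * w u + I ≤ κ * I, w u ≤ ∑ u ∈ U, w u :=
    sum_le_sum_of_subset (filter_subset _ _)
  have e4 := Nat.mul_le_mul_left κ e3
  generalize (U.filter fun u => ¬ κ * w u + I ≤ κ * I).card = b at *
  generalize (U.filter fun u => κ * w u + I ≤ κ * I).card = a at *
  rw [← e1] at h ⊢
  refine Nat.le_of_mul_le_mul_right ?_ hI
  linarith only [e4, e2, h, mul_nonneg_of_nonpos_of_nonpos (Mathlib.Tactic.Linarith.sub_nonpos_of_le (Mathlib.Tactic.Linarith.natCast_nonneg ℤ I)) (Mathlib.Tactic.Linarith.sub_nonpos_of_le (Mathlib.Tactic.Linarith.natCast_nonneg ℤ a))]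

theorem count_mains {ι π : Type} [DecidableEq π] (U : Finset ι) (f : ι → Finset π) (T : Finset π)
    (hT : ∀ u ∈ U, f u ⊆ T) (hne : ∀ u ∈ U, (f u).Nonempty)
    (hd : ∀ u ∈ U, ∀ u' ∈ U, u ≠ u' → Disjoint (f u) (f u')) :
    U.card + (U.filter fun u => 1 < (f u).card).card ≤ T.card := by
  classical
  have e1 : (U.biUnion f).card = ∑ u ∈ U, (f u).card := card_biUnion fun u hu u' hu' h =>
    hd u hu u' hu' h
  have e2 : (U.biUnion f).card ≤ T.card := card_le_card (biUnion_subset.2 hT)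
  rw [card_filter, card_eq_sum_ones U, ← sum_add_distrib]
  refine le_trans (sum_le_sum fun u hu => ?_) (e1 ▸ e2)
  have := (hne u hu).card_pos
  split_ifs <;> omega

/-- Choice of a pair avoiding three small exceptional sets. -/
theorem exists_good_pair {ι : Type} [DecidableEq ι] (A B : Finset ι) (b1 b2 b3 : Finset (ι × ι))
    (κ N M : ℕ) (hA : N ≤ κ * A.card) (hB : M ≤ κ * B.card)
    (h1 : 4 * κ ^ 2 * b1.card ≤ N * M) (h2 : 4 * κ ^ 2 * b2.card ≤ N * M)
    (h3 : 2 * κ ^ 2 * b3.card < N * M) :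
    ∃ s ∈ A, ∃ t ∈ B, (s, t) ∉ b1 ∧ (s, t) ∉ b2 ∧ (s, t) ∉ b3 := by
  have e1 : N * M ≤ κ ^ 2 * (A ×ˢ B).card := by
    rw [card_product]
    exact (Nat.mul_le_mul hA hB).trans (le_of_eq (by ring))
  have e2 : (b1 ∪ b2 ∪ b3).card < (A ×ˢ B).card := by
    have a1 := card_union_le (b1 ∪ b2) b3
    have a2 := card_union_le b1 b2
    by_contra hc
    have a3 : (A ×ˢ B).card ≤ b1.card + b2.card + b3.card := by omega
    have a4 := Nat.mul_le_mul_left (κ ^ 2) a3
    linarith only [h1, h2, h3, e1, a4]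
  obtain ⟨⟨s, t⟩, h, h'⟩ := exists_mem_notMem_of_card_lt_card e2
  simp only [mem_union, not_or] at h'
  exact ⟨s, (mem_product.1 h).1, t, (mem_product.1 h).2, h'.1.1, h'.1.2, h'.2⟩

end Pool.Agent.Work.MP_32aa60_lc
end

-- merged part: Pool.Agent.Work.MP_32aa60_lc.H39Con
section
/-!
The configuration built from a list of formulas: parameters, points, numeric facts.
-/

namespace Pool.Agent.Work.MP_32aa60_lc

open Pool.Agent.Lib.Poly

/-- The input of the construction: a list of formulas. -/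
abbrev Par := List Cnf

/-- Point descriptors: block row `a`, row `i`, block column `b`, column `j`, literal `k`. -/
structure Desc where
  a : ℕ
  i : ℕ
  b : ℕ
  j : ℕ
  k : ℕ

namespace Par

variable (P : Par)

def L : ℕ := List.length P
def κ : ℕ := 2 * P.L
def n : ℕ := sz P + 1
def g : ℕ := 4 * P.κ ^ 3
def qA : ℕ := primeAbove (P.n * P.g)
def I : ℕ := P.qA * P.qA
def nB : ℕ := P.n * (P.I * P.I * P.I)
def qB : ℕ := primeAbove (P.nB * P.g)
def J : ℕ := P.qB * P.qB
def R0 : ℕ := 84 * P.κ ^ 2 * (P.L * P.J + P.I) + 1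
def SA : ℕ := P.J * P.R0 ^ 2
def S : ℕ := P.L * P.SA
def S' : ℕ := 4 * P.L * P.I * P.R0 ^ 2
def K : ℕ := P.SA * P.I
def Pm : ℕ := 7 * (P.L * P.K)
def NG : ℕ := P.L * P.J * P.R0
def Q : ℕ := 12 * P.Pm + P.J + 1
def G1 : ℕ := 4 * P.J * (P.S' + 1) * (P.Q + 1) + 4 * P.J * P.Q + 6
def Γ : ℕ := P.G1 + P.Q
def Xm : ℕ := 2 * (P.Γ * (P.S' + 1) + P.Q)
def d0 : ℕ := 2 * P.J * P.Xm + 3
def Δ : ℕ := 2 * P.I + 2
def H : ℕ := P.Xm * (P.Δ * P.R0) + 1
def m : ℕ := P.Xm + (P.Δ * (P.Q + P.S) + P.H * P.S) + P.d0 + 3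
def Z : ℕ := 4 * P.m ^ 3
def E : ℕ := 10 * P.Z ^ 2 + 1

def fml (l : ℕ) : Cnf := List.getD P l []
def rho (s j : ℕ) : ℕ := role P.qB P.g s j
def cl (s j : ℕ) : ℕ := P.rho s j / (P.I * P.I * P.I)
def tgt (s j k : ℕ) : ℕ :=
  if k = 0 then P.rho s j % P.I else if k = 1 then P.rho s j / P.I % P.I
  else P.rho s j / (P.I * P.I) % P.I
def lit (s j k : ℕ) : ℕ × Bool := ((P.fml (s / P.SA)).getD (P.cl s j) []).getD k (0, false)

def Act (s t j : ℕ) : Prop :=
  P.cl s j < (P.fml (s / P.SA)).length ∧ role P.qA P.g t (P.tgt s j 0) = (P.lit s j 0).1 ∧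
    role P.qA P.g t (P.tgt s j 1) = (P.lit s j 1).1 ∧
    role P.qA P.g t (P.tgt s j 2) = (P.lit s j 2).1

def RM (d : Desc) : Prop :=
  P.Q ≤ d.a ∧ d.a < P.Q + P.S ∧ d.i < P.I ∧ (d.b = 0 ∨ d.b = P.S' + 1) ∧ d.j < P.Q ∧ d.k = 0

def CM (d : Desc) : Prop :=
  d.a < P.Q ∧ d.i = 0 ∧ 1 ≤ d.b ∧ d.b ≤ P.S' ∧ d.j < P.J ∧ d.k = 0

def Opt (d : Desc) : Prop :=
  P.Q ≤ d.a ∧ d.a < P.Q + P.S ∧ 1 ≤ d.b ∧ d.b ≤ P.S' ∧ d.j < P.J ∧ d.k < 3 ∧
    P.Act (d.a - P.Q) (d.b - 1) d.j ∧ d.i = P.tgt (d.a - P.Q) d.j d.k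

def Valid (d : Desc) : Prop := P.RM d ∨ P.CM d ∨ P.Opt d

def Low (d : Desc) : Prop :=
  P.Q ≤ d.a ∧ 1 ≤ d.b ∧ d.b ≤ P.S' ∧ (P.lit (d.a - P.Q) d.j d.k).2 = true

instance (d : Desc) : Decidable (P.Low d) := by unfold Low; infer_instance

def h (d : Desc) : ℕ := if P.Low d then d.k else P.d0 + d.k
def X (d : Desc) : ℕ := 2 * (P.Γ * d.b + d.j)
def grp (a : ℕ) : ℕ := (a - P.Q) / P.R0
def c (a : ℕ) : ℕ := P.Δ * a + P.H * P.grp a
def C (d : Desc) : ℕ := P.X d ^ 2 + P.h d
def Y (d : Desc) : ℕ := P.c d.a + d.i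
def xN (d : Desc) : ℕ :=
  P.E ^ 2 * P.X d + P.E * (P.c d.a ^ 2 + 2 * P.c d.a * d.i) + 2 * P.c d.a * P.C d
def yN (d : Desc) : ℕ := P.E * P.Y d + P.C d
def pt (d : Desc) : ℚ × ℚ := ((P.xN d : ℚ), (P.yN d : ℚ))

def q5 (d : Desc) : Q5 :=
  ⟨P.X d, (P.c d.a : ℤ) ^ 2 + 2 * P.c d.a * d.i, 2 * P.c d.a * P.C d, P.Y d, P.C d⟩

theorem qA_prime : P.qA.Prime := (primeAbove_spec _).2
theorem qB_prime : P.qB.Prime := (primeAbove_spec _).2
theorem qA_ge : P.n * P.g ≤ P.qA := (primeAbove_spec _).1.le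
theorem qB_ge : P.nB * P.g ≤ P.qB := (primeAbove_spec _).1.le
theorem I_pos : 0 < P.I := Nat.mul_pos P.qA_prime.pos P.qA_prime.pos
theorem J_pos : 0 < P.J := Nat.mul_pos P.qB_prime.pos P.qB_prime.pos
theorem R0_pos : 0 < P.R0 := Nat.succ_pos _
theorem SA_pos : 0 < P.SA := Nat.mul_pos P.J_pos (pow_pos P.R0_pos 2)
theorem K_pos : 0 < P.K := Nat.mul_pos P.SA_pos P.I_pos
theorem J_lt_Q : P.J < P.Q := by unfold Q; omega
theorem Pm_lt_Q : 12 * P.Pm < P.Q := by unfold Q; omega
theorem S_eq : P.S = P.NG * P.R0 := by unfold S NG SA; ring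
theorem S'_J : P.S' * P.J = 4 * (P.L * P.K) := by unfold S' K SA; ring
theorem S_I : P.S * P.I = P.L * P.K := by unfold S K; ring
theorem d0_ge : 3 ≤ P.d0 := by unfold d0; omega
theorem G1_ge : 6 ≤ P.G1 := by unfold G1; omega

theorem d0_lt : P.d0 + 2 < P.G1 ^ 2 := by
  have h1 := P.G1_ge
  have h2 : P.G1 = 4 * P.J * (P.S' + 1) + (4 * P.J * (P.S' + 1) * P.Q + 4 * P.J * P.Q + 6) := by
    unfold G1; ring
  have h3 : P.d0 + 2 = P.G1 * (4 * P.J * (P.S' + 1)) +
      (4 * P.J * (P.S' + 1) * P.Q + 4 * P.J * P.Q + 5) := by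
    unfold d0 Xm Γ; ring
  rw [h3, sq]
  generalize 4 * P.J * (P.S' + 1) * P.Q + 4 * P.J * P.Q = u at *
  generalize 4 * P.J * (P.S' + 1) = v at *
  nth_rewrite 3 [h2]
  linarith only [h1, h2, mul_nonneg_of_nonpos_of_nonpos (Mathlib.Tactic.Linarith.sub_nonpos_of_le (Mathlib.Tactic.Linarith.natCast_nonneg ℤ P.G1)) (Mathlib.Tactic.Linarith.sub_nonpos_of_le (Mathlib.Tactic.Linarith.natCast_nonneg ℤ u))]

theorem cheat_lt (hL : 0 < P.L) :
    2 * P.κ ^ 2 * (P.Pm * (12 * P.NG + 24 * (P.R0 * P.I))) < P.SA * P.S' := by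
  have h1 : 2 * P.κ ^ 2 * (P.Pm * (12 * P.NG + 24 * (P.R0 * P.I))) =
      (P.L * P.SA * P.I * P.R0) * (168 * P.κ ^ 2 * (P.L * P.J) + 336 * P.κ ^ 2 * P.I) := by
    unfold Pm NG K; ring
  have h2 : P.SA * P.S' = (P.L * P.SA * P.I * P.R0) * (4 * P.R0) := by
    unfold S'; ring
  rw [h1, h2]
  refine Nat.mul_lt_mul_of_pos_left ?_
    (Nat.mul_pos (Nat.mul_pos (Nat.mul_pos hL P.SA_pos) P.I_pos) P.R0_pos)
  have h3 : 4 * P.R0 = 336 * P.κ ^ 2 * (P.L * P.J) + 336 * P.κ ^ 2 * P.I + 4 := by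
    unfold R0; ring
  rw [h3]
  have : 168 * P.κ ^ 2 * (P.L * P.J) ≤ 336 * P.κ ^ 2 * (P.L * P.J) :=
    Nat.mul_le_mul_right _ (Nat.mul_le_mul_right _ (by norm_num))
  omega

theorem tgt_lt (s j k : ℕ) : P.tgt s j k < P.I := by
  unfold tgt
  split_ifs <;> exact Nat.mod_lt _ P.I_pos

variable {P}

theorem Opt.i_lt {d : Desc} (h : P.Opt d) : d.i < P.I := by
  rw [h.2.2.2.2.2.2.2]; exact P.tgt_lt _ _ _

theorem Valid.bounds {d : Desc} (h : P.Valid d) :
    d.a < P.Q + P.S ∧ d.i < P.I ∧ d.b ≤ P.S' + 1 ∧ d.j < P.Q ∧ d.k < 3 := by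
  have := P.J_lt_Q
  have := P.I_pos
  rcases h with h | h | h
  · unfold RM at h; omega
  · unfold CM at h; omega
  · have := h.i_lt; unfold Opt at h; omega

theorem Valid.X_le {d : Desc} (h : P.Valid d) : P.X d ≤ P.Xm := by
  obtain ⟨-, -, h1, h2, -⟩ := h.bounds
  have := Nat.mul_le_mul_left P.Γ h1
  unfold X Xm
  omega

theorem Valid.h_le {d : Desc} (h : P.Valid d) : P.h d ≤ P.d0 + 2 := by
  have := h.bounds
  unfold Par.h
  split_ifs <;> omega

theorem X_lt {d e : Desc} (hd : P.Valid d) (h : d.b < e.b) : P.X d + 2 * P.G1 ≤ P.X e := by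
  have h1 := Nat.mul_le_mul_left P.Γ (Nat.succ_le_of_lt h)
  have := hd.bounds
  rw [Nat.mul_succ] at h1
  unfold X
  unfold Γ at *
  omega

theorem X_inj {d e : Desc} (hd : P.Valid d) (he : P.Valid e) (h : P.X d = P.X e) :
    d.b = e.b ∧ d.j = e.j := by
  have := P.G1_ge
  rcases lt_trichotomy d.b e.b with h1 | h1 | h1
  · have := X_lt hd h1; omega
  · refine ⟨h1, ?_⟩
    unfold X at h
    rw [h1] at h
    omega
  · have := X_lt he h1; omega

theorem grp_mono {a a' : ℕ} (h : a ≤ a') : P.grp a ≤ P.grp a' :=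
  Nat.div_le_div_right (by omega)

theorem c_lt {a a' : ℕ} (h : a < a') : P.c a + P.Δ ≤ P.c a' := by
  have h1 := Nat.mul_le_mul_left P.Δ (Nat.succ_le_of_lt h)
  have h2 := Nat.mul_le_mul_left P.H (grp_mono (P := P) h.le)
  rw [Nat.mul_succ] at h1
  unfold c
  omega

theorem c_grp_lt {a a' : ℕ} (h : P.grp a < P.grp a') : P.c a + P.Δ + P.H ≤ P.c a' := by
  have h0 : a < a' := by
    by_contra hc
    have := grp_mono (P := P) (not_lt.1 hc)
    omega
  have h1 := Nat.mul_le_mul_left P.Δ (Nat.succ_le_of_lt h0)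
  have h2 := Nat.mul_le_mul_left P.H (Nat.succ_le_of_lt h)
  rw [Nat.mul_succ] at h1 h2
  unfold c
  omega

theorem c_grp_eq {a a' : ℕ} (ha : P.Q ≤ a) (h : P.grp a = P.grp a') :
    P.c a' + P.Δ ≤ P.c a + P.Δ * P.R0 := by
  have h1 := Nat.div_add_mod (a - P.Q) P.R0
  have h2 := Nat.div_add_mod (a' - P.Q) P.R0
  have h3 := Nat.mod_lt (a' - P.Q) P.R0_pos
  unfold grp at h
  rw [h] at h1
  have h4 : a' + 1 ≤ a + P.R0 := by omega
  have h5 := Nat.mul_le_mul_left P.Δ h4
  rw [Nat.mul_add, Nat.mul_add, Nat.mul_one] at h5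
  unfold c grp
  rw [h]
  omega

theorem Y_lt {d e : Desc} (hd : P.Valid d) (h : d.a < e.a) : P.Y d + P.I < P.Y e := by
  have := c_lt (P := P) h
  have := hd.bounds
  unfold Y
  unfold Δ at *
  omega

theorem Valid.Y_le {d : Desc} (h : P.Valid d) : P.Y d ≤ P.Δ * (P.Q + P.S) + P.H * P.S := by
  obtain ⟨h1, h2, -⟩ := h.bounds
  have h3 := Nat.mul_le_mul_left P.Δ (Nat.succ_le_of_lt h1)
  have h4 : P.grp d.a ≤ P.S := (Nat.div_le_self _ _).trans (by omega)
  have h5 := Nat.mul_le_mul_left P.H h4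
  rw [Nat.mul_succ] at h3
  unfold Y c
  unfold Δ at *
  omega

theorem Valid.nat_bd {d : Desc} (h : P.Valid d) : P.X d ≤ P.Z ∧
    P.c d.a ^ 2 + 2 * P.c d.a * d.i ≤ P.Z ∧ 2 * P.c d.a * P.C d ≤ P.Z ∧ P.Y d ≤ P.Z ∧
    P.C d ≤ P.Z := by
  have h1 := h.X_le
  have h2 := h.h_le
  have h3 := h.Y_le
  have hm : 1 ≤ P.m := by unfold m; omega
  have a1 : P.X d ≤ P.m := by unfold m; omega
  have a2 : P.h d ≤ P.m := by unfold m; omega
  have a3 : P.Y d ≤ P.m := by unfold m; omega
  have a4 : P.c d.a ≤ P.m := by unfold Y at a3; omega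
  have a5 : d.i ≤ P.m := by unfold Y at a3; omega
  have b1 : P.m ≤ P.m ^ 2 := by nlinarith only [hm]
  have b2 : P.m ^ 2 ≤ P.m ^ 3 := by nlinarith only [hm]
  have b3 : P.C d ≤ 2 * P.m ^ 2 := by
    have := Nat.pow_le_pow_left a1 2
    unfold C; omega
  have b4 : P.c d.a ^ 2 ≤ P.m ^ 2 := Nat.pow_le_pow_left a4 2
  have b5 : P.c d.a * d.i ≤ P.m ^ 2 := by rw [sq]; exact Nat.mul_le_mul a4 a5
  have b6 : P.c d.a * P.C d ≤ P.m * (2 * P.m ^ 2) := Nat.mul_le_mul a4 b3
  have b7 : P.m * (2 * P.m ^ 2) = 2 * P.m ^ 3 := by ring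
  unfold Z
  rw [Nat.mul_assoc 2, Nat.mul_assoc 2]
  omega

theorem Valid.bd {d : Desc} (h : P.Valid d) : (P.q5 d).Bd P.Z := by
  obtain ⟨h1, h2, h3, h4, h5⟩ := h.nat_bd
  simp only [Q5.Bd, q5]
  refine ⟨⟨by positivity, by exact_mod_cast h1⟩, ⟨by positivity, by exact_mod_cast h2⟩,
    ⟨by positivity, by exact_mod_cast h3⟩, ⟨by positivity, by exact_mod_cast h4⟩,
    ⟨by positivity, by exact_mod_cast h5⟩⟩

theorem E_gt : 10 * (P.Z : ℤ) ^ 2 < P.E := by
  unfold E; push_cast; omega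

theorem q5_x (d : Desc) : (P.q5 d).x P.E = P.xN d := by
  simp only [Q5.x, q5, xN]; push_cast; ring

theorem q5_y (d : Desc) : (P.q5 d).y P.E = P.yN d := by
  simp only [Q5.y, q5, yN]; push_cast; ring

end Par

end Pool.Agent.Work.MP_32aa60_lc
end

-- merged part: Pool.Agent.Work.MP_32aa60_lc.H39Forb
section
/-!
Forbidden patterns in a part in convex position.
-/

namespace Pool.Agent.Work.MP_32aa60_lc

namespace Par

variable {P : Par} {T : List (ℚ × ℚ)}

/-- The descriptor is valid and its point lies in the part. -/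
def Cov (P : Par) (T : List (ℚ × ℚ)) (d : Desc) : Prop := P.Valid d ∧ P.pt d ∈ T

def oriP (P : Par) (d e f : Desc) : ℤ :=
  ori (P.xN d) (P.yN d) (P.xN e) (P.yN e) (P.xN f) (P.yN f)

theorem Cov.mem {d : Desc} (h : P.Cov T d) : In T (P.xN d) (P.yN d) := by
  simpa [In, pt] using h.2

theorem tri (hT : ConvexPos T) {a b c p : Desc} (ha : P.Cov T a) (hb : P.Cov T b)
    (hc : P.Cov T c) (hp : P.Cov T p) (h1 : 0 < P.oriP a b p) (h2 : 0 < P.oriP b c p)
    (h3 : 0 ≤ P.oriP c a p) : False :=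
  tri_false hT ha.mem hb.mem hc.mem hp.mem h1 h2 h3

theorem pos3 {d e f : Desc} (hd : P.Valid d) (he : P.Valid e) (hf : P.Valid f)
    (h : 0 < ori (P.X d) (P.Y d) (P.X e) (P.Y e) (P.X f) (P.Y f)) : 0 < P.oriP d e f := by
  have := ori_lex (E_gt (P := P)) hd.bd he.bd hf.bd (Or.inl h)
  simpa only [q5_x, q5_y, oriP] using this

theorem posRow {d e f : Desc} (hd : P.Valid d) (he : P.Valid e) (hf : P.Valid f)
    (h1 : e.a = d.a) (h2 : e.i = d.i) (h3 : f.a = d.a) (h4 : f.i = d.i)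
    (h : 0 < ori (P.X d) (P.C d) (P.X e) (P.C e) (P.X f) (P.C f)) : 0 < P.oriP d e f := by
  have := ori_lex (E_gt (P := P)) hd.bd he.bd hf.bd (Or.inr ⟨by
    simp [q5, ori, Y, h1, h2, h3, h4], by simpa [q5, ori, Y, h1, h2, h3, h4] using h⟩)
  simpa only [q5_x, q5_y, oriP] using this

theorem posCol {d e f : Desc} (hd : P.Valid d) (he : P.Valid e) (hf : P.Valid f)
    (h1 : P.X e = P.X d) (h2 : P.X f = P.X d)
    (h : 0 < ori ((P.Y d : ℤ) ^ 2 - (d.i : ℤ) ^ 2) (P.Y d) ((P.Y e : ℤ) ^ 2 - (e.i : ℤ) ^ 2) (P.Y e)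
      ((P.Y f : ℤ) ^ 2 - (f.i : ℤ) ^ 2) (P.Y f)) : 0 < P.oriP d e f := by
  have k : ∀ z : Desc, (P.q5 z).A = (P.Y z : ℤ) ^ 2 - (z.i : ℤ) ^ 2 := by
    intro z; simp only [q5, Y]; push_cast; ring
  have := ori_lex (E_gt (P := P)) hd.bd he.bd hf.bd (Or.inr ⟨by
    simp [q5, ori, h1, h2], by
      rw [k, k, k]
      simpa [q5, ori, h1, h2] using h⟩)
  simpa only [q5_x, q5_y, oriP] using this

theorem cup_core {x1 x2 x3 h1 h2 h3 : ℤ} (a1 : x1 + 2 ≤ x2) (a2 : x2 + 2 ≤ x3)
    (b1 : h2 ≤ h1 + 2) (b3 : h2 ≤ h3 + 2) :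
    0 < ori x3 (x3 ^ 2 + h3) x1 (x1 ^ 2 + h1) x2 (x2 ^ 2 + h2) := by
  obtain ⟨u, rfl⟩ : ∃ u, x2 = x1 + u := ⟨x2 - x1, by ring⟩
  obtain ⟨v, rfl⟩ : ∃ v, x3 = x1 + u + v := ⟨x3 - x1 - u, by ring⟩
  have hu : 2 ≤ u := by omega
  have hv : 2 ≤ v := by omega
  have e : ori (x1 + u + v) ((x1 + u + v) ^ 2 + h3) x1 (x1 ^ 2 + h1) (x1 + u) ((x1 + u) ^ 2 + h2) =
      (u + v) * (u * v - 2) + u * (h3 + 2 - h2) + v * (h1 + 2 - h2) := by
    unfold ori; ring
  rw [e]
  have : 4 ≤ u * v := by linarith only [a1, a2, mul_nonneg_of_nonpos_of_nonpos (Mathlib.Tactic.Linarith.sub_nonpos_of_le a1) (Mathlib.Tactic.Linarith.sub_nonpos_of_le a2)]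
  have : 0 < (u + v) * (u * v - 2) := mul_pos (by omega) (by omega)
  have : 0 ≤ u * (h3 + 2 - h2) := mul_nonneg (by omega) (by omega)
  have : 0 ≤ v * (h1 + 2 - h2) := mul_nonneg (by omega) (by omega)
  omega

theorem X_even (d : Desc) : P.X d % 2 = 0 := by unfold X; omega

theorem h_close {d e : Desc} (hd : P.Valid d) (h : P.Low d ↔ P.Low e) : P.h d ≤ P.h e + 2 := by
  have := hd.bounds
  unfold Par.h
  by_cases h1 : P.Low d
  · rw [if_pos h1, if_pos (h.1 h1)]; omega
  · rw [if_neg h1, if_neg (fun x => h1 (h.2 x))]; omega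

/-- Three points of a row on one track exclude all points below the row. -/
theorem row_below (hT : ConvexPos T) {d1 d2 d3 z : Desc} (c1 : P.Cov T d1) (c2 : P.Cov T d2)
    (c3 : P.Cov T d3) (cz : P.Cov T z) (a2 : d2.a = d1.a) (i2 : d2.i = d1.i) (a3 : d3.a = d1.a)
    (i3 : d3.i = d1.i) (l2 : P.Low d2 ↔ P.Low d1) (l3 : P.Low d2 ↔ P.Low d3)
    (x1 : P.X d1 < P.X d2) (x2 : P.X d2 < P.X d3) (hz : P.Y z < P.Y d1) : False := by
  have y2 : P.Y d2 = P.Y d1 := by unfold Y; rw [a2, i2]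
  have y3 : P.Y d3 = P.Y d1 := by unfold Y; rw [a3, i3]
  have z1 : (0 : ℤ) < (P.Y d1 : ℤ) - P.Y z := by omega
  refine tri hT c1 cz c3 c2 (pos3 c1.1 cz.1 c2.1 ?_) (pos3 cz.1 c3.1 c2.1 ?_)
    (posRow c3.1 c1.1 c2.1 (by omega) (by omega) (by omega) (by omega) ?_).le
  · have : (0 : ℤ) < (P.X d2 : ℤ) - P.X d1 := by omega
    have := mul_pos this z1
    unfold ori; rw [y2]; linarith only [this]
  · have : (0 : ℤ) < (P.X d3 : ℤ) - P.X d2 := by omega
    have := mul_pos this z1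
    unfold ori; rw [y2, y3]; linarith only [this]
  · have e1 := X_even (P := P) d1
    have e2 := X_even (P := P) d2
    have e3 := X_even (P := P) d3
    have f1 := h_close c2.1 l2
    have f3 := h_close c2.1 l3
    simp only [C]
    push_cast
    exact cup_core (by omega) (by omega) (by omega) (by omega)

theorem col_core {y1 y2 y3 i1 i2 i3 I : ℤ} (a1 : y1 + I < y2) (a2 : y2 + I < y3)
    (b1 : 0 ≤ i1 ∧ i1 < I) (b3 : 0 ≤ i3 ∧ i3 < I) :
    0 < ori (y1 ^ 2 - i1 ^ 2) y1 (y3 ^ 2 - i3 ^ 2) y3 (y2 ^ 2 - i2 ^ 2) y2 := by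
  obtain ⟨u, rfl⟩ : ∃ u, y2 = y1 + u := ⟨y2 - y1, by ring⟩
  obtain ⟨v, rfl⟩ : ∃ v, y3 = y1 + u + v := ⟨y3 - y1 - u, by ring⟩
  have hu : I < u := by omega
  have hv : I < v := by omega
  have e : ori (y1 ^ 2 - i1 ^ 2) y1 ((y1 + u + v) ^ 2 - i3 ^ 2) (y1 + u + v)
      ((y1 + u) ^ 2 - i2 ^ 2) (y1 + u) =
      u * (u * v - i3 ^ 2) + v * (u * v - i1 ^ 2) + (u + v) * i2 ^ 2 := by
    unfold ori; ring
  rw [e]
  have h0 : I * I < u * v := by linarith only [b1, a1, a2, mul_nonneg_of_nonpos_of_nonpos (Mathlib.Tactic.Linarith.sub_nonpos_of_le b1.left) (Mathlib.Tactic.Linarith.sub_nonpos_of_le (Int.add_one_le_iff.mpr a1)), mul_nonneg_of_nonpos_of_nonpos (Mathlib.Tactic.Linarith.sub_nonpos_of_le b1.left) (Mathlib.Tactic.Linarith.sub_nonpos_of_le (Int.add_one_le_iff.mpr a2)), mul_nonneg_of_nonpos_of_nonpos (Mathlib.Tactic.Linarith.sub_nonpos_of_le (Int.add_one_le_iff.mpr b1.right)) (Mathlib.Tactic.Linarith.sub_nonpos_of_le (Int.add_one_le_iff.mpr a1)),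 mul_nonneg_of_nonpos_of_nonpos (Mathlib.Tactic.Linarith.sub_nonpos_of_le (Int.add_one_le_iff.mpr b1.right)) (Mathlib.Tactic.Linarith.sub_nonpos_of_le (Int.add_one_le_iff.mpr a2)), mul_nonneg_of_nonpos_of_nonpos (Mathlib.Tactic.Linarith.sub_nonpos_of_le (Int.add_one_le_iff.mpr a1)) (Mathlib.Tactic.Linarith.sub_nonpos_of_le (Int.add_one_le_iff.mpr a2))]
  have h1 : i1 ^ 2 < I * I := by linarith only [b1, mul_nonneg_of_nonpos_of_nonpos (Mathlib.Tactic.Linarith.sub_nonpos_of_le b1.left) (Mathlib.Tactic.Linarith.sub_nonpos_of_le (Int.add_one_le_iff.mpr b1.right)), mul_nonneg_of_nonpos_of_nonpos (Mathlib.Tactic.Linarith.sub_nonpos_of_le (Int.add_one_le_iff.mpr b1.right)) (Mathlib.Tactic.Linarith.sub_nonpos_of_le (Int.add_one_le_iff.mpr b1.right))]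
  have h3 : i3 ^ 2 < I * I := by linarith only [b1, b3, mul_nonneg_of_nonpos_of_nonpos (Mathlib.Tactic.Linarith.sub_nonpos_of_le b1.left) (Mathlib.Tactic.Linarith.sub_nonpos_of_le (Int.add_one_le_iff.mpr b3.right)), mul_nonneg_of_nonpos_of_nonpos (Mathlib.Tactic.Linarith.sub_nonpos_of_le (Int.add_one_le_iff.mpr b1.right)) (Mathlib.Tactic.Linarith.sub_nonpos_of_le (Int.add_one_le_iff.mpr b3.right)), mul_nonneg_of_nonpos_of_nonpos (Mathlib.Tactic.Linarith.sub_nonpos_of_le b3.left) (Mathlib.Tactic.Linarith.sub_nonpos_of_le (Int.add_one_le_iff.mpr b3.right))]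
  have : 0 < u * (u * v - i3 ^ 2) := mul_pos (by omega) (by omega)
  have : 0 < v * (u * v - i1 ^ 2) := mul_pos (by omega) (by omega)
  have : 0 ≤ (u + v) * i2 ^ 2 := mul_nonneg (by omega) (sq_nonneg _)
  omega

/-- Three points of a column in distinct block rows exclude all points left of the column. -/
theorem col_left (hT : ConvexPos T) {d1 d2 d3 z : Desc} (c1 : P.Cov T d1) (c2 : P.Cov T d2)
    (c3 : P.Cov T d3) (cz : P.Cov T z) (x2 : P.X d2 = P.X d1) (x3 : P.X d3 = P.X d1)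
    (a1 : d1.a < d2.a) (a2 : d2.a < d3.a) (hz : P.X z < P.X d1) : False := by
  have y1 := Y_lt c1.1 a1
  have y2 := Y_lt c2.1 a2
  have z1 : (0 : ℤ) < (P.X d1 : ℤ) - P.X z := by omega
  refine tri hT c3 cz c1 c2 (pos3 c3.1 cz.1 c2.1 ?_) (pos3 cz.1 c1.1 c2.1 ?_)
    (posCol c1.1 c3.1 c2.1 x3 x2 ?_).le
  · have : (0 : ℤ) < (P.Y d3 : ℤ) - P.Y d2 := by omega
    have := mul_pos this z1
    unfold ori; rw [x2, x3]; linarith only [this]
  · have : (0 : ℤ) < (P.Y d2 : ℤ) - P.Y d1 := by omega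
    have := mul_pos this z1
    unfold ori; rw [x2]; linarith only [this]
  · have b1 := c1.1.bounds
    have b3 := c3.1.bounds
    exact col_core (I := P.I) (by omega) (by omega) (by omega) (by omega)

theorem track_core {xl xr xp xq d kp kq W M : ℤ} (a1 : xl + 2 ≤ xp) (a2 : xl + 2 ≤ xq)
    (a3 : xp + 2 ≤ xr) (a4 : xq + 2 ≤ xr) (a5 : xp - xq ≤ W) (a6 : xq - xp ≤ W) (a7 : xr - xl ≤ M)
    (hd : W * M + 3 ≤ d) (kp2 : kp ≤ 2) (kq0 : 0 ≤ kq) (kq2 : kq ≤ 2) :
    0 < ori xl (xl ^ 2 + d) xp (xp ^ 2 + kp) xq (xq ^ 2 + (d + kq)) ∧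
    0 < ori xp (xp ^ 2 + kp) xr (xr ^ 2 + d) xq (xq ^ 2 + (d + kq)) ∧
    0 < ori xr (xr ^ 2 + d) xl (xl ^ 2 + d) xq (xq ^ 2 + (d + kq)) := by
  have hW : 0 ≤ W := by omega
  refine ⟨?_, ?_, cup_core a2 a4 (by omega) (by omega)⟩
  · have e : ori xl (xl ^ 2 + d) xp (xp ^ 2 + kp) xq (xq ^ 2 + (d + kq)) =
        (xq - xl) * (d - kp - (xp - xl) * (xp - xq)) + (xp - xl) * kq := by
      unfold ori; ring
    rw [e]
    have : (xp - xl) * (xp - xq) ≤ W * M := by linarith only [a5, a6, a1, a3, a7, mul_nonneg_of_nonpos_of_nonpos (Mathlib.Tactic.Linarith.sub_nonpos_of_le a1) (Mathlib.Tactic.Linarith.sub_nonpos_of_le a5), mul_nonneg_of_nonpos_of_nonpos (Mathlib.Tactic.Linarith.sub_nonpos_of_le a3) (Mathlib.Tactic.Linarith.sub_nonpos_of_le a5), mul_nonneg_of_nonpos_of_nonpos (Mathlib.Tactic.Linarith.sub_nonpos_of_le a3) (Mathlib.Tactic.Linarith.sub_nonpos_of_le a6), mul_nonneg_of_nonpos_of_nonpos (Mathlib.Tactic.Linarith.sub_nonpos_of_le a5) (Mathlib.Tactic.Linarith.sub_nonpos_of_le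 a7), mul_nonneg_of_nonpos_of_nonpos (Mathlib.Tactic.Linarith.sub_nonpos_of_le a6) (Mathlib.Tactic.Linarith.sub_nonpos_of_le a7)]
    have : 0 < (xq - xl) * (d - kp - (xp - xl) * (xp - xq)) := mul_pos (by omega) (by omega)
    have : 0 ≤ (xp - xl) * kq := mul_nonneg (by omega) kq0
    omega
  · have e : ori xp (xp ^ 2 + kp) xr (xr ^ 2 + d) xq (xq ^ 2 + (d + kq)) =
        (xr - xq) * (d - kp - (xr - xp) * (xq - xp)) + (xr - xp) * kq := by
      unfold ori; ring
    rw [e]
    have : (xr - xp) * (xq - xp) ≤ W * M := by linarith only [a5, a6, a1, a3, a7, mul_nonneg_of_nonpos_of_nonpos (Mathlib.Tactic.Linarith.sub_nonpos_of_le a1) (Mathlib.Tactic.Linarith.sub_nonpos_of_le a5), mul_nonneg_of_nonpos_of_nonpos (Mathlib.Tactic.Linarith.sub_nonpos_of_le a1) (Mathlib.Tactic.Linarith.sub_nonpos_of_le a6), mul_nonneg_of_nonpos_of_nonpos (Mathlib.Tactic.Linarith.sub_nonpos_of_le a3) (Mathlib.Tactic.Linarith.sub_nonpos_of_le a6), mul_nonneg_of_nonpos_of_nonpos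 (Mathlib.Tactic.Linarith.sub_nonpos_of_le a5) (Mathlib.Tactic.Linarith.sub_nonpos_of_le a7), mul_nonneg_of_nonpos_of_nonpos (Mathlib.Tactic.Linarith.sub_nonpos_of_le a6) (Mathlib.Tactic.Linarith.sub_nonpos_of_le a7)]
    have : 0 < (xr - xq) * (d - kp - (xr - xp) * (xq - xp)) := mul_pos (by omega) (by omega)
    have : 0 ≤ (xr - xp) * kq := mul_nonneg (by omega) kq0
    omega

/-- A part with points at both ends of a row uses only one track in each block of the row. -/
theorem one_track (hT : ConvexPos T) {l r p q : Desc} (cl : P.Cov T l) (cr : P.Cov T r)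
    (cp : P.Cov T p) (cq : P.Cov T q) (ar : r.a = l.a) (ir : r.i = l.i) (ap : p.a = l.a)
    (ip : p.i = l.i) (aq : q.a = l.a) (iq : q.i = l.i) (bl : l.b = 0) (kl : l.k = 0)
    (br : r.b = P.S' + 1) (kr : r.k = 0) (op : P.Opt p) (oq : P.Opt q) (bpq : p.b = q.b)
    (lp : P.Low p) (lq : ¬ P.Low q) : False := by
  have hl : P.h l = P.d0 := by
    unfold h; rw [if_neg (by unfold Low; omega)]; omega
  have hr : P.h r = P.d0 := by
    unfold h; rw [if_neg (by unfold Low; omega)]; omega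
  have hp : P.h p = p.k := by unfold h; rw [if_pos lp]
  have hq : P.h q = P.d0 + q.k := by unfold h; rw [if_neg lq]
  have g1 := P.G1_ge
  obtain ⟨-, -, p1, p2, p3, p4, -⟩ := op
  obtain ⟨-, -, q1, q2, q3, q4, -⟩ := oq
  have x1 := X_lt (e := p) cl.1 (by omega)
  have x2 := X_lt (e := q) cl.1 (by omega)
  have x3 := X_lt (e := r) cp.1 (by omega)
  have x4 := X_lt (e := r) cq.1 (by omega)
  have x5 := cr.1.X_le
  have x6 : P.X p ≤ P.X q + 2 * P.J ∧ P.X q ≤ P.X p + 2 * P.J := by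
    unfold X; rw [bpq]; omega
  have hd : (2 * (P.J : ℤ)) * P.Xm + 3 ≤ P.d0 := by unfold d0; push_cast; omega
  obtain ⟨t1, t2, t3⟩ := track_core (xl := P.X l) (xr := P.X r) (xp := P.X p) (xq := P.X q)
    (d := P.d0) (kp := p.k) (kq := q.k) (W := 2 * P.J) (M := P.Xm) (by omega) (by omega)
    (by omega) (by omega) (by omega) (by omega) (by omega) hd (by omega) (by omega) (by omega)
  refine tri hT cl cp cr cq (posRow cl.1 cp.1 cq.1 ap ip aq iq ?_)
    (posRow cp.1 cr.1 cq.1 (by omega) (by omega) (by omega) (by omega) ?_)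
    (posRow cr.1 cl.1 cq.1 (by omega) (by omega) (by omega) (by omega) ?_).le
  · simp only [C, hl, hp, hq]; push_cast; exact t1
  · simp only [C, hr, hp, hq]; push_cast; exact t2
  · simp only [C, hl, hr, hq]; push_cast; exact t3

/-- Offset of a point along the tangent line of its column and block row. -/
def u (P : Par) (d : Desc) : ℕ := P.E * d.i + P.C d

theorem xN_eq (d : Desc) :
    P.xN d = P.E ^ 2 * P.X d + P.E * P.c d.a ^ 2 + 2 * P.c d.a * P.u d := by
  unfold xN u; ring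

theorem yN_eq (d : Desc) : P.yN d = P.E * P.c d.a + P.u d := by
  unfold yN u Y; ring

theorem C_lt_E {d : Desc} (hd : P.Valid d) : P.C d < P.E := by
  have := hd.nat_bd.2.2.2.2
  have h2 : P.Z ≤ P.Z ^ 2 := Nat.le_self_pow (by norm_num) _
  unfold E
  omega

theorem u_ne {d e : Desc} (hd : P.Valid d) (he : P.Valid e) (hx : P.X d = P.X e)
    (hk : d.k ≠ e.k) : P.u d ≠ P.u e := by
  intro h
  have h1 := congrArg (· % P.E) h
  simp only [u, Nat.mul_add_mod, Nat.mod_eq_of_lt (C_lt_E hd), Nat.mod_eq_of_lt (C_lt_E he)] at h1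
  have := hd.bounds
  have := he.bounds
  have := P.d0_ge
  unfold C Par.h at h1
  rw [hx] at h1
  split_ifs at h1 <;> omega

/-- The three literal points of a column in a block are collinear. -/
theorem three_lits (hT : ConvexPos T) {d0 d1 d2 : Desc} (c0 : P.Cov T d0) (c1 : P.Cov T d1)
    (c2 : P.Cov T d2) (a1 : d1.a = d0.a) (a2 : d2.a = d0.a) (x1 : P.X d1 = P.X d0)
    (x2 : P.X d2 = P.X d0) (k01 : d0.k ≠ d1.k) (k02 : d0.k ≠ d2.k) (k12 : d1.k ≠ d2.k) :
    False := by
  have key : ∀ d, P.Cov T d → d.a = d0.a → P.X d = P.X d0 →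
      In T ((P.E ^ 2 * P.X d0 + P.E * P.c d0.a ^ 2 : ℕ) + (2 * P.c d0.a : ℕ) * (P.u d : ℤ))
        ((P.E * P.c d0.a : ℕ) + (P.u d : ℤ)) := by
    intro d hd ha hx
    have := hd.mem
    rw [xN_eq, yN_eq, ha, hx] at this
    exact_mod_cast this
  have m0 := key _ c0 rfl rfl
  have m1 := key _ c1 a1 x1
  have m2 := key _ c2 a2 x2
  have n01 := u_ne c0.1 c1.1 x1.symm k01
  have n02 := u_ne c0.1 c2.1 x2.symm k02
  have n12 := u_ne c1.1 c2.1 (x1.trans x2.symm) k12
  rcases lt_or_gt_of_ne n01 with e1 | e1 <;> rcases lt_or_gt_of_ne n02 with e2 | e2 <;>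
    rcases lt_or_gt_of_ne n12 with e3 | e3
  all_goals first
    | omega
    | exact line_false hT m0 m1 m2 (by omega) (by omega)
    | exact line_false hT m0 m2 m1 (by omega) (by omega)
    | exact line_false hT m1 m0 m2 (by omega) (by omega)
    | exact line_false hT m1 m2 m0 (by omega) (by omega)
    | exact line_false hT m2 m0 m1 (by omega) (by omega)
    | exact line_false hT m2 m1 m0 (by omega) (by omega)

theorem far_core {x y x' y' xz yz M W : ℤ} (a1 : x < x') (a2 : xz - x ≤ M) (a3 : x - xz ≤ M)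
    (a4 : y' - y ≤ W) (a5 : y - y' ≤ W) (a6 : y + M * W < yz) : 0 < ori x y x' y' xz yz := by
  have h1 : (xz - x) * (y' - y) ≤ M * W := by
    refine (le_abs_self _).trans ?_
    rw [abs_mul]
    exact mul_le_mul (abs_le.2 ⟨by omega, a2⟩) (abs_le.2 ⟨by omega, a4⟩) (abs_nonneg _) (by omega)
  have h0 : 0 ≤ M * W := mul_nonneg (by omega) (by omega)
  have h2 : yz - y ≤ (x' - x) * (yz - y) := le_mul_of_one_le_left (by omega) (by omega)
  unfold ori
  omega

theorem far_core' {x y x' y' xz yz M W : ℤ} (a1 : x' < x) (a2 : xz - x ≤ M) (a3 : x - xz ≤ M)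
    (a4 : y' - y ≤ W) (a5 : y - y' ≤ W) (a6 : yz + M * W < y) : 0 < ori x y x' y' xz yz := by
  have := far_core (x := -x) (y := -y) (x' := -x') (y' := -y') (xz := -xz) (yz := -yz) (M := M)
    (W := W) (by omega) (by omega) (by omega) (by omega) (by omega) (by omega)
  unfold ori at this ⊢
  linarith only [this]

theorem ori_cyc (a b c d e f : ℤ) : ori a b c d e f = ori c d e f a b := by unfold ori; ring

theorem ori_swap (a b c d e f : ℤ) : ori a b c d e f = -ori a b e f c d := by unfold ori; ring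

/-- A group of rows strictly between two points of the part meets at most two columns. -/
theorem thin_group (hT : ConvexPos T) {d1 d2 d3 zl zu : Desc} (c1 : P.Cov T d1) (c2 : P.Cov T d2)
    (c3 : P.Cov T d3) (cl : P.Cov T zl) (cu : P.Cov T zu) (q1 : P.Q ≤ d1.a) (q2 : P.Q ≤ d2.a)
    (q3 : P.Q ≤ d3.a) (g1 : P.grp d1.a = P.grp d2.a) (g3 : P.grp d3.a = P.grp d2.a)
    (x1 : P.X d1 < P.X d2) (x2 : P.X d2 < P.X d3) (gl : P.grp zl.a < P.grp d2.a)
    (gu : P.grp d2.a < P.grp zu.a) : False := by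
  have hH : (P.Xm : ℤ) * (P.Δ * P.R0 : ℕ) < P.H := by unfold H; push_cast; omega
  have hΔ : P.Δ = 2 * P.I + 2 := rfl
  have close : ∀ d e : Desc, P.Valid e → P.Q ≤ d.a → P.grp d.a = P.grp e.a →
      P.Y e ≤ P.Y d + P.Δ * P.R0 := by
    intro d e he hq hg
    have := c_grp_eq hq hg
    have := he.bounds
    unfold Y
    omega
  have far : ∀ d e : Desc, P.Valid d → P.grp d.a < P.grp e.a → P.Y d + P.H ≤ P.Y e := by
    intro d e hd hg
    have := c_grp_lt hg
    have := hd.bounds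
    unfold Y
    omega
  have w12 := close d1 d2 c2.1 q1 g1
  have w21 := close d2 d1 c1.1 q2 g1.symm
  have w32 := close d3 d2 c2.1 q3 g3
  have w23 := close d2 d3 c3.1 q2 g3.symm
  have f1 := far zl d2 cl.1 gl
  have f2 := far d2 zu c2.1 gu
  have m1 := c1.1.X_le
  have m2 := c2.1.X_le
  have m3 := c3.1.X_le
  have ml := cl.1.X_le
  have mu := cu.1.X_le
  rcases le_total 0 (P.oriP d3 d1 d2) with h | h
  · refine tri hT c1 cl c3 c2 (pos3 c1.1 cl.1 c2.1 ?_) (pos3 cl.1 c3.1 c2.1 ?_) h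
    · rw [ori_cyc, ori_cyc]
      exact far_core' (M := P.Xm) (W := (P.Δ * P.R0 : ℕ)) (by omega) (by omega) (by omega)
        (by omega) (by omega) (by omega)
    · rw [ori_cyc, ori_cyc, ori_swap, neg_pos, ← neg_pos, ← ori_swap, ori_swap, neg_pos]
      have := far_core (x := P.X d2) (y := -P.Y d2) (x' := P.X d3) (y' := -P.Y d3) (xz := P.X zl)
        (yz := -P.Y zl) (M := P.Xm) (W := (P.Δ * P.R0 : ℕ)) (by omega) (by omega) (by omega)
        (by omega) (by omega) (by omega)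
      unfold ori at this ⊢
      linarith only [this]
  · refine tri hT c3 cu c1 c2 (pos3 c3.1 cu.1 c2.1 ?_) (pos3 cu.1 c1.1 c2.1 ?_) ?_
    · rw [ori_cyc, ori_cyc]
      exact far_core (M := P.Xm) (W := (P.Δ * P.R0 : ℕ)) (by omega) (by omega) (by omega)
        (by omega) (by omega) (by omega)
    · have := far_core' (x := P.X d2) (y := -P.Y d2) (x' := P.X d1) (y' := -P.Y d1) (xz := P.X zu)
        (yz := -P.Y zu) (M := P.Xm) (W := (P.Δ * P.R0 : ℕ)) (by omega) (by omega) (by omega)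
        (by omega) (by omega) (by omega)
      unfold ori at this ⊢
      linarith only [this]
    · unfold oriP ori at h ⊢
      linarith only [h]

end Par

end Pool.Agent.Work.MP_32aa60_lc
end

-- merged part: Pool.Agent.Work.MP_32aa60_lc.H39Main
section
/-!
Main parts of rows and columns, and the number of exceptional points of a part.
-/

namespace Pool.Agent.Work.MP_32aa60_lc

open Finset

theorem Desc.ext' {d e : Desc} (h1 : d.a = e.a) (h2 : d.i = e.i) (h3 : d.b = e.b) (h4 : d.j = e.j)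
    (h5 : d.k = e.k) : d = e := by
  cases d; cases e; simp_all

theorem card_le_parts {ι π : Type} (W : Finset ι) (y : List π) (R : π → Desc → Prop) (m : ℕ)
    (key : Desc → ι) (h : ∀ w ∈ W, ∃ T ∈ y, ∃ d, R T d ∧ key d = w)
    (hs : ∀ T ∈ y, ∀ U : Finset Desc, (∀ d ∈ U, R T d) → U.card ≤ m) :
    W.card ≤ m * y.length := by
  classical
  by_cases hW : W = ∅
  · simp [hW]
  obtain ⟨w0, hw0⟩ := nonempty_iff_ne_empty.2 hW
  obtain ⟨T0, -, d0, -⟩ := h w0 hw0
  have : Nonempty π := ⟨T0⟩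
  have : Nonempty Desc := ⟨d0⟩
  choose! f hf e he1 he2 using h
  refine (card_le_mul_card_image_of_maps_to (f := f) (t := y.toFinset)
    (fun w hw => List.mem_toFinset.2 (hf w hw)) m fun T hT => ?_).trans
    (Nat.mul_le_mul_left _ (List.toFinset_card_le _))
  rw [← card_image_of_injOn (f := e) (by
    intro w hw w' hw' hh
    rw [← he2 w (mem_filter.1 hw).1, hh, he2 w' (mem_filter.1 hw').1])]
  refine hs T (List.mem_toFinset.1 hT) _ fun d hd => ?_
  obtain ⟨w, hw, rfl⟩ := mem_image.1 hd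
  rw [← (mem_filter.1 hw).2]
  exact he1 w (mem_filter.1 hw).1

open Classical in
theorem count_gen {ι ι' π : Type} (y : List π) (U : Finset ι) (V : Finset ι')
    (MR : π → ι → Prop) (MC : π → ι' → Prop) (Bot : π → Prop)
    (h1 : ∀ u ∈ U, ∃ T ∈ y, MR T u) (h2 : ∀ v ∈ V, ∃ T ∈ y, MC T v ∧ Bot T)
    (h3 : ∀ T ∈ y, ∀ u ∈ U, MR T u → ¬ Bot T)
    (h4 : ∀ T ∈ y, ∀ u ∈ U, ∀ u' ∈ U, MR T u → MR T u' → u = u')
    (h5 : ∀ T ∈ y, ∀ v ∈ V, ∀ v' ∈ V, MC T v → MC T v' → v = v') :
    U.card + (U.filter fun u => ¬ ∀ T ∈ y, ∀ T' ∈ y, MR T u → MR T' u → T = T').card + V.card ≤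
      y.length := by
  have e1 := count_mains U (fun u => y.toFinset.filter fun T => MR T u)
    (y.toFinset.filter fun T => ¬ Bot T) (by
      intro u hu T hT
      simp only [mem_filter, List.mem_toFinset] at hT ⊢
      exact ⟨hT.1, h3 T hT.1 u hu hT.2⟩) (by
      intro u hu
      obtain ⟨T, hT, h⟩ := h1 u hu
      exact ⟨T, by simp [hT, h]⟩) (by
      intro u hu u' hu' hne
      rw [disjoint_left]
      intro T hT hT'
      simp only [mem_filter, List.mem_toFinset] at hT hT'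
      exact hne (h4 T hT.1 u hu u' hu' hT.2 hT'.2))
  have e2 := count_mains V (fun v => y.toFinset.filter fun T => MC T v ∧ Bot T)
    (y.toFinset.filter fun T => Bot T) (by
      intro u hu T hT
      simp only [mem_filter, List.mem_toFinset] at hT ⊢
      exact ⟨hT.1, hT.2.2⟩) (by
      intro u hu
      obtain ⟨T, hT, h⟩ := h2 u hu
      exact ⟨T, by simp [hT, h]⟩) (by
      intro u hu u' hu' hne
      rw [disjoint_left]
      intro T hT hT'
      simp only [mem_filter, List.mem_toFinset] at hT hT'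
      exact hne (h5 T hT.1 u hu u' hu' hT.2.1 hT'.2.1))
  have e3 := card_filter_add_card_filter_not (s := y.toFinset) (fun T => Bot T)
  have e4 := List.toFinset_card_le y
  have e5 : (U.filter fun u => ¬ ∀ T ∈ y, ∀ T' ∈ y, MR T u → MR T' u → T = T').card ≤
      (U.filter fun u => 1 < (y.toFinset.filter fun T => MR T u).card).card := by
    refine card_le_card fun u hu => ?_
    simp only [mem_filter] at hu ⊢
    refine ⟨hu.1, ?_⟩
    have := hu.2
    push Not at this
    obtain ⟨T, hT, T', hT', a1, a2, a3⟩ := this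
    exact one_lt_card.2 ⟨T, by simp [hT, a1], T', by simp [hT', a2], a3⟩
  omega

namespace Par

variable {P : Par} {T : List (ℚ × ℚ)}

/-- The part has three points on one track of the row. -/
def MainR (P : Par) (T : List (ℚ × ℚ)) (a i : ℕ) : Prop :=
  ∃ d1 d2 d3, P.Cov T d1 ∧ P.Cov T d2 ∧ P.Cov T d3 ∧ d1.a = a ∧ d1.i = i ∧ d2.a = a ∧ d2.i = i ∧
    d3.a = a ∧ d3.i = i ∧ (P.Low d2 ↔ P.Low d1) ∧ (P.Low d2 ↔ P.Low d3) ∧
    P.X d1 < P.X d2 ∧ P.X d2 < P.X d3

/-- The part has points of the column in three block rows. -/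
def MainC (P : Par) (T : List (ℚ × ℚ)) (b j : ℕ) : Prop :=
  ∃ d1 d2 d3, P.Cov T d1 ∧ P.Cov T d2 ∧ P.Cov T d3 ∧ d1.b = b ∧ d1.j = j ∧ d2.b = b ∧ d2.j = j ∧
    d3.b = b ∧ d3.j = j ∧ d1.a < d2.a ∧ d2.a < d3.a

theorem card_le_three (U : Finset Desc) (hv : ∀ d ∈ U, P.Valid d)
    (h : ∀ d ∈ U, ∀ e ∈ U, d.k = e.k → d = e) : U.card ≤ 3 := by
  have := card_le_card_of_injOn (s := U) (t := range 3) Desc.k
    (fun d hd => by simpa using (hv d hd).bounds.2.2.2.2) (fun d hd e he => h d hd e he)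
  simpa using this

theorem row_small {a i : ℕ} (hm : ¬ P.MainR T a i) (U : Finset Desc)
    (hU : ∀ d ∈ U, P.Cov T d ∧ d.a = a ∧ d.i = i) : U.card ≤ 12 := by
  have key : ∀ V : Finset Desc, V ⊆ U → (∀ d ∈ V, ∀ e ∈ V, P.Low d ↔ P.Low e) → V.card ≤ 3 * 2 := by
    intro V hV hl
    refine card_le_of_no_chain V P.X 3 (fun d1 h1 d2 h2 d3 h3 x1 x2 => hm ?_) fun d hd => ?_
    · obtain ⟨a1, a2, a3⟩ := hU _ (hV h1)
      obtain ⟨b1, b2, b3⟩ := hU _ (hV h2)
      obtain ⟨c1, c2, c3⟩ := hU _ (hV h3)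
      exact ⟨d1, d2, d3, a1, b1, c1, a2, a3, b2, b3, c2, c3, hl _ h2 _ h1, hl _ h2 _ h3, x1, x2⟩
    · refine card_le_three (P := P) _ (fun e he => (hU _ (hV (mem_filter.1 he).1)).1.1) ?_
      intro e he f hf hk
      obtain ⟨a1, a2, a3⟩ := hU _ (hV (mem_filter.1 he).1)
      obtain ⟨b1, b2, b3⟩ := hU _ (hV (mem_filter.1 hf).1)
      have := X_inj a1.1 b1.1 ((mem_filter.1 he).2.trans (mem_filter.1 hf).2.symm)
      exact Desc.ext' (by omega) (by omega) this.1 this.2 hk
  have e1 := key (U.filter P.Low) (filter_subset _ _) fun d hd e he => by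
    simp [(mem_filter.1 hd).2, (mem_filter.1 he).2]
  have e2 := key (U.filter fun d => ¬ P.Low d) (filter_subset _ _) fun d hd e he => by
    simp [(mem_filter.1 hd).2, (mem_filter.1 he).2]
  have := card_filter_add_card_filter_not (s := U) P.Low
  omega

theorem i_eq {d e : Desc} (hd : P.Valid d) (he : P.Valid e) (b1 : 1 ≤ d.b) (b2 : d.b ≤ P.S')
    (ha : d.a = e.a) (hb : d.b = e.b) (hj : d.j = e.j) (hk : d.k = e.k) : d.i = e.i := by
  rcases hd with h | h | h
  · unfold RM at h; omega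
  · rcases he with h' | h' | h'
    · unfold RM at h'; omega
    · unfold CM at h h'; omega
    · unfold CM at h; unfold Opt at h'; omega
  · rcases he with h' | h' | h'
    · unfold RM at h'; omega
    · unfold CM at h'; unfold Opt at h; omega
    · rw [h.2.2.2.2.2.2.2, h'.2.2.2.2.2.2.2, ha, hj, hk]

theorem col_small {b j : ℕ} (hm : ¬ P.MainC T b j) (b1 : 1 ≤ b) (b2 : b ≤ P.S') (U : Finset Desc)
    (hU : ∀ d ∈ U, P.Cov T d ∧ d.b = b ∧ d.j = j) : U.card ≤ 6 := by
  refine card_le_of_no_chain U Desc.a 3 (fun d1 h1 d2 h2 d3 h3 x1 x2 => hm ?_) fun d hd => ?_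
  · obtain ⟨a1, a2, a3⟩ := hU _ h1
    obtain ⟨b1, b2, b3⟩ := hU _ h2
    obtain ⟨c1, c2, c3⟩ := hU _ h3
    exact ⟨d1, d2, d3, a1, b1, c1, a2, a3, b2, b3, c2, c3, x1, x2⟩
  · refine card_le_three (P := P) _ (fun e he => (hU _ (mem_filter.1 he).1).1.1) ?_
    intro e he f hf hk
    obtain ⟨a1, a2, a3⟩ := hU _ (mem_filter.1 he).1
    obtain ⟨c1, c2, c3⟩ := hU _ (mem_filter.1 hf).1
    have ha := (mem_filter.1 he).2.trans (mem_filter.1 hf).2.symm
    exact Desc.ext' ha (i_eq a1.1 c1.1 (by omega) (by omega) ha (by omega) (by omega) hk)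
      (by omega) (by omega) hk

theorem MainR.below (hT : ConvexPos T) {a i : ℕ} (h : P.MainR T a i) {z : Desc} (cz : P.Cov T z)
    (hz : z.a < a ∨ (z.a = a ∧ z.i < i)) : False := by
  obtain ⟨d1, d2, d3, c1, c2, c3, a1, i1, a2, i2, a3, i3, l2, l3, x1, x2⟩ := h
  refine row_below hT c1 c2 c3 cz (by omega) (by omega) (by omega) (by omega) l2 l3 x1 x2 ?_
  rcases hz with hz | hz
  · have := Y_lt (e := d1) cz.1 (by omega); omega
  · unfold Y; rw [a1, i1, hz.1]; omega

theorem MainR.uniq (hT : ConvexPos T) {a i a' i' : ℕ} (h : P.MainR T a i) (h' : P.MainR T a' i') :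
    a = a' ∧ i = i' := by
  have ⟨d, _, _, c, _, _, a1, i1, _⟩ := h
  have ⟨d', _, _, c', _, _, a1', i1', _⟩ := h'
  by_contra hc
  by_cases hlt : a < a' ∨ (a = a' ∧ i < i')
  · exact h'.below hT c (by omega)
  · exact h.below hT c' (by omega)

theorem MainC.left (hT : ConvexPos T) {b j : ℕ} (h : P.MainC T b j) {z : Desc} (cz : P.Cov T z)
    (hz : z.b < b ∨ (z.b = b ∧ z.j < j)) : False := by
  obtain ⟨d1, d2, d3, c1, c2, c3, a1, i1, a2, i2, a3, i3, x1, x2⟩ := h
  refine col_left hT c1 c2 c3 cz (by unfold X; rw [a1, a2, i1, i2])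
    (by unfold X; rw [a1, a3, i1, i3]) x1 x2 ?_
  rcases hz with hz | hz
  · have := X_lt (e := d1) cz.1 (by omega)
    have := P.G1_ge
    omega
  · unfold X; rw [a1, i1, hz.1]; omega

theorem MainC.uniq (hT : ConvexPos T) {b j b' j' : ℕ} (h : P.MainC T b j) (h' : P.MainC T b' j') :
    b = b' ∧ j = j' := by
  have ⟨d, _, _, c, _, _, a1, i1, _⟩ := h
  have ⟨d', _, _, c', _, _, a1', i1', _⟩ := h'
  by_contra hc
  by_cases hlt : b < b' ∨ (b = b' ∧ j < j')
  · exact h'.left hT c (by omega)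
  · exact h.left hT c' (by omega)

/-- An optional point covered by a part that is main neither in its row nor in its column. -/
def Cheat (P : Par) (T : List (ℚ × ℚ)) (d : Desc) : Prop :=
  P.Cov T d ∧ P.Opt d ∧ ¬ P.MainR T d.a d.i ∧ ¬ P.MainC T d.b d.j

theorem cheat_group (U : Finset Desc) (hU : ∀ d ∈ U, P.Cheat T d)
    (hg : ∀ d ∈ U, ∀ e ∈ U, P.grp d.a = P.grp e.a) : U.card ≤ 12 * (P.R0 * P.I) := by
  have := card_le_mul_card_image_of_maps_to (s := U) (t := range P.R0 ×ˢ range P.I)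
    (f := fun d => ((d.a - P.Q) % P.R0, d.i)) (fun d hd => by
      simp only [mem_product, mem_range]
      exact ⟨Nat.mod_lt _ P.R0_pos, (hU d hd).2.1.i_lt⟩) 12 (by
      intro z _
      rcases (U.filter fun d => ((d.a - P.Q) % P.R0, d.i) = z).eq_empty_or_nonempty with h | ⟨d, hd⟩
      · rw [h]; simp
      · obtain ⟨hd1, hd2⟩ := mem_filter.1 hd
        refine row_small (hU d hd1).2.2.1 _ fun e he => ?_
        obtain ⟨he1, he2⟩ := mem_filter.1 he
        have h1 := he2.trans hd2.symm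
        simp only [Prod.mk.injEq] at h1
        have h2 := hg e he1 d hd1
        unfold grp at h2
        have h3 := Nat.div_add_mod (d.a - P.Q) P.R0
        have h4 := Nat.div_add_mod (e.a - P.Q) P.R0
        rw [h2, h1.1] at h4
        have := (hU d hd1).2.1.1
        have := (hU e he1).2.1.1
        exact ⟨(hU e he1).1, by omega, h1.2⟩)
  simpa using this

theorem cheat_card (hT : ConvexPos T) (U : Finset Desc) (hU : ∀ d ∈ U, P.Cheat T d) :
    U.card ≤ 12 * P.NG + 24 * (P.R0 * P.I) := by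
  classical
  let lo : Desc → Prop := fun d => ∀ e ∈ U, P.grp d.a ≤ P.grp e.a
  let hi : Desc → Prop := fun d => ∀ e ∈ U, P.grp e.a ≤ P.grp d.a
  have e1 := cheat_group (U.filter lo) (fun d hd => hU d (mem_filter.1 hd).1) fun d hd e he =>
    le_antisymm ((mem_filter.1 hd).2 e (mem_filter.1 he).1) ((mem_filter.1 he).2 d (mem_filter.1 hd).1)
  have e2 := cheat_group ((U.filter fun d => ¬ lo d).filter hi)
    (fun d hd => hU d (mem_filter.1 (mem_filter.1 hd).1).1) fun d hd e he =>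
    le_antisymm ((mem_filter.1 he).2 d (mem_filter.1 (mem_filter.1 hd).1).1)
      ((mem_filter.1 hd).2 e (mem_filter.1 (mem_filter.1 he).1).1)
  have e3 := card_filter_add_card_filter_not (s := U) lo
  have e4 := card_filter_add_card_filter_not (s := U.filter fun d => ¬ lo d) hi
  have e5 := card_le_mul_card_image_of_maps_to
    (s := (U.filter fun d => ¬ lo d).filter fun d => ¬ hi d) (t := range P.NG)
    (f := fun d => P.grp d.a) (fun d hd => by
      have h1 := (hU d (mem_filter.1 (mem_filter.1 hd).1).1).2.1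
      have h2 := P.S_eq
      rw [mem_range]
      refine Nat.div_lt_of_lt_mul ?_
      rw [Nat.mul_comm]
      unfold Opt at h1
      omega) 12 (by
      intro γ _
      have mem : ∀ d ∈ ((U.filter fun d => ¬ lo d).filter fun d => ¬ hi d).filter
          fun d => P.grp d.a = γ, P.Cheat T d ∧ ¬ lo d ∧ ¬ hi d ∧ P.grp d.a = γ := by
        intro d hd
        simp only [mem_filter] at hd
        exact ⟨hU d hd.1.1.1, hd.1.1.2, hd.1.2, hd.2⟩
      refine card_le_of_no_chain _ P.X 6 (fun d1 h1 d2 h2 d3 h3 x1 x2 => ?_) fun d hd => ?_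
      · obtain ⟨c1, -, -, g1⟩ := mem _ h1
        obtain ⟨c2, l2, u2, g2⟩ := mem _ h2
        obtain ⟨c3, -, -, g3⟩ := mem _ h3
        simp only [lo, hi, not_forall, not_le] at l2 u2
        obtain ⟨zl, hl, gl⟩ := l2
        obtain ⟨zu, hu, gu⟩ := u2
        exact thin_group hT c1.1 c2.1 c3.1 (hU _ hl).1 (hU _ hu).1 c1.2.1.1 c2.2.1.1 c3.2.1.1
          (by omega) (by omega) x1 x2 gl gu
      · obtain ⟨c1, -⟩ := mem _ hd
        refine col_small c1.2.2.2 c1.2.1.2.2.1 c1.2.1.2.2.2.1 _ fun e he => ?_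
        obtain ⟨c2, -⟩ := mem _ (mem_filter.1 he).1
        exact ⟨c2.1, X_inj c2.1.1 c1.1.1 (mem_filter.1 he).2⟩)
  rw [card_range] at e5
  omega

end Par

end Pool.Agent.Work.MP_32aa60_lc
end

-- merged part: Pool.Agent.Work.MP_32aa60_lc.H39Sound
section
/-!
Soundness: a partition with few parts yields satisfying assignments.
-/

namespace Pool.Agent.Work.MP_32aa60_lc

open Finset Pool.Agent.Lib.Poly

theorem digits {I i0 i1 i2 c : ℕ} (h0 : i0 < I) (h1 : i1 < I) (h2 : i2 < I) :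
    (i0 + I * (i1 + I * (i2 + I * c))) % I = i0 ∧
    (i0 + I * (i1 + I * (i2 + I * c))) / I % I = i1 ∧
    (i0 + I * (i1 + I * (i2 + I * c))) / (I * I) % I = i2 ∧
    (i0 + I * (i1 + I * (i2 + I * c))) / (I * I * I) = c := by
  have hI : 0 < I := by omega
  have k1 : ∀ x y, x < I → (x + I * y) % I = x := fun x y h => by
    rw [Nat.add_mul_mod_self_left, Nat.mod_eq_of_lt h]
  have k2 : ∀ x y, x < I → (x + I * y) / I = y := fun x y h => by
    rw [Nat.add_mul_div_left _ _ hI, Nat.div_eq_of_lt h, Nat.zero_add]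
  refine ⟨k1 _ _ h0, ?_, ?_, ?_⟩
  · rw [k2 _ _ h0, k1 _ _ h1]
  · rw [← Nat.div_div_eq_div_mul, k2 _ _ h0, k2 _ _ h1, k1 _ _ h2]
  · rw [← Nat.div_div_eq_div_mul, ← Nat.div_div_eq_div_mul, k2 _ _ h0, k2 _ _ h1, k2 _ _ h2]

theorem headD_filter {l : List ℕ} {p : ℕ → Bool} (h : ∃ x ∈ l, p x = true) :
    (l.filter p).headD 0 ∈ l ∧ p ((l.filter p).headD 0) = true := by
  obtain ⟨x, h1, h2⟩ := h
  have hx : x ∈ l.filter p := List.mem_filter.2 ⟨h1, h2⟩
  rw [← List.mem_filter]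
  cases e : l.filter p with
  | nil => rw [e] at hx; cases hx
  | cons z _ => simp

theorem card_filter_prod (A B : Finset ℕ) (p : ℕ × ℕ → Prop) {_ : DecidablePred p}
    (q : ℕ → ℕ → Prop) [∀ s, DecidablePred (q s)] (h : ∀ s i, p (s, i) ↔ q s i) :
    ((A ×ˢ B).filter p).card = ∑ s ∈ A, (B.filter (q s)).card := by
  rw [card_filter, sum_product]
  refine sum_congr rfl fun s _ => ?_
  rw [card_filter]
  exact sum_congr rfl fun i _ => if_congr (h s i) rfl rfl

namespace Par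

variable {P : Par} {y : List (List (ℚ × ℚ))}

def HonR (P : Par) (y : List (List (ℚ × ℚ))) (a i : ℕ) : Prop :=
  ∀ T ∈ y, ∀ T' ∈ y, P.MainR T a i → P.MainR T' a i → T = T'

def HonC (P : Par) (y : List (List (ℚ × ℚ))) (b j : ℕ) : Prop :=
  ∀ T ∈ y, ∀ T' ∈ y, P.MainC T b j → P.MainC T' b j → T = T'

def Val (P : Par) (y : List (List (ℚ × ℚ))) (a i b : ℕ) : Prop :=
  ∃ T ∈ y, P.MainR T a i ∧ ∃ d, P.Cov T d ∧ d.a = a ∧ d.i = i ∧ d.b = b ∧ P.Low d

open Classical in
noncomputable def pick (P : Par) (y : List (List (ℚ × ℚ))) (s t v : ℕ) : ℕ :=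
  ((List.range P.I).filter fun i =>
    decide (role P.qA P.g t i = v ∧ P.HonR y (P.Q + s) i)).headD 0

open Classical in
/-- The assignment read off the block `(s, t)`. -/
noncomputable def asg (P : Par) (y : List (List (ℚ × ℚ))) (s t v : ℕ) : Bool :=
  decide (P.Val y (P.Q + s) (P.pick y s t v) (t + 1))

/-- A cover of all points by few sets in convex position. -/
structure Ctx (P : Par) (y : List (List (ℚ × ℚ))) : Prop where
  conv : ∀ T ∈ y, ConvexPos T
  cov : ∀ d, P.Valid d → ∃ T ∈ y, P.pt d ∈ T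
  len : y.length ≤ P.Pm

theorem Ctx.exR (H : P.Ctx y) {a i b : ℕ} (a1 : P.Q ≤ a) (a2 : a < P.Q + P.S) (hi : i < P.I)
    (hb : b = 0 ∨ b = P.S' + 1) :
    ∃ T ∈ y, P.MainR T a i ∧ ∃ d, P.Cov T d ∧ d.a = a ∧ d.i = i ∧ d.b = b ∧ d.k = 0 := by
  by_contra hc
  have := card_le_parts (range P.Q) y
    (fun T d => ¬ P.MainR T a i ∧ P.Cov T d ∧ d.a = a ∧ d.i = i) 12 Desc.j (by
      intro j hj
      have hv : P.Valid ⟨a, i, b, j, 0⟩ := Or.inl ⟨a1, a2, hi, hb, mem_range.1 hj, rfl⟩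
      obtain ⟨T, hT, h⟩ := H.cov _ hv
      exact ⟨T, hT, _, ⟨fun hm => hc ⟨T, hT, hm, _, ⟨hv, h⟩, rfl, rfl, rfl, rfl⟩, ⟨hv, h⟩, rfl, rfl⟩,
        rfl⟩) (by
      intro T _ U hU
      rcases U.eq_empty_or_nonempty with h | ⟨d, hd⟩
      · simp [h]
      · exact row_small (hU d hd).1 U fun e he => (hU e he).2)
  have h1 := H.len
  have h2 := P.Pm_lt_Q
  rw [card_range] at this
  omega

theorem Ctx.exC (H : P.Ctx y) {b j : ℕ} (b1 : 1 ≤ b) (b2 : b ≤ P.S') (hj : j < P.J) :
    ∃ T ∈ y, P.MainC T b j ∧ ∃ d, P.Cov T d ∧ d.a < P.Q := by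
  by_contra hc
  have := card_le_parts (range P.Q) y
    (fun T d => ¬ P.MainC T b j ∧ P.Cov T d ∧ d.b = b ∧ d.j = j) 6 Desc.a (by
      intro a ha
      have hv : P.Valid ⟨a, 0, b, j, 0⟩ := Or.inr (Or.inl ⟨mem_range.1 ha, rfl, b1, b2, hj, rfl⟩)
      obtain ⟨T, hT, h⟩ := H.cov _ hv
      exact ⟨T, hT, _, ⟨fun hm => hc ⟨T, hT, hm, _, ⟨hv, h⟩, mem_range.1 ha⟩, ⟨hv, h⟩, rfl, rfl⟩,
        rfl⟩) (by
      intro T _ U hU
      rcases U.eq_empty_or_nonempty with h | ⟨d, hd⟩
      · simp [h]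
      · exact col_small (hU d hd).1 b1 b2 U fun e he => (hU e he).2)
  have h1 := H.len
  have h2 := P.Pm_lt_Q
  rw [card_range] at this
  omega

open Classical in
theorem Ctx.countR (H : P.Ctx y) :
    5 * (P.L * P.K) + ∑ s ∈ range P.S,
      ((range P.I).filter fun i => ¬ P.HonR y (P.Q + s) i).card ≤ y.length := by
  have := count_gen y (range P.S ×ˢ range P.I) (range P.S' ×ˢ range P.J)
    (fun T u => P.MainR T (P.Q + u.1) u.2) (fun T v => P.MainC T (v.1 + 1) v.2)
    (fun T => ∃ d, P.Cov T d ∧ d.a < P.Q) (by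
      intro u hu
      simp only [mem_product, mem_range] at hu
      obtain ⟨T, hT, h, -⟩ := H.exR (a := P.Q + u.1) (by omega) (by omega) hu.2 (Or.inl rfl)
      exact ⟨T, hT, h⟩) (by
      intro v hv
      simp only [mem_product, mem_range] at hv
      exact H.exC (by omega) (by omega) hv.2) (by
      rintro T hT u - h ⟨d, hd, hq⟩
      exact h.below (H.conv T hT) hd (by omega)) (by
      intro T hT u _ u' _ h h'
      have := h.uniq (H.conv T hT) h'
      exact Prod.ext (by omega) this.2) (by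
      intro T hT u _ u' _ h h'
      have := h.uniq (H.conv T hT) h'
      exact Prod.ext (by omega) this.2)
  rw [card_product, card_product, card_range, card_range, card_range, card_range, P.S_I, P.S'_J,
    card_filter_prod _ _ _ (fun s i => ¬ P.HonR y (P.Q + s) i) (fun _ _ => Iff.rfl)] at this
  omega

open Classical in
theorem Ctx.countC (H : P.Ctx y) :
    5 * (P.L * P.K) + ∑ t ∈ range P.S',
      ((range P.J).filter fun j => ¬ P.HonC y (t + 1) j).card ≤ y.length := by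
  have := count_gen y (range P.S' ×ˢ range P.J) (range P.S ×ˢ range P.I)
    (fun T v => P.MainC T (v.1 + 1) v.2) (fun T u => P.MainR T (P.Q + u.1) u.2)
    (fun T => ∃ d, P.Cov T d ∧ d.b = 0) (by
      intro v hv
      simp only [mem_product, mem_range] at hv
      obtain ⟨T, hT, h, -⟩ := H.exC (b := v.1 + 1) (by omega) (by omega) hv.2
      exact ⟨T, hT, h⟩) (by
      intro u hu
      simp only [mem_product, mem_range] at hu
      obtain ⟨T, hT, h, d, h1, -, -, h2, -⟩ :=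
        H.exR (a := P.Q + u.1) (by omega) (by omega) hu.2 (Or.inl rfl)
      exact ⟨T, hT, h, d, h1, h2⟩) (by
      rintro T hT u - h ⟨d, hd, hq⟩
      exact h.left (H.conv T hT) hd (by omega)) (by
      intro T hT u _ u' _ h h'
      have := h.uniq (H.conv T hT) h'
      exact Prod.ext (by omega) this.2) (by
      intro T hT u _ u' _ h h'
      have := h.uniq (H.conv T hT) h'
      exact Prod.ext (by omega) this.2)
  rw [card_product, card_product, card_range, card_range, card_range, card_range, P.S_I, P.S'_J,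
    card_filter_prod _ _ _ (fun t j => ¬ P.HonC y (t + 1) j) (fun _ _ => Iff.rfl)] at this
  omega

theorem fml_mem {l : ℕ} {c : List (ℕ × Bool)} (h : c ∈ P.fml l) : P.fml l ∈ P := by
  unfold fml at h ⊢
  by_cases hl : l < List.length P
  · rw [List.getD_eq_getElem _ _ hl]; exact List.getElem_mem hl
  · rw [List.getD_eq_default _ _ (not_lt.1 hl)] at h; cases h

theorem var_lt {l : ℕ} {c : List (ℕ × Bool)} (h : c ∈ P.fml l) {x : ℕ × Bool} (hx : x ∈ c) :
    x.1 < P.n := by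
  have h1 := sz_le_of_mem (fml_mem h)
  have h2 := sz_le_of_mem h
  have h3 := sz_le_of_mem hx
  have h4 := sz_fst_le x
  rw [sz_nat] at h4
  unfold n
  omega

theorem Ctx.lit_true (H : P.Ctx y) {T : List (ℚ × ℚ)} (hT : T ∈ y) {d : Desc} (cd : P.Cov T d)
    (od : P.Opt d) (hm : P.MainR T d.a d.i) (hh : P.HonR y d.a d.i) :
    P.Val y d.a d.i d.b ↔ P.Low d := by
  refine ⟨?_, fun h => ⟨T, hT, hm, d, cd, rfl, rfl, rfl, h⟩⟩
  rintro ⟨T', hT', hm', p, cp, a1, a2, a3, lp⟩
  by_contra lq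
  obtain rfl := hh _ hT _ hT' hm hm'
  obtain ⟨T1, hT1, m1, l, cl, l1, l2, l3, l4⟩ := H.exR od.1 od.2.1 od.i_lt (Or.inl rfl)
  obtain ⟨T2, hT2, m2, r, cr, r1, r2, r3, r4⟩ := H.exR od.1 od.2.1 od.i_lt (Or.inr rfl)
  obtain rfl := hh _ hT _ hT1 hm m1
  obtain rfl := hh _ hT _ hT2 hm m2
  have op : P.Opt p := by
    unfold Low at lp
    rcases cp.1 with h | h | h
    · unfold RM at h; omega
    · unfold CM at h; omega
    · exact h
  exact one_track (H.conv _ hT) cl cr cp cd (by omega) (by omega) (by omega) (by omega) (by omega)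
    (by omega) l3 l4 r3 r4 op od a3 lp lq

theorem Ctx.decode (H : P.Ctx y) (h3 : ∀ φ ∈ P, ∀ c ∈ φ, c.length = 3) {s t : ℕ} (hs : s < P.S)
    (ht : t < P.S') (hA : ∀ v < P.n, ∃ i < P.I, role P.qA P.g t i = v ∧ P.HonR y (P.Q + s) i)
    (hB : ∀ v < P.nB, ∃ j < P.J, role P.qB P.g s j = v ∧ P.HonC y (t + 1) j)
    (hC : ∀ T ∈ y, ∀ d, P.Cheat T d → d.a = P.Q + s → d.b ≠ t + 1) :
    Sat (P.asg y s t) (P.fml (s / P.SA)) := by
  classical
  intro c hc
  have hp : ∀ x ∈ c, P.pick y s t x.1 < P.I ∧ role P.qA P.g t (P.pick y s t x.1) = x.1 ∧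
      P.HonR y (P.Q + s) (P.pick y s t x.1) := by
    intro x hx
    obtain ⟨i, h1, h2⟩ := hA _ (var_lt hc hx)
    have := headD_filter (l := List.range P.I) (p := fun i =>
      decide (role P.qA P.g t i = x.1 ∧ P.HonR y (P.Q + s) i)) ⟨i, by simpa using h1, by simpa using h2⟩
    simpa [pick] using this
  obtain ⟨ci, hci, hc'⟩ := List.getElem_of_mem hc
  obtain ⟨l0, l1, l2, rfl⟩ := List.length_eq_three.1 (h3 _ (fml_mem hc) _ hc)
  obtain ⟨p0, r0, o0⟩ := hp l0 (by simp)
  obtain ⟨p1, r1, o1⟩ := hp l1 (by simp)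
  obtain ⟨p2, r2, o2⟩ := hp l2 (by simp)
  obtain ⟨e0, e1, e2, e3⟩ := digits (c := ci) p0 p1 p2
  have hci' : ci + 1 ≤ P.n := by
    have := length_le_sz (P.fml (s / P.SA))
    have := sz_le_of_mem (fml_mem hc)
    unfold n
    omega
  obtain ⟨j, hj, hr, hon⟩ := hB (P.pick y s t l0.1 + P.I * (P.pick y s t l1.1 +
      P.I * (P.pick y s t l2.1 + P.I * ci))) (by
    have a1 : P.pick y s t l2.1 + P.I * ci + 1 ≤ P.I * P.n := by
      have := Nat.mul_le_mul_left P.I hci'
      rw [Nat.mul_add] at this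
      omega
    have a2 : P.pick y s t l1.1 + P.I * (P.pick y s t l2.1 + P.I * ci) + 1 ≤ P.I * (P.I * P.n) := by
      have := Nat.mul_le_mul_left P.I a1
      rw [Nat.mul_add] at this
      omega
    have a3 := Nat.mul_le_mul_left P.I a2
    rw [Nat.mul_add] at a3
    have : P.nB = P.I * (P.I * (P.I * P.n)) := by unfold nB; ring
    omega)
  have hcl : P.cl s j = ci := by unfold cl rho; rw [hr]; exact e3
  have hlit : ∀ k, P.lit s j k = [l0, l1, l2].getD k (0, false) := by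
    intro k
    unfold lit
    rw [hcl, List.getD_eq_getElem _ _ hci, hc']
  have t0 : P.tgt s j 0 = P.pick y s t l0.1 := by unfold tgt rho; rw [hr]; simpa using e0
  have t1 : P.tgt s j 1 = P.pick y s t l1.1 := by unfold tgt rho; rw [hr]; simpa using e1
  have t2 : P.tgt s j 2 = P.pick y s t l2.1 := by unfold tgt rho; rw [hr]; simpa using e2
  have act : P.Act s t j := ⟨by rw [hcl]; exact hci, by rw [t0, hlit]; exact r0,
    by rw [t1, hlit]; exact r1, by rw [t2, hlit]; exact r2⟩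
  have key : ∀ k < 3, ∀ l ∈ [l0, l1, l2], P.lit s j k = l → P.tgt s j k = P.pick y s t l.1 →
      P.asg y s t l.1 = l.2 ∨ ∃ T ∈ y, P.MainC T (t + 1) j ∧
        P.Cov T ⟨P.Q + s, P.tgt s j k, t + 1, j, k⟩ := by
    intro k hk l hl e1 e2
    have od : P.Opt ⟨P.Q + s, P.tgt s j k, t + 1, j, k⟩ :=
      ⟨by simp, by simpa using hs, by simp, ht, hj, hk, by simpa using act, by simp⟩
    obtain ⟨T, hT, h⟩ := H.cov _ (Or.inr (Or.inr od))
    have cd : P.Cov T ⟨P.Q + s, P.tgt s j k, t + 1, j, k⟩ := ⟨Or.inr (Or.inr od), h⟩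
    by_cases hmc : P.MainC T (t + 1) j
    · exact Or.inr ⟨T, hT, hmc, cd⟩
    · left
      have hmr : P.MainR T (P.Q + s) (P.tgt s j k) := by
        by_contra hmr
        exact hC T hT _ ⟨cd, od, hmr, hmc⟩ rfl rfl
      have := H.lit_true hT cd od hmr (by rw [e2]; exact (hp l hl).2.2)
      simp only [Low, Nat.add_sub_cancel_left, e1, e2] at this
      rw [Bool.eq_iff_iff, asg, decide_eq_true_iff, this]
      simp only [and_iff_right_iff_imp, ← and_assoc]
      omega
  rcases key 0 (by omega) l0 (by simp) (hlit 0) t0 with h0 | ⟨T0, hT0, m0, c0⟩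
  · exact ⟨l0, by simp, h0⟩
  rcases key 1 (by omega) l1 (by simp) (hlit 1) t1 with h1 | ⟨T1, hT1, m1, c1⟩
  · exact ⟨l1, by simp, h1⟩
  rcases key 2 (by omega) l2 (by simp) (hlit 2) t2 with h2 | ⟨T2, hT2, m2, c2⟩
  · exact ⟨l2, by simp, h2⟩
  obtain rfl := hon _ hT0 _ hT1 m0 m1
  obtain rfl := hon _ hT0 _ hT2 m0 m2
  exact (three_lits (H.conv _ hT0) c0 c1 c2 rfl rfl rfl rfl (by simp) (by simp) (by simp)).elim

end Par

end Pool.Agent.Work.MP_32aa60_lc
end
end

-- merged part: Pool.Agent.Work.MP_32aa60_lc.H39Top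
section
-- merged part: Pool.Agent.Work.MP_32aa60_lc.H39Good
section
/-!
Existence of a good block, and the number of formulas left unsolved.
-/

namespace Pool.Agent.Work.MP_32aa60_lc

open Finset

theorem fiber_bound {q κ n : ℕ} (hq : q.Prime) (hκ : 0 < κ) (hn : n * (4 * κ ^ 3) ≤ q)
    (bad : ℕ → Prop) [DecidablePred bad]
    (hb : κ * ((range (q * q)).filter bad).card + q * q ≤ κ * (q * q)) (a m : ℕ)
    [DecidablePred fun t => ∃ v < n, ∀ i < q * q, role q (4 * κ ^ 3) t i = v → bad i] :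
    4 * κ ^ 2 * ((Ico a (a + q * m)).filter fun t =>
      ∃ v < n, ∀ i < q * q, role q (4 * κ ^ 3) t i = v → bad i).card ≤ q * m := by
  have h1 := few_bad hq (by positivity) hn bad hb
  rw [card_periodic _ q (fun t => by simp only [role_periodic]) a m]
  generalize ((range q).filter fun t =>
    ∃ v < n, ∀ i < q * q, role q (4 * κ ^ 3) t i = v → bad i).card = c at h1
  have h2 : 4 * κ ^ 2 * c ≤ q := 
    Nat.le_of_mul_le_mul_left (show κ * (4 * κ ^ 2 * c) ≤ κ * q from
      (le_of_eq (by ring)).trans h1) hκ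
  calc 4 * κ ^ 2 * (m * c) = 4 * κ ^ 2 * c * m := by ring
    _ ≤ q * m := Nat.mul_le_mul_right _ h2

theorem card_pairs_le (A : Finset ℕ) (F : ℕ → Finset ℕ) (e : ℕ → ℕ → ℕ × ℕ) (c M : ℕ)
    (h : ∀ s ∈ A, c * (F s).card ≤ M) :
    c * (A.biUnion fun s => (F s).image (e s)).card ≤ A.card * M := by
  refine (Nat.mul_le_mul_left c card_biUnion_le).trans ?_
  rw [mul_sum]
  exact sum_le_card_nsmul _ _ _ fun s hs =>
    (Nat.mul_le_mul_left c card_image_le).trans (h s hs)

theorem sum_segments (w : ℕ → ℕ) (N L : ℕ) :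
    ∑ l ∈ range L, ∑ s ∈ Ico (l * N) (l * N + N), w s = ∑ s ∈ range (L * N), w s := by
  induction L with
  | zero => simp
  | succ L ih =>
    rw [sum_range_succ, ih, Nat.succ_mul, range_eq_Ico, range_eq_Ico,
      sum_Ico_consecutive _ (by omega) (by omega)]

namespace Par

variable {P : Par} {y : List (List (ℚ × ℚ))}

open Classical in
theorem Ctx.good (H : P.Ctx y) (h3 : ∀ φ ∈ P, ∀ c ∈ φ, c.length = 3) (hL : 2 ≤ P.L) {l : ℕ}
    (hl : l < P.L)
    (hR : P.κ * ∑ s ∈ Ico (l * P.SA) (l * P.SA + P.SA),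
      ((range P.I).filter fun i => ¬ P.HonR y (P.Q + s) i).card + 2 * P.K ≤ P.κ * P.K) :
    ∃ s < P.S, ∃ t < P.S', Sat (P.asg y s t) (P.fml l) := by
  have hκ : 4 ≤ P.κ := by unfold κ; omega
  have hC := H.countC
  have hlen := H.len
  have mA := markov (Ico (l * P.SA) (l * P.SA + P.SA))
    (fun s => ((range P.I).filter fun i => ¬ P.HonR y (P.Q + s) i).card) P.κ P.I P.I_pos
    (by simpa [K] using hR)
  have mB := markov (range P.S')
    (fun t => ((range P.J).filter fun j => ¬ P.HonC y (t + 1) j).card) P.κ P.J P.J_pos (by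
      rw [card_range, P.S'_J]
      unfold Pm at hlen
      generalize ∑ t ∈ range P.S', ((range P.J).filter fun j => ¬ P.HonC y (t + 1) j).card = W at *
      have : W ≤ 2 * (P.L * P.K) := by omega
      nlinarith only [hlen, hC, hκ])
  rw [Nat.card_Ico, Nat.add_sub_cancel_left] at mA
  rw [card_range] at mB
  set A := (Ico (l * P.SA) (l * P.SA + P.SA)).filter fun s =>
    P.κ * ((range P.I).filter fun i => ¬ P.HonR y (P.Q + s) i).card + P.I ≤ P.κ * P.I with hA
  set B := (range P.S').filter fun t =>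
    P.κ * ((range P.J).filter fun j => ¬ P.HonC y (t + 1) j).card + P.J ≤ P.κ * P.J with hB
  have cA : A.card ≤ P.SA := (card_filter_le _ _).trans (by simp)
  have cB : B.card ≤ P.S' := (card_filter_le _ _).trans (by simp)
  have eS' : P.S' = P.qA * (4 * P.L * P.qA * P.R0 ^ 2) := by unfold S' I; ring
  have eSA : P.SA = P.qB * (P.qB * P.R0 ^ 2) := by unfold SA J; ring
  have hS : l * P.SA + P.SA ≤ P.S := by
    have := Nat.mul_le_mul_right P.SA (Nat.succ_le_of_lt hl)
    rw [Nat.succ_mul] at this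
    exact this
  have b1 := card_pairs_le A (fun s => (Ico 0 (0 + P.S')).filter fun t =>
    ∃ v < P.n, ∀ i < P.I, role P.qA P.g t i = v → ¬ P.HonR y (P.Q + s) i) (fun s t => (s, t))
    (4 * P.κ ^ 2) P.S' (by
      intro s hs
      rw [eS']
      exact fiber_bound P.qA_prime (by omega) P.qA_ge _ (mem_filter.1 hs).2 _ _)
  have b2 := card_pairs_le B (fun t => (Ico (l * P.SA) (l * P.SA + P.SA)).filter fun s =>
    ∃ v < P.nB, ∀ j < P.J, role P.qB P.g s j = v → ¬ P.HonC y (t + 1) j) (fun t s => (s, t))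
    (4 * P.κ ^ 2) P.SA (by
      intro t ht
      have := fiber_bound P.qB_prime (by omega) P.qB_ge _ (mem_filter.1 ht).2 (l * P.SA)
        (P.qB * P.R0 ^ 2)
      rw [← eSA] at this
      exact this)
  have b3 := card_le_parts ((range P.S ×ˢ range P.S').filter fun z =>
    ∃ T ∈ y, ∃ d, P.Cheat T d ∧ d.a = P.Q + z.1 ∧ d.b = z.2 + 1) y P.Cheat
    (12 * P.NG + 24 * (P.R0 * P.I)) (fun d => (d.a - P.Q, d.b - 1)) (by
      intro z hz
      obtain ⟨T, hT, d, h1, h2, h3⟩ := (mem_filter.1 hz).2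
      exact ⟨T, hT, d, h1, Prod.ext (by simp [h2]) (by simp [h3])⟩)
    (fun T hT U hU => cheat_card (H.conv T hT) U hU)
  obtain ⟨s, hs, t, ht, n1, n2, n3⟩ := exists_good_pair A B _ _ _ P.κ P.SA P.S' mA mB
    (b1.trans (Nat.mul_le_mul_right _ cA))
    (b2.trans ((Nat.mul_le_mul_right _ cB).trans (le_of_eq (Nat.mul_comm _ _))))
    (lt_of_le_of_lt (Nat.mul_le_mul_left _ (b3.trans ((Nat.mul_le_mul_left _ hlen).trans
      (le_of_eq (Nat.mul_comm _ _))))) (P.cheat_lt (by omega)))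
  have hs1 := mem_Ico.1 (mem_filter.1 hs).1
  have ht1 := mem_range.1 (mem_filter.1 ht).1
  have hsl : s / P.SA = l := by
    rw [Nat.div_eq_iff P.SA_pos]; omega
  refine ⟨s, by omega, t, ht1, ?_⟩
  rw [← hsl]
  refine H.decode h3 (by omega) ht1 ?_ ?_ ?_
  · intro v hv
    by_contra hc
    refine n1 (mem_biUnion.2 ⟨s, hs, mem_image.2 ⟨t, mem_filter.2 ⟨by simpa using ht1, v, hv, ?_⟩,
      rfl⟩⟩)
    exact fun i hi h1 h2 => hc ⟨i, hi, h1, h2⟩
  · intro v hv
    by_contra hc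
    refine n2 (mem_biUnion.2 ⟨t, ht, mem_image.2 ⟨s, mem_filter.2 ⟨mem_Ico.2 hs1, v, hv, ?_⟩,
      rfl⟩⟩)
    exact fun i hi h1 h2 => hc ⟨i, hi, h1, h2⟩
  · intro T hT d hd h1 h2
    exact n3 (mem_filter.2 ⟨by simp; omega, T, hT, d, hd, h1, h2⟩)

open Classical in
theorem Ctx.unsolved (H : P.Ctx y) (h3 : ∀ φ ∈ P, ∀ c ∈ φ, c.length = 3) (hL : 2 ≤ P.L) {u : ℕ}
    (hy : y.length ≤ 5 * (P.L * P.K) + (u + 1) * P.K) :
    ((range P.L).filter fun l => ¬ ∃ s < P.S, ∃ t < P.S', Sat (P.asg y s t) (P.fml l)).card ≤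
      u + 2 := by
  have h1 := H.countR
  rw [S, ← sum_segments] at h1
  set V := (range P.L).filter fun l => ¬ ∃ s < P.S, ∃ t < P.S', Sat (P.asg y s t) (P.fml l)
  have h2 : V.card * (P.κ * P.K) ≤ ∑ l ∈ V, (P.κ * ∑ s ∈ Ico (l * P.SA) (l * P.SA + P.SA),
      ((range P.I).filter fun i => ¬ P.HonR y (P.Q + s) i).card + 2 * P.K) := by
    refine card_nsmul_le_sum _ _ _ fun l hl => ?_
    by_contra hc
    exact (mem_filter.1 hl).2 (H.good h3 hL (mem_range.1 (mem_filter.1 hl).1) (by omega))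
  rw [sum_add_distrib, ← mul_sum, sum_const, smul_eq_mul] at h2
  have h4 := sum_le_sum_of_subset (f := fun l => ∑ s ∈ Ico (l * P.SA) (l * P.SA + P.SA),
      ((range P.I).filter fun i => ¬ P.HonR y (P.Q + s) i).card) (filter_subset _ _ : V ⊆ range P.L)
  have h5 : V.card ≤ P.L := (card_filter_le _ _).trans (by simp)
  generalize ∑ l ∈ V, ∑ s ∈ Ico (l * P.SA) (l * P.SA + P.SA),
      ((range P.I).filter fun i => ¬ P.HonR y (P.Q + s) i).card = W at *
  have h6 : W ≤ (u + 1) * P.K := by omega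
  have h7 := Nat.mul_le_mul_left P.κ h6
  have h8 : V.card * (2 * P.K) ≤ P.κ * P.K := by
    unfold κ; nlinarith only [h5]
  refine Nat.le_of_mul_le_mul_right ?_ (Nat.mul_pos (show 0 < P.κ by unfold κ; omega) P.K_pos)
  linarith only [h2, h7, h8]

end Par

end Pool.Agent.Work.MP_32aa60_lc
end

-- merged part: Pool.Agent.Work.MP_32aa60_lc.H39Compl
section
/-!
Completeness: the partition built from satisfying assignments, and the gap theorem.
-/

namespace Pool.Agent.Work.MP_32aa60_lc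

open Finset

namespace Par

variable {P : Par}

def allD (P : Par) : List Desc :=
  (List.range (P.Q + P.S)).flatMap fun a => (List.range P.I).flatMap fun i =>
    (List.range (P.S' + 2)).flatMap fun b => (List.range P.Q).flatMap fun j =>
      (List.range 3).map fun k => ⟨a, i, b, j, k⟩

open Classical in
noncomputable def descs (P : Par) : List Desc := P.allD.filter fun d => decide (P.Valid d)

/-- The configuration. -/
noncomputable def cfg (P : Par) : List (ℚ × ℚ) := ded (P.descs.map P.pt)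

theorem mem_descs {d : Desc} : d ∈ P.descs ↔ P.Valid d := by
  simp only [descs, List.mem_filter, decide_eq_true_eq, and_iff_right_iff_imp]
  intro h
  obtain ⟨h1, h2, h3, h4, h5⟩ := h.bounds
  simp only [allD, List.mem_flatMap, List.mem_map, List.mem_range]
  exact ⟨d.a, h1, d.i, h2, d.b, by omega, d.j, h4, d.k, h5, rfl⟩

theorem mem_cfg {p : ℚ × ℚ} : p ∈ P.cfg ↔ ∃ d, P.Valid d ∧ P.pt d = p := by
  simp only [cfg, mem_ded, List.mem_map, mem_descs]

theorem row_fun {d e : Desc} (hd : P.Valid d) (he : P.Valid e) (ha : e.a = d.a) (hi : e.i = d.i)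
    (h : d.b ≠ e.b ∨ (P.X d ≠ P.X e ∧ (P.Low d ↔ P.Low e))) :
    (-2 * P.X d : ℚ) * (P.pt d).1 + ((P.E : ℚ) ^ 2 + 4 * P.X d * P.c d.a) * (P.pt d).2 <
      (-2 * P.X d : ℚ) * (P.pt e).1 + ((P.E : ℚ) ^ 2 + 4 * P.X d * P.c d.a) * (P.pt e).2 := by
  have key : (P.h d : ℤ) < P.h e + ((P.X e : ℤ) - P.X d) ^ 2 := by
    rcases h with h | ⟨h1, h2⟩
    · have a1 := hd.h_le
      have a2 := P.d0_lt
      have a3 : (P.G1 : ℤ) ^ 2 ≤ ((P.X e : ℤ) - P.X d) ^ 2 := by
        rw [sq_le_sq, abs_of_nonneg (Int.natCast_nonneg _), le_abs]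
        rcases lt_or_gt_of_ne h with h | h
        · have := X_lt hd h; omega
        · have := X_lt he h; omega
      have a4 : (P.d0 : ℤ) + 2 < (P.G1 : ℤ) ^ 2 := by exact_mod_cast a2
      omega
    · have a1 := h_close hd h2
      have a2 := X_even (P := P) d
      have a3 := X_even (P := P) e
      have a4 : (2 : ℤ) ^ 2 ≤ ((P.X e : ℤ) - P.X d) ^ 2 := by
        rw [sq_le_sq, abs_of_nonneg (by norm_num), le_abs]
        omega
      omega
  have key' : (P.h d : ℚ) < P.h e + ((P.X e : ℚ) - P.X d) ^ 2 := by exact_mod_cast key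
  have hE : (0 : ℚ) < (P.E : ℚ) ^ 2 := by
    have : 0 < P.E := Nat.succ_pos _
    exact pow_pos (Nat.cast_pos.2 this) 2
  have := mul_lt_mul_of_pos_left key' hE
  simp only [pt, xN, yN, Y, C, ha, hi]
  push_cast
  linarith only [this]

theorem col_same {d e : Desc} (ha : e.a = d.a) (hx : P.X e = P.X d) (s : ℚ)
    (h : s * P.u e < s * P.u d) :
    (1 : ℚ) * (P.pt d).1 + -(2 * P.c d.a + s) * (P.pt d).2 <
      1 * (P.pt e).1 + -(2 * P.c d.a + s) * (P.pt e).2 := by
  simp only [pt, xN_eq, yN_eq, ha, hx]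
  push_cast
  linarith only [h]

theorem col_core2 {D I i i' s : ℤ} (hs : s = 1 ∨ s = -1) (hi : 0 ≤ i ∧ i < I) (hi' : 0 ≤ i' ∧ i' < I)
    (hD : 2 * I + 2 ≤ D ∨ D ≤ -(2 * I + 2)) : 1 ≤ D ^ 2 + 2 * D * i' - s * (D + i' - i) := by
  rcases hs with rfl | rfl <;> rcases hD with h | h <;> linarith only [hi, hi', h, mul_nonneg_of_nonpos_of_nonpos (Mathlib.Tactic.Linarith.sub_nonpos_of_le hi.left) (Mathlib.Tactic.Linarith.sub_nonpos_of_le hi.left), mul_nonneg_of_nonpos_of_nonpos (Mathlib.Tactic.Linarith.sub_nonpos_of_le hi.left) (Mathlib.Tactic.Linarith.sub_nonpos_of_le (Int.add_one_le_iff.mpr hi.right)), mul_nonneg_of_nonpos_of_nonpos (Mathlib.Tactic.Linarith.sub_nonpos_of_le hi.left) (Mathlib.Tactic.Linarith.sub_nonpos_of_le hi'.left), mul_nonneg_of_nonpos_of_nonpos (Mathlib.Tactic.Linarith.sub_nonpos_of_le hi.left) (Mathlib.Tactic.Linarith.sub_nonpos_of_le h), mul_nonneg_of_nonpos_of_nonpos (Mathlib.Tactic.Linarith.sub_nonpos_of_le (Int.add_one_le_iff.mpr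 hi.right)) (Mathlib.Tactic.Linarith.sub_nonpos_of_le (Int.add_one_le_iff.mpr hi.right)), mul_nonneg_of_nonpos_of_nonpos (Mathlib.Tactic.Linarith.sub_nonpos_of_le (Int.add_one_le_iff.mpr hi.right)) (Mathlib.Tactic.Linarith.sub_nonpos_of_le hi'.left), mul_nonneg_of_nonpos_of_nonpos (Mathlib.Tactic.Linarith.sub_nonpos_of_le (Int.add_one_le_iff.mpr hi.right)) (Mathlib.Tactic.Linarith.sub_nonpos_of_le h), mul_nonneg_of_nonpos_of_nonpos (Mathlib.Tactic.Linarith.sub_nonpos_of_le hi'.left) (Mathlib.Tactic.Linarith.sub_nonpos_of_le h), mul_nonneg_of_nonpos_of_nonpos (Mathlib.Tactic.Linarith.sub_nonpos_of_le h) (Mathlib.Tactic.Linarith.sub_nonpos_of_le h), mul_nonneg_of_nonpos_of_nonpos (Mathlib.Tactic.Linarith.sub_nonpos_of_le hi.left) (Mathlib.Tactic.Linarith.sub_nonpos_of_le (Int.add_one_le_iff.mpr hi'.right)), mul_nonneg_of_nonpos_of_nonpos (Mathlib.Tactic.Linarith.sub_nonpos_of_le (Int.add_one_le_iff.mpr hi.right)) (Mathlib.Tactic.Linarith.sub_nonpos_of_le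 (Int.add_one_le_iff.mpr hi'.right)), mul_nonneg_of_nonpos_of_nonpos (Mathlib.Tactic.Linarith.sub_nonpos_of_le (Int.add_one_le_iff.mpr hi'.right)) (Mathlib.Tactic.Linarith.sub_nonpos_of_le h), sq_nonneg D]

theorem col_diff {d e : Desc} (hd : P.Valid d) (he : P.Valid e) (ha : e.a ≠ d.a)
    (hx : P.X e = P.X d) (s : ℤ) (hs : s = 1 ∨ s = -1) :
    (1 : ℚ) * (P.pt d).1 + -(2 * P.c d.a + s) * (P.pt d).2 <
      1 * (P.pt e).1 + -(2 * P.c d.a + s) * (P.pt e).2 := by
  have b1 := hd.bounds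
  have b2 := he.bounds
  have hΔ : P.Δ = 2 * P.I + 2 := rfl
  have k1 := col_core2 (D := (P.c e.a : ℤ) - P.c d.a) (I := P.I) (i := d.i) (i' := e.i) hs
    (by omega) (by omega) (by
      rcases lt_or_gt_of_ne ha with h | h
      · have := c_lt (P := P) h; omega
      · have := c_lt (P := P) h; omega)
  obtain ⟨-, -, -, y1, c1⟩ := hd.nat_bd
  obtain ⟨-, -, -, y2, c2⟩ := he.nat_bd
  have hE := E_gt (P := P)
  have z1 : (P.c d.a : ℤ) ≤ P.Z := by unfold Y at y1; omega
  have z2 : (0 : ℤ) ≤ P.c e.a := Int.natCast_nonneg _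
  have z3 : (P.C d : ℤ) ≤ P.Z := by omega
  have z4 : (P.C e : ℤ) ≤ P.Z := by omega
  have z5 : (0 : ℤ) ≤ P.C d := Int.natCast_nonneg _
  have z6 : (0 : ℤ) ≤ P.C e := Int.natCast_nonneg _
  have z7 : (P.Z : ℤ) ≤ (P.Z : ℤ) ^ 2 := Int.le_self_sq _
  have k2 : -(3 * (P.Z : ℤ) ^ 2) ≤ 2 * ((P.c e.a : ℤ) - P.c d.a) * P.C e - s * (P.C e - P.C d) := by
    have : -((P.Z : ℤ) ^ 2) ≤ ((P.c e.a : ℤ) - P.c d.a) * P.C e := by nlinarith only [c2, z1]
    rcases hs with rfl | rfl <;> linarith only [c2, z7, this, c1]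
  have k3 : (P.E : ℤ) ≤ P.E * (((P.c e.a : ℤ) - P.c d.a) ^ 2 + 2 * ((P.c e.a : ℤ) - P.c d.a) * e.i -
    s * ((P.c e.a : ℤ) - P.c d.a + e.i - d.i)) := le_mul_of_one_le_right (Int.natCast_nonneg _) k1
  have k4 : (P.xN d : ℤ) + -(2 * P.c d.a + s) * P.yN d < P.xN e + -(2 * P.c d.a + s) * P.yN e := by
    simp only [xN, yN, Y, hx]
    push_cast
    linarith only [hE, z7, k2, k3, sq_nonneg (P.Z : ℤ)]
  simp only [pt, one_mul]
  exact_mod_cast k4

theorem Opt.role_eq {d : Desc} (h : P.Opt d) :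
    role P.qA P.g (d.b - 1) d.i = (P.lit (d.a - P.Q) d.j d.k).1 := by
  obtain ⟨-, -, -, -, -, hk, ⟨-, h0, h1, h2⟩, hi⟩ := h
  rw [hi]
  have : d.k = 0 ∨ d.k = 1 ∨ d.k = 2 := by omega
  rcases this with e | e | e <;> rw [e] <;> assumption

open Classical in
theorem CP_cfg_le (h3 : ∀ φ ∈ P, ∀ c ∈ φ, c.length = 3) :
    CP P.cfg ≤ 5 * (P.L * P.K) +
      ((range P.L).filter fun l => ¬ ∃ A, Sat A (P.fml l)).card * P.K := by
  have hA : ∀ l, ∃ A, (∃ A, Sat A (P.fml l)) → Sat A (P.fml l) := fun l => by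
    by_cases h : ∃ A, Sat A (P.fml l)
    · obtain ⟨A, h⟩ := h; exact ⟨A, fun _ => h⟩
    · exact ⟨fun _ => false, fun h' => absurd h' h⟩
  choose A hA using hA
  have hsel : ∀ s j, ∃ k < 3, (∃ A, Sat A (P.fml (s / P.SA))) →
      P.cl s j < (P.fml (s / P.SA)).length → A (s / P.SA) (P.lit s j k).1 = (P.lit s j k).2 := by
    intro s j
    by_cases h : (∃ A, Sat A (P.fml (s / P.SA))) ∧ P.cl s j < (P.fml (s / P.SA)).length
    · have hc := List.getElem_mem h.2
      obtain ⟨l, hl, e⟩ := hA _ h.1 _ hc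
      obtain ⟨k, hk, rfl⟩ := List.getElem_of_mem hl
      refine ⟨k, by rwa [h3 _ (fml_mem hc) _ hc] at hk, fun _ _ => ?_⟩
      unfold lit
      rw [List.getD_eq_getElem _ _ h.2, List.getD_eq_getElem _ _ hk]
      exact e
    · exact ⟨0, by omega, fun h1 h2 => absurd ⟨h1, h2⟩ h⟩
  choose sel hs3 hsel using hsel
  let sat : Desc → Prop := fun d => ∃ A, Sat A (P.fml ((d.a - P.Q) / P.SA))
  let cD : (ℕ × ℕ) ⊕ (ℕ × ℕ) ⊕ (ℕ × ℕ) → Desc → Prop
    | .inl z, d => d.a = P.Q + z.1 ∧ d.i = z.2 ∧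
        (P.RM d ∨ (P.Opt d ∧ d.k = sel (d.a - P.Q) d.j ∧ (sat d ∨ ¬ P.Low d)))
    | .inr (.inl z), d => d.b = z.1 + 1 ∧ d.j = z.2 ∧
        (P.CM d ∨ (P.Opt d ∧ d.k ≠ sel (d.a - P.Q) d.j))
    | .inr (.inr z), d => d.a = P.Q + z.1 ∧ d.i = z.2 ∧
        P.Opt d ∧ d.k = sel (d.a - P.Q) d.j ∧ P.Low d
  have rowX : ∀ d e : Desc, P.Opt d → P.Opt e → e.a = d.a → e.i = d.i → d.b = e.b →
      d.k = sel (d.a - P.Q) d.j → e.k = sel (e.a - P.Q) e.j → P.pt e ≠ P.pt d →
      P.X d ≠ P.X e := by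
    intro d e od oe ha hi hb kd ke hne hx
    have := X_inj (Or.inr (Or.inr od)) (Or.inr (Or.inr oe)) hx
    exact hne (congrArg _ (Desc.ext' ha hi hb.symm this.2.symm (by rw [kd, ke, ha, this.2])))
  refine (CP_le P.cfg ((range P.S ×ˢ range P.I).disjSum ((range P.S' ×ˢ range P.J).disjSum
    (((range P.S).filter fun s => ¬ ∃ A, Sat A (P.fml (s / P.SA))) ×ˢ range P.I)))
    (fun c p => ∃ d, P.pt d = p ∧ cD c d) ?_ ?_).trans ?_
  · intro p hp
    obtain ⟨d, hd, rfl⟩ := mem_cfg.1 hp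
    have hb := hd.bounds
    rcases hd with h | h | h
    · have := h.1
      exact ⟨.inl (d.a - P.Q, d.i), by simp; omega, d, rfl, by simp; omega, rfl, Or.inl h⟩
    · have := h.2.2
      exact ⟨.inr (.inl (d.b - 1, d.j)), by simp; omega, d, rfl, by simp; omega, rfl, Or.inl h⟩
    · have h1 := h.1
      have h2 := h.2.2.1
      have h4 := h.2.2.2.1
      have h5 := h.2.2.2.2.1
      by_cases hk : d.k = sel (d.a - P.Q) d.j
      · by_cases hs : sat d ∨ ¬ P.Low d
        · exact ⟨.inl (d.a - P.Q, d.i), by simp; omega, d, rfl, by simp; omega, rfl,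
            Or.inr ⟨h, hk, hs⟩⟩
        · rw [not_or, not_not] at hs
          refine ⟨.inr (.inr (d.a - P.Q, d.i)), ?_, d, rfl, by simp; omega, rfl, h, hk, hs.2⟩
          simp only [inr_mem_disjSum, mem_product, mem_filter, mem_range]
          exact ⟨⟨by omega, hs.1⟩, hb.2.1⟩
      · exact ⟨.inr (.inl (d.b - 1, d.j)), by simp; omega, d, rfl, by simp; omega, rfl,
          Or.inr ⟨h, hk⟩⟩
  · rintro (z | z | z) - p ⟨d, rfl, hd⟩
    · obtain ⟨a1, i1, hd⟩ := hd
      refine ⟨-2 * P.X d, (P.E : ℚ) ^ 2 + 4 * P.X d * P.c d.a, ?_⟩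
      rintro q ⟨e, rfl, a2, i2, he⟩ hne
      have ha : e.a = d.a := a2.trans a1.symm
      have hi : e.i = d.i := i2.trans i1.symm
      refine row_fun (hd.elim Or.inl fun h => Or.inr (Or.inr h.1))
        (he.elim Or.inl fun h => Or.inr (Or.inr h.1)) ha hi ?_
      by_cases hb : d.b = e.b
      swap
      · exact Or.inl hb
      right
      rcases hd with hd | ⟨od, kd, sd⟩ <;> rcases he with he | ⟨oe, ke, se⟩
      · refine ⟨fun hx => hne (congrArg _ (Desc.ext' ha hi hb.symm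
          (X_inj (Or.inl hd) (Or.inl he) hx).2.symm (he.2.2.2.2.2.trans hd.2.2.2.2.2.symm))), ?_⟩
        unfold RM at hd he
        unfold Low
        omega
      · unfold RM at hd; unfold Opt at oe; omega
      · unfold RM at he; unfold Opt at od; omega
      · refine ⟨rowX d e od oe ha hi hb kd ke hne, ?_⟩
        by_cases hs : sat d
        · have e1 := hsel _ d.j hs od.2.2.2.2.2.2.1.1
          have e2 := hsel _ e.j (show sat e by simpa only [sat, ha] using hs) oe.2.2.2.2.2.2.1.1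
          rw [← kd, ← od.role_eq] at e1
          rw [← ke, ← oe.role_eq, ha, hi, ← hb, e1] at e2
          unfold Low
          rw [ha, ← hb, e2]
        · have hs' : ¬ sat e := by simpa only [sat, ha] using hs
          exact iff_of_false (sd.resolve_left hs) (se.resolve_left hs')
    · obtain ⟨b1, j1, hd⟩ := hd
      have vd : P.Valid d := Or.inr (hd.elim Or.inl fun h => Or.inr h.1)
      have hs : ∃ s : ℤ, (s = 1 ∨ s = -1) ∧ ∀ e, cD (.inr (.inl z)) e → e.a = d.a →
          P.pt e ≠ P.pt d → (s : ℚ) * P.u e < s * P.u d := by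
        have val : ∀ e, cD (.inr (.inl z)) e → P.Valid e := fun e he =>
          Or.inr (he.2.2.elim Or.inl fun h => Or.inr h.1)
        have bd : 1 ≤ d.b ∧ d.b ≤ P.S' := by
          rcases hd with h | ⟨h, -⟩
          · exact ⟨h.2.2.1, h.2.2.2.1⟩
          · exact ⟨h.2.2.1, h.2.2.2.1⟩
        have kne : ∀ e, cD (.inr (.inl z)) e → e.a = d.a → P.pt e ≠ P.pt d → e.k ≠ d.k := by
          intro e he ha hne hk
          have hb := he.1.trans b1.symm
          have hj := he.2.1.trans j1.symm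
          exact hne (congrArg _ (Desc.ext' ha
            (i_eq vd (val e he) bd.1 bd.2 ha.symm hb.symm hj.symm hk.symm).symm hb hj hk))
        have uniq : ∀ e e', cD (.inr (.inl z)) e → cD (.inr (.inl z)) e' → e.a = d.a →
            e'.a = d.a → e.k ≠ d.k → e'.k ≠ d.k → e = e' := by
          intro e e' he he' ha ha' k1 k2
          have hb := he.1.trans he'.1.symm
          have hj := he.2.1.trans he'.2.1.symm
          have hk : e.k = e'.k := by
            have s3 := hs3 (d.a - P.Q) z.2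
            have t1 := vd.bounds
            have t2 := (val e he).bounds
            have t3 := (val e' he').bounds
            obtain ⟨-, j2, he⟩ := he
            obtain ⟨-, j3, he'⟩ := he'
            rw [j1] at hd
            rw [j2, ha] at he
            rw [j3, ha'] at he'
            unfold CM Opt at hd he he'
            omega
          exact Desc.ext' (by omega) (i_eq (val e he) (val e' he') (by rw [he.1]; omega)
            (by rw [he.1, ← b1]; omega) (by omega) hb hj hk) hb hj hk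
        by_cases hex : ∃ e, cD (.inr (.inl z)) e ∧ e.a = d.a ∧ e.k ≠ d.k ∧ P.u d < P.u e
        · obtain ⟨e, he, ha, hk, hu⟩ := hex
          refine ⟨-1, Or.inr rfl, fun e' he' ha' hne => ?_⟩
          rw [← uniq e e' he he' ha ha' hk (kne e' he' ha' hne)]
          have : (P.u d : ℚ) < P.u e := by exact_mod_cast hu
          push_cast
          linarith only [this]
        · refine ⟨1, Or.inl rfl, fun e he ha hne => ?_⟩
          have hk := kne e he ha hne
          have h1 := u_ne (val e he) vd (by unfold X; rw [he.1, he.2.1, b1, j1]) hk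
          have h2 : ¬ P.u d < P.u e := fun h => hex ⟨e, he, ha, hk, h⟩
          have : (P.u e : ℚ) < P.u d := by exact_mod_cast (by omega : P.u e < P.u d)
          push_cast
          linarith only [this]
      obtain ⟨s, hs1, hs2⟩ := hs
      refine ⟨1, -(2 * P.c d.a + s), ?_⟩
      rintro q ⟨e, rfl, he⟩ hne
      have hx : P.X e = P.X d := by unfold X; rw [he.1, he.2.1, b1, j1]
      by_cases ha : e.a = d.a
      · exact col_same ha hx s (hs2 e he ha hne)
      · exact col_diff vd (Or.inr (he.2.2.elim Or.inl fun h => Or.inr h.1)) ha hx s hs1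
    · obtain ⟨a1, i1, od, kd, ld⟩ := hd
      refine ⟨-2 * P.X d, (P.E : ℚ) ^ 2 + 4 * P.X d * P.c d.a, ?_⟩
      rintro q ⟨e, rfl, a2, i2, oe, ke, le⟩ hne
      have ha : e.a = d.a := a2.trans a1.symm
      have hi : e.i = d.i := i2.trans i1.symm
      refine row_fun (Or.inr (Or.inr od)) (Or.inr (Or.inr oe)) ha hi ?_
      by_cases hb : d.b = e.b
      · exact Or.inr ⟨rowX d e od oe ha hi hb kd ke hne, iff_of_true ld le⟩
      · exact Or.inl hb
  · have h1 := card_le_mul_card_image_of_maps_to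
      (s := (range P.S).filter fun s => ¬ ∃ A, Sat A (P.fml (s / P.SA)))
      (t := (range P.L).filter fun l => ¬ ∃ A, Sat A (P.fml l)) (f := fun s => s / P.SA) (by
        intro s hs
        simp only [mem_filter, mem_range] at hs ⊢
        exact ⟨Nat.div_lt_of_lt_mul (by rw [Nat.mul_comm]; exact hs.1), hs.2⟩) P.SA (by
        intro l _
        refine (card_le_card (t := Ico (l * P.SA) (l * P.SA + P.SA)) fun s hs => ?_).trans (by simp)
        have := (mem_filter.1 hs).2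
        rw [Nat.div_eq_iff P.SA_pos] at this
        have := P.SA_pos
        rw [mem_Ico]
        omega)
    simp only [card_disjSum, card_product, card_range, P.S_I, P.S'_J]
    have h2 := Nat.mul_le_mul_right P.I h1
    have h4 : ∀ u, P.SA * u * P.I = u * P.K := fun u => by unfold K; ring
    rw [h4] at h2
    omega

open Classical in
/-- The gap theorem. -/
theorem gap (h3 : ∀ φ ∈ P, ∀ c ∈ φ, c.length = 3) (hL : 2 ≤ P.L) {y : List (List (ℚ × ℚ))}
    (hy : IsPartition P.cfg y) (hlen : 6 * P.L * y.length ≤ (6 * P.L + 1) * CP P.cfg) :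
    ((range P.L).filter fun l => ¬ ∃ s < P.S, ∃ t < P.S', Sat (P.asg y s t) (P.fml l)).card ≤
      ((range P.L).filter fun l => ¬ ∃ A, Sat A (P.fml l)).card + 2 := by
  have h1 := CP_cfg_le h3
  have h2 : ((range P.L).filter fun l => ¬ ∃ A, Sat A (P.fml l)).card ≤ P.L :=
    (card_filter_le _ _).trans (by simp)
  generalize ((range P.L).filter fun l => ¬ ∃ A, Sat A (P.fml l)).card = u at *
  have h4 := Nat.mul_le_mul_right P.K h2
  have h5 : y.length ≤ 5 * (P.L * P.K) + (u + 1) * P.K := by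
    refine Nat.le_of_mul_le_mul_left (hlen.trans ((Nat.mul_le_mul_left _ h1).trans ?_))
      (show 0 < 6 * P.L by omega)
    have : P.L * P.K ≤ P.L * P.K := le_rfl
    linarith only [h4]
  refine Ctx.unsolved ⟨hy.2.2, fun d hd => (hy.2.1 _).1 (mem_cfg.2 ⟨d, hd, rfl⟩), ?_⟩ h3 hL h5
  have h6 := Nat.mul_le_mul_right P.K (show 1 ≤ P.L by omega)
  unfold Pm
  rw [Nat.add_mul] at h5
  omega

theorem cfg_ne_nil (hL : 1 ≤ P.L) : P.cfg ≠ [] := by
  have h1 : 0 < P.S := Nat.mul_pos hL P.SA_pos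
  have h2 := P.J_lt_Q
  have : P.Valid ⟨P.Q, 0, 0, 0, 0⟩ :=
    Or.inl ⟨le_rfl, by simpa using h1, P.I_pos, Or.inl rfl, by simp; omega, rfl⟩
  exact List.ne_nil_of_mem (mem_cfg.2 ⟨_, this, rfl⟩)

end Par

end Pool.Agent.Work.MP_32aa60_lc
end

-- merged part: Pool.Agent.Work.MP_32aa60_lc.H39PT
section
/-!
The configuration and the assignments are computable in polynomial time.
-/

namespace Pool.Agent.Work.MP_32aa60_lc

open Pool.Agent.Lib.Poly

instance : Enc Desc := ⟨fun d => enc (d.a, d.i, d.b, d.j, d.k), fun d e h => by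
  have := Enc.inj h
  simp only [Prod.mk.injEq] at this
  exact Desc.ext' this.1 this.2.1 this.2.2.1 this.2.2.2.1 this.2.2.2.2⟩

theorem pt_tup : PT fun d : Desc => (d.a, d.i, d.b, d.j, d.k) := PT.cast fun _ => rfl

section
variable {α : Type} [Enc α]

@[fun_prop] theorem pt_da {f : α → Desc} (hf : PT f) : PT fun x => (f x).a :=
  (pt_tup.comp hf).fst
@[fun_prop] theorem pt_di {f : α → Desc} (hf : PT f) : PT fun x => (f x).i :=
  (pt_tup.comp hf).snd.fst
@[fun_prop] theorem pt_db {f : α → Desc} (hf : PT f) : PT fun x => (f x).b :=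
  (pt_tup.comp hf).snd.snd.fst
@[fun_prop] theorem pt_dj {f : α → Desc} (hf : PT f) : PT fun x => (f x).j :=
  (pt_tup.comp hf).snd.snd.snd.fst
@[fun_prop] theorem pt_dk {f : α → Desc} (hf : PT f) : PT fun x => (f x).k :=
  (pt_tup.comp hf).snd.snd.snd.snd

@[fun_prop] theorem pt_dmk {a i b j k : α → ℕ} (ha : PT a) (hi : PT i) (hb : PT b) (hj : PT j)
    (hk : PT k) : PT fun x => Desc.mk (a x) (i x) (b x) (j x) (k x) :=
  (PT.mk ha (PT.mk hi (PT.mk hb (PT.mk hj hk)))).of_enc (fun x => x) (fun _ => rfl) fun _ => rfl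

@[fun_prop] theorem pt_role {q g t i : α → ℕ} (hq : PT q) (hg : PT g) (ht : PT t) (hi : PT i) :
    PT fun x => role (q x) (g x) (t x) (i x) := by
  unfold role lin; fun_prop

@[fun_prop] theorem pt_diff {p q : α → Prop} [∀ x, Decidable (p x)] [∀ x, Decidable (q x)]
    [∀ x, Decidable (p x ↔ q x)] (hp : PT fun x => decide (p x))
    (hq : PT fun x => decide (q x)) : PT fun x => decide (p x ↔ q x) :=
  (hp.xor hq).not.of_eq fun a => by by_cases h : p a <;> by_cases h' : q a <;> simp [h, h']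

end

namespace Par

@[fun_prop] theorem pt_L : PT L := by unfold L; fun_prop
@[fun_prop] theorem pt_κ : PT κ := by unfold κ; fun_prop
@[fun_prop] theorem pt_n : PT n := by unfold n; fun_prop
@[fun_prop] theorem pt_g : PT g := by unfold g; fun_prop
@[fun_prop] theorem pt_qA : PT qA := by unfold qA; fun_prop
@[fun_prop] theorem pt_I : PT I := by unfold I; fun_prop
@[fun_prop] theorem pt_nB : PT nB := by unfold nB; fun_prop
@[fun_prop] theorem pt_qB : PT qB := by unfold qB; fun_prop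
@[fun_prop] theorem pt_J : PT J := by unfold J; fun_prop
@[fun_prop] theorem pt_R0 : PT R0 := by unfold R0; fun_prop
@[fun_prop] theorem pt_SA : PT SA := by unfold SA; fun_prop
@[fun_prop] theorem pt_S : PT S := by unfold S; fun_prop
@[fun_prop] theorem pt_S' : PT S' := by unfold S'; fun_prop
@[fun_prop] theorem pt_K : PT K := by unfold K; fun_prop
@[fun_prop] theorem pt_Pm : PT Pm := by unfold Pm; fun_prop
@[fun_prop] theorem pt_Q : PT Q := by unfold Q; fun_prop
@[fun_prop] theorem pt_G1 : PT G1 := by unfold G1; fun_prop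
@[fun_prop] theorem pt_Γ : PT Γ := by unfold Γ; fun_prop
@[fun_prop] theorem pt_Xm : PT Xm := by unfold Xm; fun_prop
@[fun_prop] theorem pt_d0 : PT d0 := by unfold d0; fun_prop
@[fun_prop] theorem pt_Δ : PT Δ := by unfold Δ; fun_prop
@[fun_prop] theorem pt_H : PT H := by unfold H; fun_prop
@[fun_prop] theorem pt_m : PT m := by unfold m; fun_prop
@[fun_prop] theorem pt_Z : PT Z := by unfold Z; fun_prop
@[fun_prop] theorem pt_E : PT E := by unfold E; fun_prop

attribute [local irreducible] L κ n g qA I nB qB J R0 SA S S' K Pm NG Q G1 Γ Xm d0 Δ H m Z E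

variable {α : Type} [Enc α] {P : α → Par} {s t j k a i b : α → ℕ} {d : α → Desc}
  {T : α → List (ℚ × ℚ)} {y : α → List (List (ℚ × ℚ))}

@[fun_prop] theorem pt_fml (hP : PT P) (hs : PT s) : PT fun x => (P x).fml (s x) := by
  unfold fml; fun_prop
@[fun_prop] theorem pt_rho (hP : PT P) (hs : PT s) (hj : PT j) :
    PT fun x => (P x).rho (s x) (j x) := by
  unfold rho; fun_prop
@[fun_prop] theorem pt_cl (hP : PT P) (hs : PT s) (hj : PT j) :
    PT fun x => (P x).cl (s x) (j x) := by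
  unfold cl; fun_prop
@[fun_prop] theorem pt_tgt (hP : PT P) (hs : PT s) (hj : PT j) (hk : PT k) :
    PT fun x => (P x).tgt (s x) (j x) (k x) := by
  unfold tgt; fun_prop
@[fun_prop] theorem pt_lit (hP : PT P) (hs : PT s) (hj : PT j) (hk : PT k) :
    PT fun x => (P x).lit (s x) (j x) (k x) := by
  unfold lit; fun_prop

theorem pt_dec {p q : α → Prop} {_ : ∀ x, Decidable (p x)} {_ : ∀ x, Decidable (q x)}
    (hp : PT fun x => decide (p x)) (h : ∀ x, p x ↔ q x) : PT fun x => decide (q x) :=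
  hp.of_eq fun x => decide_eq_decide.2 (h x)

@[fun_prop] theorem pt_Act [∀ x, Decidable ((P x).Act (s x) (t x) (j x))] (hP : PT P) (hs : PT s)
    (ht : PT t) (hj : PT j) : PT fun x => decide ((P x).Act (s x) (t x) (j x)) := by
  unfold Act at *; fun_prop

@[fun_prop] theorem pt_RM [∀ x, Decidable ((P x).RM (d x))] (hP : PT P) (hd : PT d) :
    PT fun x => decide ((P x).RM (d x)) := by
  unfold RM at *; fun_prop

@[fun_prop] theorem pt_CM [∀ x, Decidable ((P x).CM (d x))] (hP : PT P) (hd : PT d) :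
    PT fun x => decide ((P x).CM (d x)) := by
  unfold CM at *; fun_prop

@[fun_prop] theorem pt_Opt [∀ x, Decidable ((P x).Opt (d x))] (hP : PT P) (hd : PT d) :
    PT fun x => decide ((P x).Opt (d x)) := by
  classical
  unfold Opt at *; fun_prop

@[fun_prop] theorem pt_Valid [∀ x, Decidable ((P x).Valid (d x))] (hP : PT P) (hd : PT d) :
    PT fun x => decide ((P x).Valid (d x)) := by
  classical
  unfold Valid at *; fun_prop

@[fun_prop] theorem pt_Low [∀ x, Decidable ((P x).Low (d x))] (hP : PT P) (hd : PT d) :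
    PT fun x => decide ((P x).Low (d x)) := by
  unfold Low at *; fun_prop

@[fun_prop] theorem pt_h (hP : PT P) (hd : PT d) : PT fun x => (P x).h (d x) := by
  unfold h; fun_prop
@[fun_prop] theorem pt_X (hP : PT P) (hd : PT d) : PT fun x => (P x).X (d x) := by
  unfold X; fun_prop
@[fun_prop] theorem pt_c (hP : PT P) (ha : PT a) : PT fun x => (P x).c (a x) := by
  unfold c grp; fun_prop
@[fun_prop] theorem pt_C (hP : PT P) (hd : PT d) : PT fun x => (P x).C (d x) := by
  unfold C; fun_prop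
@[fun_prop] theorem pt_pt (hP : PT P) (hd : PT d) : PT fun x => (P x).pt (d x) := by
  unfold pt xN yN Y; fun_prop

@[fun_prop] theorem pt_allD : PT allD := by unfold allD; fun_prop
@[fun_prop] theorem pt_descs : PT descs := by unfold descs; fun_prop
@[fun_prop] theorem pt_cfg : PT cfg := by
  unfold cfg; exact pt_ded (by fun_prop)

@[fun_prop] theorem pt_Cov [∀ x, Decidable ((P x).Cov (T x) (d x))] (hP : PT P) (hT : PT T)
    (hd : PT d) : PT fun x => decide ((P x).Cov (T x) (d x)) := by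
  classical
  unfold Cov at *; fun_prop

theorem ex_cov (P : Par) (T : List (ℚ × ℚ)) (p : Desc → Prop) :
    (∃ d ∈ P.descs, P.Cov T d ∧ p d) ↔ ∃ d, P.Cov T d ∧ p d :=
  ⟨fun ⟨d, _, h⟩ => ⟨d, h⟩, fun ⟨d, h⟩ => ⟨d, mem_descs.2 h.1.1, h⟩⟩

@[fun_prop] theorem pt_MainR [∀ x, Decidable ((P x).MainR (T x) (a x) (i x))] (hP : PT P)
    (hT : PT T) (ha : PT a) (hi : PT i) : PT fun x => decide ((P x).MainR (T x) (a x) (i x)) := by
  classical
  refine pt_dec (p := fun x => ∃ d1 ∈ (P x).descs, (P x).Cov (T x) d1 ∧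
    ∃ d2 ∈ (P x).descs, (P x).Cov (T x) d2 ∧ ∃ d3 ∈ (P x).descs, (P x).Cov (T x) d3 ∧
      d1.a = a x ∧ d1.i = i x ∧ d2.a = a x ∧ d2.i = i x ∧ d3.a = a x ∧ d3.i = i x ∧
      ((P x).Low d2 ↔ (P x).Low d1) ∧ ((P x).Low d2 ↔ (P x).Low d3) ∧
      (P x).X d1 < (P x).X d2 ∧ (P x).X d2 < (P x).X d3) (by fun_prop) fun x => ?_
  simp only [ex_cov, MainR]
  exact ⟨fun ⟨d1, h1, d2, h2, d3, h3, h⟩ => ⟨d1, d2, d3, h1, h2, h3, h⟩,
    fun ⟨d1, d2, d3, h1, h2, h3, h⟩ => ⟨d1, h1, d2, h2, d3, h3, h⟩⟩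

@[fun_prop] theorem pt_HonR [∀ x, Decidable ((P x).HonR (y x) (a x) (i x))] (hP : PT P)
    (hy : PT y) (ha : PT a) (hi : PT i) : PT fun x => decide ((P x).HonR (y x) (a x) (i x)) := by
  classical
  unfold HonR at *; fun_prop

@[fun_prop] theorem pt_Val [∀ x, Decidable ((P x).Val (y x) (a x) (i x) (b x))] (hP : PT P)
    (hy : PT y) (ha : PT a) (hi : PT i) (hb : PT b) :
    PT fun x => decide ((P x).Val (y x) (a x) (i x) (b x)) := by
  classical
  refine pt_dec (p := fun x => ∃ T ∈ y x, (P x).MainR T (a x) (i x) ∧ ∃ d ∈ (P x).descs,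
    (P x).Cov T d ∧ d.a = a x ∧ d.i = i x ∧ d.b = b x ∧ (P x).Low d) (by fun_prop) fun x => ?_
  simp only [ex_cov, Val]

@[fun_prop] theorem pt_pick (hP : PT P) (hy : PT y) (hs : PT s) (ht : PT t) (hk : PT k) :
    PT fun x => (P x).pick (y x) (s x) (t x) (k x) := by
  classical
  unfold pick; fun_prop

@[fun_prop] theorem pt_asg (hP : PT P) (hy : PT y) (hs : PT s) (ht : PT t) (hk : PT k) :
    PT fun x => (P x).asg (y x) (s x) (t x) (k x) := by
  unfold asg; fun_prop

end Par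

end Pool.Agent.Work.MP_32aa60_lc
end

-- merged part: Pool.Agent.Work.MP_32aa60_lc.H39Top
section
/-!
The reduction from an arbitrary problem in APX.
-/

namespace Pool.Agent.Work.MP_32aa60_lc

open Pool.Agent.Lib.Poly Finset

/-- The value `m'` is at least as good as `m`. -/
def Bt (mx : Bool) (m m' : ℕ) : Prop := if mx = true then m ≤ m' else m' ≤ m

/-- The threshold number `l`. -/
def Thr (mx : Bool) (L ρ l m0 m : ℕ) : Prop :=
  if mx = true then (L + (l + 1) * ρ) * m0 ≤ L * m else L * m ≤ (L - l - 1) * m0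

theorem Bt.refl (mx : Bool) (m : ℕ) : Bt mx m m := by unfold Bt; split_ifs <;> rfl

theorem Bt.trans {mx : Bool} {a b c : ℕ} (h : Bt mx a b) (h' : Bt mx b c) : Bt mx a c := by
  unfold Bt at *; split_ifs at * <;> omega

theorem Bt.total {mx : Bool} {a b : ℕ} (h : ¬ Bt mx a b) : Bt mx b a := by
  unfold Bt at *; split_ifs at * <;> omega

theorem Thr.better {mx : Bool} {L ρ l l' m0 m m' : ℕ} (h : Thr mx L ρ l m0 m) (hl : l' ≤ l)
    (hb : Bt mx m m') : Thr mx L ρ l' m0 m' := by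
  unfold Thr Bt at *
  split_ifs at *
  · exact (Nat.mul_le_mul_right _ (Nat.add_le_add_left
      (Nat.mul_le_mul_right _ (by omega)) _)).trans (h.trans (Nat.mul_le_mul_left _ hb))
  · exact (Nat.mul_le_mul_left _ hb).trans (h.trans (Nat.mul_le_mul_right _ (by omega)))

theorem fold_best {β : Type} (ok : β → Prop) (v : β → ℕ) (mx : Bool)
    [∀ b w, Decidable (ok w ∧ Bt mx (v b) (v w))] (l : List β) (b0 : β) (h0 : ok b0) :
    ok (l.foldl (fun b w => if ok w ∧ Bt mx (v b) (v w) then w else b) b0) ∧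
    Bt mx (v b0) (v (l.foldl (fun b w => if ok w ∧ Bt mx (v b) (v w) then w else b) b0)) ∧
    ∀ w ∈ l, ok w →
      Bt mx (v w) (v (l.foldl (fun b w => if ok w ∧ Bt mx (v b) (v w) then w else b) b0)) := by
  induction l generalizing b0 with
  | nil => exact ⟨h0, Bt.refl _ _, by simp⟩
  | cons x l ih =>
    rw [List.foldl_cons]
    by_cases h : ok x ∧ Bt mx (v b0) (v x)
    · rw [if_pos h]
      obtain ⟨a1, a2, a3⟩ := ih x h.1
      refine ⟨a1, h.2.trans a2, fun w hw => ?_⟩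
      rcases List.mem_cons.1 hw with rfl | hw
      · exact fun _ => a2
      · exact a3 w hw
    · rw [if_neg h]
      obtain ⟨a1, a2, a3⟩ := ih b0 h0
      refine ⟨a1, a2, fun w hw => ?_⟩
      rcases List.mem_cons.1 hw with rfl | hw
      · exact fun hx => (Bt.total fun hb => h ⟨hx, hb⟩).trans a2
      · exact a3 w hw

theorem ladder {L : ℕ} (sat solved good : ℕ → Prop) [DecidablePred fun l => ¬ sat l]
    [DecidablePred fun l => ¬ solved l]
    (h : ((range L).filter fun l => ¬ solved l).card ≤ ((range L).filter fun l => ¬ sat l).card + 2)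
    (h1 : ∀ l < L, good l → sat l) (hL : 0 < L) (h2 : ¬ good (L - 1)) :
    ∃ j < L, ¬ good j ∧ (j < 3 ∨ ∃ l < L, j - 3 ≤ l ∧ solved l) := by
  classical
  have ex : ∃ j, ¬ good j := ⟨_, h2⟩
  have hj : Nat.find ex ≤ L - 1 := Nat.find_min' ex h2
  refine ⟨Nat.find ex, by omega, Nat.find_spec ex, ?_⟩
  by_contra hc
  rw [not_or] at hc
  have e1 : ((range L).filter fun l => ¬ sat l).card ≤ (Ico (Nat.find ex) L).card := by
    refine card_le_card fun l hl => ?_
    simp only [mem_filter, mem_range] at hl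
    rw [mem_Ico]
    refine ⟨not_lt.1 fun hlt => hl.2 (h1 l hl.1 ?_), hl.1⟩
    simpa using Nat.find_min ex hlt
  have e2 : (Ico (Nat.find ex - 3) L).card ≤ ((range L).filter fun l => ¬ solved l).card := by
    refine card_le_card fun l hl => ?_
    rw [mem_Ico] at hl
    simp only [mem_filter, mem_range]
    exact ⟨hl.2, fun hs => hc.2 ⟨l, hl.2, hl.1, hs⟩⟩
  rw [Nat.card_Ico] at e1 e2
  omega

theorem final_ineq {mx : Bool} {ρ k j m0 mz mg : ℕ} (hρ : 1 ≤ ρ) (hj : j < 3 * ρ * k)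
    (h0 : if mx = true then True else m0 ≤ ρ * mz) (h1 : ¬ Thr mx (3 * ρ * k) ρ j m0 mz)
    (h2 : Bt mx m0 mg) (h3 : j < 3 ∨ Thr mx (3 * ρ * k) ρ (j - 3) m0 mg) :
    if mx = true then k * mz ≤ (k + 1) * mg else k * mg ≤ (k + 1) * mz := by
  unfold Thr Bt at *
  have key : ∀ a b : ℕ, 3 * ρ * k * a ≤ 3 * ρ * k * b + 3 * ρ * b → k * a ≤ (k + 1) * b := by
    intro a b h
    refine Nat.le_of_mul_le_mul_left ?_ (show 0 < 3 * ρ by omega)
    linarith only [h]
  generalize 3 * ρ * k = L at *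
  split_ifs at * with hm
  · refine key _ _ ?_
    have a1 := Nat.mul_le_mul_left (3 * ρ) h2
    by_cases h4 : j < 3
    · have a2 : (L + (j + 1) * ρ) * m0 ≤ (L + 3 * ρ) * m0 :=
        Nat.mul_le_mul_right _ (Nat.add_le_add_left (Nat.mul_le_mul_right _ h4) _)
      have a3 := Nat.mul_le_mul_left L h2
      linarith only [h1, a1, a2, a3]
    · obtain ⟨i, rfl⟩ : ∃ i, j = i + 3 := ⟨j - 3, by omega⟩
      have a2 := h3.resolve_left h4
      rw [Nat.add_sub_cancel] at a2
      linarith only [a1, h1, a2]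
  · refine key _ _ ?_
    have a0 : L * mg ≤ (L - j - 1 + 3) * m0 := by
      rcases h3 with h3 | h3
      · exact (Nat.mul_le_mul_left L h2).trans (Nat.mul_le_mul_right _ (by omega))
      · exact h3.trans (Nat.mul_le_mul_right _ (by omega))
    linarith only [h0, h1, a0]

theorem pt_Bt {α : Type} [Enc α] (mx : Bool) {a b : α → ℕ} (ha : PT fun x => Bin.mk (a x))
    (hb : PT fun x => Bin.mk (b x)) [∀ x, Decidable (Bt mx (a x) (b x))] :
    PT fun x => decide (Bt mx (a x) (b x)) := by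
  cases mx
  · exact Par.pt_dec (pt_binLe (PT.const 1) (PT.const 1) hb ha) fun x => by simp [Bt]
  · exact Par.pt_dec (pt_binLe (PT.const 1) (PT.const 1) ha hb) fun x => by simp [Bt]

theorem pt_Thr {α : Type} [Enc α] (mx : Bool) (ρ : ℕ) {L l a b : α → ℕ} (hL : PT L) (hl : PT l)
    (ha : PT fun x => Bin.mk (a x)) (hb : PT fun x => Bin.mk (b x))
    [∀ x, Decidable (Thr mx (L x) ρ (l x) (a x) (b x))] :
    PT fun x => decide (Thr mx (L x) ρ (l x) (a x) (b x)) := by
  cases mx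
  · exact Par.pt_dec (pt_binLe (B := fun x => L x - l x - 1) hL (by fun_prop) hb ha) fun x => by
      simp [Thr]
  · exact Par.pt_dec (pt_binLe (A := fun x => L x + (l x + 1) * ρ) (by fun_prop) hL ha hb)
      fun x => by simp [Thr]

theorem reduces (A : NPO) (hA : A.InAPX) : ReducesToCP A := by
  classical
  obtain ⟨r, alg, halg, hr⟩ := hA
  obtain ⟨ρ, hρ1, hρ⟩ : ∃ ρ : ℕ, 1 ≤ ρ ∧ r ≤ ρ :=
    ⟨⌈r⌉₊ + 1, by omega, by push_cast; linarith [Nat.le_ceil r]⟩
  have psol : PT A.sol := pt_of_tm2 A.sol_poly _ (fun z => z) (fun _ => rfl) fun _ => rfl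
  have pval : PT fun z => Bin.mk (A.val z) :=
    pt_of_tm2 A.val_poly _ (fun z => z) (fun _ => rfl) fun _ => rfl
  have palg : PT alg := pt_of_tm2 halg _ (fun z => z) (fun _ => rfl) fun _ => rfl
  obtain ⟨φ, pφ, φ3, φc, φs⟩ := cook_levin_wit
    (fun z : ((List Bool × List Bool) × ℕ) × List Bool => decide (A.sol (z.1.1.1, z.2) = true ∧
      Thr A.isMax (3 * ρ * z.1.1.2.length) ρ z.1.2 (A.val (z.1.1.1, alg z.1.1.1))
        (A.val (z.1.1.1, z.2))))
    (PT.dand (by fun_prop) (pt_Thr _ _ (by fun_prop) (by fun_prop)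
      (pval.comp (by fun_prop)) (pval.comp (by fun_prop))))
    (fun z => A.bound.eval z.1.1.length) (by fun_prop)
  let Φ : List Bool × List Bool → Par := fun z =>
    (List.range (3 * ρ * z.2.length)).map fun l => φ (z, l)
  have pΦ : PT Φ := by fun_prop
  let cands : (List Bool × List Bool) × List (List (ℚ × ℚ)) → List (List Bool) := fun z =>
    (List.range (Φ z.1).S).flatMap fun s => (List.range (Φ z.1).S').flatMap fun t =>
      (List.range (A.bound.eval z.1.1.length + 1)).map fun len => wit ((Φ z.1).asg z.2 s t) len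
  have pc : PT cands := by
    simp only [cands, wit]
    fun_prop
  let g : (List Bool × List Bool) × List (List (ℚ × ℚ)) → List Bool := fun z =>
    (cands z).foldl (fun b w => if A.sol (z.1.1, w) = true ∧
      Bt A.isMax (A.val (z.1.1, b)) (A.val (z.1.1, w)) then w else b) (alg z.1.1)
  have pg : PT g := by
    refine PT.foldl (f := fun (z : (List Bool × List Bool) × List (List (ℚ × ℚ))) b w =>
      if A.sol (z.1.1, w) = true ∧
      Bt A.isMax (A.val (z.1.1, b)) (A.val (z.1.1, w)) then w else b)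
      (PT.ite (PT.dand (by fun_prop) (pt_Bt _ (pval.comp (by fun_prop)) (pval.comp (by fun_prop))))
        (by fun_prop) (by fun_prop)) (by fun_prop) pc (fun n => n) (by fun_prop) fun a c x => ?_
    split_ifs <;> omega
  refine ⟨fun z => (Φ z).cfg, g, 18 * ρ, by omega,
    (Par.pt_cfg.comp pΦ).tm2 _ _ _ (fun z => z) (fun _ => rfl) fun _ => rfl,
    pg.tm2 _ _ _ (fun z => z) (fun _ => rfl) fun _ => rfl, fun k x hk hx => ?_⟩
  set z : List Bool × List Bool := (x, List.replicate k true) with hz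
  have hL : (Φ z).L = 3 * ρ * k := by simp [Par.L, Φ, hz]
  have hL3 : 3 ≤ 3 * ρ * k := by nlinarith only [hρ1, hk]
  have hf : ∀ l < 3 * ρ * k, (Φ z).fml l = φ (z, l) := by
    intro l hl
    simp [Par.fml, Φ, hz, List.getD_eq_getElem?_getD, hl]
  refine ⟨ded_nodup _, Par.cfg_ne_nil (by omega), fun y hy => ?_⟩
  obtain ⟨s0, a0⟩ := hr x hx
  obtain ⟨b1, b2, b3⟩ := fold_best (fun w => A.sol (x, w) = true) (fun w => A.val (x, w)) A.isMax
    (cands (z, y)) (alg x) s0
  change A.sol (x, g (z, y)) = true at b1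
  change Bt _ _ (A.val (x, g (z, y))) at b2
  change ∀ w ∈ _, _ → Bt _ _ (A.val (x, g (z, y))) at b3
  refine ⟨b1, fun hlen => ⟨b1, fun w hw => ?_⟩⟩
  have hk0 : (0 : ℝ) < k := by exact_mod_cast hk
  have hρ0 : (0 : ℝ) < ρ := by exact_mod_cast hρ1
  have hlen' : 6 * (Φ z).L * y.length ≤ (6 * (Φ z).L + 1) * CP (Φ z).cfg := by
    rw [hL]
    have h1 := mul_le_mul_of_nonneg_left hlen (show (0 : ℝ) ≤ 18 * ρ * k by positivity)
    have h2 : (18 * ρ * k : ℝ) * ((1 + 1 / (((18 * ρ : ℕ) : ℝ) * k)) * CP (Φ z).cfg) =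
        (6 * (3 * ρ * k) + 1) * CP (Φ z).cfg := by
      push_cast
      field_simp
      ring
    rw [h2, show (18 * ρ * k : ℝ) = 6 * (3 * ρ * k) by ring] at h1
    exact_mod_cast h1
  have hgap := Par.gap (P := Φ z) (by
    intro ψ hψ
    obtain ⟨l, -, rfl⟩ := List.mem_map.1 hψ
    exact φ3 _) (by omega) hy hlen'
  rw [hL] at hgap
  have aw := a0 w hw
  have p0 := A.val_pos x _ hx.1 s0
  have pw := A.val_pos x _ hx.1 hw
  have aw' : if A.isMax = true then A.val (x, w) ≤ ρ * A.val (x, alg x)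
      else A.val (x, alg x) ≤ ρ * A.val (x, w) := by
    split_ifs at aw ⊢
    · exact_mod_cast aw.trans (mul_le_mul_of_nonneg_right hρ (Nat.cast_nonneg _))
    · exact_mod_cast aw.trans (mul_le_mul_of_nonneg_right hρ (Nat.cast_nonneg _))
  obtain ⟨j, hj, hn, hs⟩ := ladder _ _
    (fun l => Thr A.isMax (3 * ρ * k) ρ l (A.val (x, alg x)) (A.val (x, w))) hgap (by
      intro l hl ht
      rw [hf l hl]
      exact φc (z, l) w (A.sol_short x w hx.1 hw) (by simpa [hz] using ⟨hw, ht⟩)) (by omega) (by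
      unfold Thr
      generalize 3 * ρ * k = L at hL3
      obtain ⟨L', rfl⟩ : ∃ L', L = L' + 1 := ⟨L - 1, by omega⟩
      split_ifs at aw' ⊢
      · rw [Nat.add_sub_cancel]
        nlinarith
      · rw [show L' + 1 - (L' + 1 - 1) - 1 = 0 by omega]
        nlinarith)
  have fin := final_ineq (mx := A.isMax) (mg := A.val (x, g (z, y))) hρ1 hj
    (by split_ifs at aw' ⊢; exact aw') hn b2 (hs.imp_right (by
      rintro ⟨l, hl, hjl, s, hs, t, ht, hsat⟩
      rw [hf l hl] at hsat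
      obtain ⟨len, h1, h2⟩ := φs _ _ hsat
      simp only [hz, List.length_replicate, decide_eq_true_eq] at h1 h2
      refine h2.2.better hjl (b3 _ ?_ h2.1)
      simp only [cands, List.mem_flatMap, List.mem_map, List.mem_range]
      exact ⟨s, hs, t, ht, len, by simp only [hz]; omega, rfl⟩))
  have conv : ∀ a b : ℕ, k * a ≤ (k + 1) * b → (a : ℝ) ≤ (1 + 1 / (k : ℝ)) * b := by
    intro a b h
    have h' : (k : ℝ) * a ≤ (k + 1) * b := by exact_mod_cast h
    rw [show (1 + 1 / (k : ℝ)) * b = (k + 1) * b / k by field_simp, le_div_iff₀ hk0]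
    linarith only [h']
  split_ifs at fin ⊢
  · exact conv _ _ fin
  · exact conv _ _ fin

end Pool.Agent.Work.MP_32aa60_lc
end
end
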